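import Mathlib

set_option autoImplicit false
set_option linter.unusedSectionVars false

namespace Pool.Agent.OmegaEven

/-- a nondegenerate quadratic space (used in characteristic two) -/
structure QSp (F V : Type*) [Field F] [AddCommGroup V] [Module F V] where
  Q : V → F
  B : V →ₗ[F] V →ₗ[F] F
  add : ∀ x y, Q (x + y) = Q x + Q y + B x y
  smul : ∀ (c : F) x, Q (c • x) = c ^ 2 * Q x
  nd : ∀ x, (∀ y, B x y = 0) → x = 0

section
variable {F V : Type*} [Field F] [CharP F 2] [AddCommGroup V] [Module F V]

theorem two_F : (2 : F) = 0 := by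
  have := CharP.cast_eq_zero F 2
  exact_mod_cast this

theorem add_selfV (F : Type*) {V : Type*} [Field F] [CharP F 2] [AddCommGroup V] [Module F V]
    (x : V) : x + x = 0 := by
  have : x + x = (2 : F) • x := by rw [two_smul]
  rw [this, two_F, zero_smul]

theorem neg_eqV (F : Type*) {V : Type*} [Field F] [CharP F 2] [AddCommGroup V] [Module F V]
    (x : V) : -x = x := by
  rw [neg_eq_iff_add_eq_zero]
  exact add_selfV F x

theorem eq_of_add_eq_zeroV (F : Type*) {V : Type*} [Field F] [CharP F 2] [AddCommGroup V]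
    [Module F V] {x y : V} (h : x + y = 0) : x = y := by
  rw [← neg_eqV F y]
  exact eq_neg_of_add_eq_zero_left h

namespace QSp
variable (S : QSp F V)

theorem Q_zero : S.Q 0 = 0 := by
  have := S.smul 0 0
  simpa using this

theorem symm (x y : V) : S.B x y = S.B y x := by
  have h1 := S.add x y
  have h2 := S.add y x
  rw [add_comm y x, h1] at h2
  linear_combination h2

theorem self (x : V) : S.B x x = 0 := by
  have h1 := S.add x x
  rw [add_selfV F x, S.Q_zero] at h1
  have h2 : S.Q x + S.Q x = 0 := CharTwo.add_self_eq_zero _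
  rw [h2, zero_add] at h1
  exact h1.symm

/-- two-dimensional duality -/
theorem exists_dual {u v : V} (hv : ∀ c : F, v ≠ c • u) : ∃ x, S.B x u = 0 ∧ S.B x v = 1 := by
  by_contra hcon
  push Not at hcon
  have h0 : ∀ x, S.B x u = 0 → S.B x v = 0 := by
    intro x hx
    by_contra h
    apply hcon ((S.B x v)⁻¹ • x)
    · simp [hx]
    · simp [h]
  by_cases hu : u = 0
  · apply hv 0
    rw [zero_smul]
    apply S.nd
    intro y
    rw [S.symm]
    apply h0
    rw [hu, map_zero]
  · have : ∃ x, S.B u x ≠ 0 := by
      by_contra h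
      push Not at h
      exact hu (S.nd u h)
    obtain ⟨x, hx⟩ := this
    rw [S.symm] at hx
    apply hv ((S.B x u)⁻¹ * S.B x v)
    rw [← sub_eq_zero]
    apply S.nd
    intro y
    rw [S.symm]
    have h1 := h0 (y - (S.B y u * (S.B x u)⁻¹) • x) (by
      simp only [map_sub, map_smul, LinearMap.sub_apply, LinearMap.smul_apply, smul_eq_mul]
      field_simp
      ring)
    simp only [map_sub, map_smul, LinearMap.sub_apply, LinearMap.smul_apply, smul_eq_mul] at h1 ⊢
    linear_combination h1

theorem exists_ne {u : V} (hu : u ≠ 0) : ∃ x, S.B x u = 1 := by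
  have : ∃ x, S.B u x ≠ 0 := by
    by_contra h
    push Not at h
    exact hu (S.nd u h)
  obtain ⟨x, hx⟩ := this
  rw [S.symm] at hx
  refine ⟨(S.B x u)⁻¹ • x, ?_⟩
  simp [hx]

/-- if `x` is orthogonal to the kernel of a self-adjoint map then it lies in the range -/
theorem mem_range [FiniteDimensional F V] (w : V →ₗ[F] V)
    (ws : ∀ x y, S.B (w x) y = S.B x (w y)) {x : V}
    (hx : ∀ y, w y = 0 → S.B x y = 0) : ∃ z, w z = x := by
  classical
  by_contra hcon
  push Not at hcon
  have hx' : x ∉ LinearMap.range w := by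
    rintro ⟨z, hz⟩
    exact hcon z hz
  obtain ⟨f, hf1, hf2⟩ := Submodule.exists_dual_map_eq_bot_of_notMem hx' inferInstance
  -- represent f
  have hinj : Function.Injective S.B := by
    intro a b hab
    rw [← sub_eq_zero]
    apply S.nd
    intro y
    rw [map_sub, hab, sub_self, LinearMap.zero_apply]
  have hsurj : Function.Surjective S.B := by
    have h1 : Module.finrank F V = Module.finrank F (V →ₗ[F] F) :=
      (Subspace.dual_finrank_eq (K := F) (V := V)).symm
    exact (LinearMap.injective_iff_surjective_of_finrank_eq_finrank h1).1 hinj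
  obtain ⟨u, hu⟩ := hsurj f
  have hwu : w u = 0 := by
    apply S.nd
    intro y
    rw [ws, hu]
    have : f (w y) ∈ Submodule.map f (LinearMap.range w) := ⟨w y, ⟨y, rfl⟩, rfl⟩
    rw [hf2] at this
    exact (Submodule.mem_bot F).1 this
  apply hf1
  rw [← hu, S.symm]
  exact hx u hwu

end QSp

/-- functionals killed on a common kernel -/
theorem lin2 (f g p : V →ₗ[F] F) (h : ∀ x, f x = 0 → g x = 0 → p x = 0) :
    ∃ a b : F, ∀ x, p x = a * f x + b * g x := by
  classical
  have hle : (⨅ i : Fin 2, LinearMap.ker (![f, g] i)) ≤ LinearMap.ker p := by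
    intro x hx
    rw [Submodule.mem_iInf] at hx
    exact h x (by simpa using hx 0) (by simpa using hx 1)
  have := mem_span_of_iInf_ker_le_ker hle
  rw [show Set.range ![f, g] = {f, g} by
    simp [Matrix.range_cons, Set.pair_comm], Submodule.mem_span_pair] at this
  obtain ⟨a, b, hab⟩ := this
  exact ⟨a, b, fun x => by rw [← hab]; simp⟩

end

section root
variable {F V : Type*} [Field F] [CharP F 2] [PerfectRing F 2] [AddCommGroup V] [Module F V]

/-- square root -/
noncomputable def rt : F ≃+* F := (frobeniusEquiv F 2).symm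

theorem rt_sq (c : F) : (rt c) ^ 2 = c := by
  have := frobeniusEquiv_symm_pow_p F 2 c
  exact this

theorem rt_of_sq (c : F) : rt (c ^ 2) = c := by
  have := frobeniusEquiv_symm_pow F 2 c
  exact this

/-- square root of `Q ∘ g` is linear when the range of `g` is totally isotropic -/
noncomputable def rtMap (S : QSp F V) {W : Type*} [AddCommGroup W] [Module F W] (g : W →ₗ[F] V)
    (h : ∀ x y, S.B (g x) (g y) = 0) : W →ₗ[F] F where
  toFun x := rt (S.Q (g x))
  map_add' x y := by rw [map_add, S.add, h, add_zero, map_add]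
  map_smul' c x := by
    rw [map_smul, S.smul, map_mul, rt_of_sq]; rfl

theorem rtMap_sq (S : QSp F V) {W : Type*} [AddCommGroup W] [Module F W] (g : W →ₗ[F] V)
    (h : ∀ x y, S.B (g x) (g y) = 0) (x : W) : (rtMap S g h x) ^ 2 = S.Q (g x) :=
  rt_sq _

end root

end Pool.Agent.OmegaEven
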