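import Mathlib
import Pool.Agent.OmegaEven.Basic

set_option autoImplicit false
set_option linter.unusedSectionVars false
set_option linter.unusedVariables false
set_option linter.unnecessarySeqFocus false
set_option linter.style.haveILetI false

namespace Pool.Agent.OmegaEven

open Module
open scoped commutatorElement

section
variable {F V : Type*} [Field F] [AddCommGroup V] [Module F V]

/-- the isometry group -/
def QSp.O (S : QSp F V) : Subgroup (V ≃ₗ[F] V) where
  carrier := {g | ∀ x, S.Q (g x) = S.Q x}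
  mul_mem' := by
    intro a b ha hb x
    change S.Q (a (b x)) = _
    rw [ha, hb]
  one_mem' := fun x => rfl
  inv_mem' := by
    intro a ha x
    have h := ha (a⁻¹ x)
    rw [← h]
    congr 1
    exact a.apply_symm_apply x

/-- its commutator subgroup -/
def QSp.Om (S : QSp F V) : Subgroup (V ≃ₗ[F] V) := ⁅S.O, S.O⁆

theorem QSp.mem_O (S : QSp F V) {g : V ≃ₗ[F] V} : g ∈ S.O ↔ ∀ x, S.Q (g x) = S.Q x := Iff.rfl

theorem QSp.Om_le (S : QSp F V) : S.Om ≤ S.O := Subgroup.commutator_le_self _

theorem QSp.O_B (S : QSp F V) {g : V ≃ₗ[F] V} (hg : g ∈ S.O) (x y : V) :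
    S.B (g x) (g y) = S.B x y := by
  have h1 := S.add (g x) (g y)
  rw [← map_add, hg, hg, hg, S.add] at h1
  exact (add_left_cancel h1).symm

theorem mul_apply' (g h : V ≃ₗ[F] V) (x : V) : (g * h) x = g (h x) := rfl

theorem inv_apply_self' (g : V ≃ₗ[F] V) (x : V) : g⁻¹ (g x) = x := g.symm_apply_apply x

theorem apply_inv_self' (g : V ≃ₗ[F] V) (x : V) : g (g⁻¹ x) = x := g.apply_symm_apply x

end

variable {F V : Type*} [Field F] [CharP F 2] [AddCommGroup V] [Module F V]

/-- the involution `1 + M` -/
def inv1 (M : V →ₗ[F] V) (h : ∀ x, M (M x) = 0) : V ≃ₗ[F] V :=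
  LinearEquiv.ofInvolutive (LinearMap.id + M) (by
    intro x
    change (x + M x) + M (x + M x) = x
    rw [map_add, h, add_zero, add_assoc, add_selfV F, add_zero])

theorem inv1_apply (M : V →ₗ[F] V) (h : ∀ x, M (M x) = 0) (x : V) : inv1 M h x = x + M x := rfl

theorem inv1_sq (M : V →ₗ[F] V) (h : ∀ x, M (M x) = 0) : inv1 M h * inv1 M h = 1 := by
  ext x
  change inv1 M h (inv1 M h x) = x
  rw [inv1_apply, inv1_apply, map_add, h, add_zero, add_assoc, add_selfV F, add_zero]

namespace QSp
variable (S : QSp F V)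

/-- the reflection (transvection) map minus one -/
noncomputable def rf (a : V) : V →ₗ[F] V := (S.Q a)⁻¹ • (S.B.flip a).smulRight a

theorem rf_apply (a x : V) : S.rf a x = ((S.Q a)⁻¹ * S.B x a) • a := by
  simp [rf, smul_smul]

theorem rf_rf (a x : V) : S.rf a (S.rf a x) = 0 := by
  rw [rf_apply, rf_apply, map_smul, LinearMap.smul_apply, S.self]; simp

/-- reflections -/
noncomputable def refl (a : V) : V ≃ₗ[F] V := inv1 (S.rf a) (S.rf_rf a)

theorem refl_apply (a x : V) : S.refl a x = x + ((S.Q a)⁻¹ * S.B x a) • a := by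
  rw [refl, inv1_apply, rf_apply]

theorem refl_refl (a : V) : S.refl a * S.refl a = 1 := inv1_sq _ _

theorem refl_inv (a : V) : (S.refl a)⁻¹ = S.refl a := by
  rw [inv_eq_iff_mul_eq_one]; exact S.refl_refl a

theorem refl_mem (a : V) : S.refl a ∈ S.O := by
  intro x
  rw [refl_apply, S.add, S.smul, map_smul, smul_eq_mul]
  by_cases h : S.Q a = 0
  · rw [h]; simp
  · field_simp
    linear_combination (norm := (ring_nf; reduce_mod_char!)) (0 : F)

theorem refl_smul (a : V) (c : F) (hc : c ≠ 0) : S.refl (c • a) = S.refl a := by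
  ext x
  rw [refl_apply, refl_apply, S.smul, map_smul, smul_eq_mul, smul_smul]
  congr 2
  by_cases h : S.Q a = 0
  · rw [h]; simp
  · field_simp

/-- conjugation of reflections -/
theorem conj_refl {g : V ≃ₗ[F] V} (hg : g ∈ S.O) (a : V) :
    g * S.refl a * g⁻¹ = S.refl (g a) := by
  ext x
  rw [mul_apply', mul_apply', refl_apply, refl_apply, map_add, apply_inv_self', map_smul, hg]
  congr 3
  rw [← S.O_B hg, apply_inv_self']

theorem refl_refl_mem_of_map {g : V ≃ₗ[F] V} (hg : g ∈ S.O) (a : V) :
    S.refl a * S.refl (g a) ∈ S.Om := by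
  have h1 : S.refl a * S.refl (g a) = ⁅S.refl a, g⁆ := by
    rw [← S.conj_refl hg a, commutatorElement_def, S.refl_inv]
    group
  rw [h1]
  exact Subgroup.commutator_mem_commutator (S.refl_mem a) hg

theorem exists_avoid2 {u v : V} (hu : u ≠ 0) (hv : v ≠ 0) : ∃ x, S.B x u ≠ 0 ∧ S.B x v ≠ 0 := by
  obtain ⟨x, hx⟩ := S.exists_ne hu
  obtain ⟨y, hy⟩ := S.exists_ne hv
  by_cases h1 : S.B x v = 0
  · by_cases h2 : S.B y u = 0
    · refine ⟨x + y, ?_, ?_⟩
      · rw [map_add, LinearMap.add_apply, hx, h2, add_zero]; exact one_ne_zero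
      · rw [map_add, LinearMap.add_apply, h1, hy, zero_add]; exact one_ne_zero
    · exact ⟨y, h2, by rw [hy]; exact one_ne_zero⟩
  · exact ⟨x, by rw [hx]; exact one_ne_zero, h1⟩

/-- orthogonal complement of a subspace -/
def perp (W : Submodule F V) : Submodule F V where
  carrier := {x | ∀ w ∈ W, S.B x w = 0}
  add_mem' := by
    intro a b ha hb w hw
    rw [map_add, LinearMap.add_apply, ha w hw, hb w hw, add_zero]
  zero_mem' := by
    intro w hw
    rw [map_zero, LinearMap.zero_apply]
  smul_mem' := by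
    intro c x hx w hw
    rw [map_smul, LinearMap.smul_apply, hx w hw, smul_zero]

theorem mem_perp {W : Submodule F V} {x : V} : x ∈ S.perp W ↔ ∀ w ∈ W, S.B x w = 0 := Iff.rfl

theorem B_inj : Function.Injective S.B := by
  intro a b hab
  rw [← sub_eq_zero]
  apply S.nd
  intro y
  rw [map_sub, hab, sub_self, LinearMap.zero_apply]

theorem finrank_perp [FiniteDimensional F V] (W : Submodule F V) :
    finrank F (S.perp W) + finrank F W = finrank F V := by
  have h1 : Module.finrank F V = Module.finrank F (V →ₗ[F] F) :=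
    (Subspace.dual_finrank_eq (K := F) (V := V)).symm
  have hb : Function.Bijective S.B :=
    ⟨S.B_inj, (LinearMap.injective_iff_surjective_of_finrank_eq_finrank h1).1 S.B_inj⟩
  let e : V ≃ₗ[F] (V →ₗ[F] F) := LinearEquiv.ofBijective S.B hb
  have h2 : S.perp W = (W.dualAnnihilator).comap e.toLinearMap := by
    ext x
    rw [mem_perp, Submodule.mem_comap, Submodule.mem_dualAnnihilator]
    rfl
  have h3 := Subspace.finrank_add_finrank_dualAnnihilator_eq W
  rw [h2, ← h3, add_comm]
  congr 1
  have h4 : (W.dualAnnihilator).comap e.toLinearMap = (W.dualAnnihilator).map e.symm.toLinearMap :=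
    (Submodule.map_equiv_eq_comap_symm e.symm _).symm
  rw [h4]
  exact LinearEquiv.finrank_map_eq e.symm _

theorem perp_perp [FiniteDimensional F V] (W : Submodule F V) : S.perp (S.perp W) = W := by
  symm
  apply Submodule.eq_of_le_of_finrank_eq
  · intro x hx w hw
    rw [S.symm]
    exact hw x hx
  · have h1 := S.finrank_perp W
    have h2 := S.finrank_perp (S.perp W)
    omega

/-- a subspace of dimension more than half contains a nonsingular vector -/
theorem exists_ns [FiniteDimensional F V] {W : Submodule F V}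
    (hW : finrank F V < 2 * finrank F W) : ∃ a ∈ W, S.Q a ≠ 0 := by
  by_contra hcon
  push Not at hcon
  have h1 : W ≤ S.perp W := by
    intro x hx w hw
    have h2 := S.add x w
    rw [hcon x hx, hcon w hw, hcon _ (W.add_mem hx hw)] at h2
    simpa using h2.symm
  have h2 := Submodule.finrank_mono h1
  have h3 := S.finrank_perp W
  omega

/-- a nonsingular vector nonorthogonal to two given ones -/
theorem exists_ns_avoid [FiniteDimensional F V] (hV : 4 < finrank F V) {u v : V} (hu : u ≠ 0)
    (hv : v ≠ 0) : ∃ a, S.Q a ≠ 0 ∧ S.B a u ≠ 0 ∧ S.B a v ≠ 0 := by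
  obtain ⟨a, hau, hav⟩ := S.exists_avoid2 hu hv
  by_contra hcon
  push Not at hcon
  have h0 : ∀ b, S.B b u ≠ 0 → S.B b v ≠ 0 → S.Q b = 0 := by
    intro b hbu hbv
    by_contra h
    exact hbv (hcon b h hbu)
  set W := Submodule.span F ({u, v} : Set V) with hW
  have huW : u ∈ W := Submodule.subset_span (by simp)
  have hvW : v ∈ W := Submodule.subset_span (by simp)
  have hWr : finrank F W ≤ 2 := by
    classical
    have h1 := finrank_span_finset_le_card (R := F) ({u, v} : Finset V)
    have h2 : (({u, v} : Finset V) : Set V) = {u, v} := by simp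
    rw [Set.finrank, h2] at h1
    exact h1.trans Finset.card_le_two
  have h1 : ∀ w ∈ S.perp W, S.Q w = S.B a w := by
    intro w hw
    have h2 := h0 (a + w) (by
      rw [map_add, LinearMap.add_apply, hw u huW, add_zero]; exact hau) (by
      rw [map_add, LinearMap.add_apply, hw v hvW, add_zero]; exact hav)
    rw [S.add, h0 a hau hav, zero_add] at h2
    exact eq_of_add_eq_zeroV F h2
  have h3 : S.perp W ≤ S.perp (S.perp W) := by
    intro x hx w hw
    have h4 := S.add x w
    rw [h1 x hx, h1 w hw, h1 _ ((S.perp W).add_mem hx hw), map_add] at h4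
    simpa using h4.symm
  have h4 := Submodule.finrank_mono h3
  rw [S.perp_perp] at h4
  have h5 := S.finrank_perp W
  omega

end QSp

end Pool.Agent.OmegaEven
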