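import Mathlib
import Pool.Agent.OmegaEven.Group1

set_option autoImplicit false
set_option linter.unusedSectionVars false
set_option linter.unusedVariables false
set_option linter.unnecessarySeqFocus false
set_option linter.style.haveILetI false
set_option linter.unusedSimpArgs false

namespace Pool.Agent.OmegaEven

open Module

variable {F V : Type*} [Field F] [CharP F 2] [PerfectRing F 2] [AddCommGroup V] [Module F V]

namespace QSp
variable (S : QSp F V)

theorem exists_scale {a b : V} (ha : S.Q a ≠ 0) (hb : S.Q b ≠ 0) :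
    ∃ c : F, c ≠ 0 ∧ S.Q (c • a) = S.Q b := by
  refine ⟨rt (S.Q b / S.Q a), ?_, ?_⟩
  · intro h
    have h1 := rt_sq (S.Q b / S.Q a)
    rw [h] at h1
    have h2 : S.Q b / S.Q a ≠ 0 := div_ne_zero hb ha
    apply h2
    rw [← h1]; ring
  · rw [S.smul, rt_sq, div_mul_cancel₀ _ ha]

theorem refl_refl_mem_of_ne {a b : V} (ha : S.Q a ≠ 0) (hb : S.Q b ≠ 0) (hab : S.B a b ≠ 0) :
    S.refl a * S.refl b ∈ S.Om := by
  obtain ⟨c, hc, hcQ⟩ := S.exists_scale ha hb
  rw [← S.refl_smul a c hc]
  set a' := c • a with ha'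
  have h1 : S.B a' b ≠ 0 := by
    rw [ha', map_smul, LinearMap.smul_apply]; exact mul_ne_zero hc hab
  have h2 : S.refl (a' + b) a' = b := by
    have h3 : S.Q (a' + b) = S.B a' b := by
      rw [S.add, hcQ]
      linear_combination (norm := (ring_nf; reduce_mod_char!)) (0 : F)
    rw [refl_apply, h3, map_add, S.self, zero_add, inv_mul_cancel₀ h1, one_smul, ← add_assoc,
      add_selfV F, zero_add]
  have h3 := S.refl_refl_mem_of_map (S.refl_mem (a' + b)) a'
  rwa [h2] at h3

variable [FiniteDimensional F V] (hV : 4 < finrank F V)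
include hV

theorem refl_refl_mem {a b : V} (ha : S.Q a ≠ 0) (hb : S.Q b ≠ 0) :
    S.refl a * S.refl b ∈ S.Om := by
  have ha0 : a ≠ 0 := by rintro rfl; exact ha S.Q_zero
  have hb0 : b ≠ 0 := by rintro rfl; exact hb S.Q_zero
  obtain ⟨d, hd, hda, hdb⟩ := S.exists_ns_avoid hV ha0 hb0
  have h1 := S.refl_refl_mem_of_ne ha hd (by rw [S.symm]; exact hda)
  have h2 := S.refl_refl_mem_of_ne hd hb hdb
  have h3 := S.Om.mul_mem h1 h2
  have h4 : S.refl a * S.refl d * (S.refl d * S.refl b) = S.refl a * S.refl b := by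
    rw [mul_assoc, ← mul_assoc (S.refl d) (S.refl d), S.refl_refl, one_mul]
  rwa [h4] at h3

omit [PerfectRing F 2] [FiniteDimensional F V] hV in
/-- Siegel transformations with a nonsingular second vector -/
theorem siegel_ns {u v x : V} (hu : S.Q u = 0) (huv : S.B u v = 0) (hv : S.Q v ≠ 0) :
    (S.refl v * S.refl (v + S.Q v • u)) x =
      x + S.B x v • u + S.B x u • v + (S.Q v * S.B x u) • u := by
  have huv' : S.B v u = 0 := by rw [S.symm]; exact huv
  have h1 : S.Q (v + S.Q v • u) = S.Q v := by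
    rw [S.add, S.smul, hu, map_smul, huv']; simp
  rw [mul_apply', refl_apply, refl_apply, h1]
  simp only [map_add, map_smul, LinearMap.add_apply, LinearMap.smul_apply, smul_eq_mul, S.self,
    huv, huv']
  match_scalars <;> field_simp <;> (ring_nf; try reduce_mod_char!)

omit [PerfectRing F 2] [FiniteDimensional F V] hV in
theorem finrank_span_pair_le (u v : V) : finrank F (Submodule.span F ({u, v} : Set V)) ≤ 2 := by
  classical
  have h1 := finrank_span_finset_le_card (R := F) ({u, v} : Finset V)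
  have h2 : (({u, v} : Finset V) : Set V) = {u, v} := by simp
  rw [Set.finrank, h2] at h1
  exact h1.trans Finset.card_le_two

omit [PerfectRing F 2] in
/-- a nonsingular vector orthogonal to two given vectors -/
theorem exists_ns_perp (u v : V) : ∃ a, S.Q a ≠ 0 ∧ S.B a u = 0 ∧ S.B a v = 0 := by
  have h1 := finrank_span_pair_le (F := F) u v
  have h2 := S.finrank_perp (Submodule.span F ({u, v} : Set V))
  obtain ⟨a, ha, hQ⟩ := S.exists_ns (W := S.perp (Submodule.span F ({u, v} : Set V))) (by omega)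
  exact ⟨a, hQ, ha u (Submodule.subset_span (by simp)), ha v (Submodule.subset_span (by simp))⟩

/-- Siegel transformations with totally singular vectors -/
theorem siegel_mem {u v : V} (hu : S.Q u = 0) (hv : S.Q v = 0) (huv : S.B u v = 0)
    {g : V ≃ₗ[F] V} (hg : ∀ x, g x = x + S.B x v • u + S.B x u • v) : g ∈ S.Om := by
  obtain ⟨v1, hv1, hv1u, hv1v⟩ := S.exists_ns_perp hV u v
  have hv1u' : S.B u v1 = 0 := by rw [S.symm]; exact hv1u
  have hv1v' : S.B v v1 = 0 := by rw [S.symm]; exact hv1v
  have hv2 : S.Q (v + v1) = S.Q v1 := by rw [S.add, hv, hv1v']; simp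
  have hv2u : S.B u (v + v1) = 0 := by rw [map_add, huv, hv1u', add_zero]
  have huv' : S.B v u = 0 := by rw [S.symm]; exact huv
  have h0 : ∀ x, (S.refl v1 * S.refl (v1 + S.Q v1 • u)) x = _ := fun x =>
    S.siegel_ns (x := x) hu hv1u' hv1
  have h1 : ∀ x, (S.refl (v + v1) * S.refl ((v + v1) + S.Q (v + v1) • u)) x = _ := fun x =>
    S.siegel_ns (x := x) hu hv2u (by rw [hv2]; exact hv1)
  have hu1 : S.Q (v1 + S.Q v1 • u) ≠ 0 := by
    rw [S.add, S.smul, hu, map_smul, hv1u]; simpa using hv1
  have hu2 : S.Q ((v + v1) + S.Q (v + v1) • u) ≠ 0 := by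
    rw [S.add, S.smul, hu, map_smul, S.symm _ u, hv2u, hv2]; simpa using hv1
  have h2 : g = (S.refl v1 * S.refl (v1 + S.Q v1 • u)) *
      (S.refl (v + v1) * S.refl ((v + v1) + S.Q (v + v1) • u)) := by
    ext x
    rw [mul_apply', h1, h0, hg, hv2]
    simp only [map_add, map_smul, LinearMap.add_apply, LinearMap.smul_apply, smul_eq_mul, S.self,
      hv1u, hv1u', hv1v, hv1v', huv, huv', add_zero, mul_zero, zero_add, zero_mul]
    match_scalars <;> (ring_nf; try reduce_mod_char!)
  rw [h2]
  exact S.Om.mul_mem (S.refl_refl_mem hV hv1 hu1)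
    (S.refl_refl_mem hV (by rw [hv2]; exact hv1) hu2)

end QSp

end Pool.Agent.OmegaEven
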