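import Mathlib
import Pool.Agent.OmegaEven.Basic

set_option autoImplicit false
set_option linter.unusedSectionVars false
set_option linter.unusedVariables false

namespace Pool.Agent.OmegaEven

open Module

variable {F V : Type*} [Field F] [CharP F 2] [AddCommGroup V] [Module F V]

/-- the local situation: `w` is nilpotent and `wJ = Jw + w + w^2 + δ` -/
structure Core (S : QSp F V) (J w : V →ₗ[F] V) (e δ : F) : Prop where
  JJ : ∀ x, J (J x) = J x + e • x
  Js : ∀ x y, S.B (J x) y = S.B x (J y)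
  Ja : ∀ x, S.B (J x) x = 0
  ws : ∀ x y, S.B (w x) y = S.B x (w y)
  wa : ∀ x, S.B (w x) x = 0
  wJ : ∀ x, w (J x) = J (w x) + w x + w (w x) + δ • x
  nil : ∃ k : ℕ, w ^ k = 0

/-- there is a nontrivial involutive isometry `1 + M` commuting with `J` and `w` -/
def Good (S : QSp F V) (J w : V →ₗ[F] V) : Prop :=
  ∃ M : V →ₗ[F] V, M ≠ 0 ∧ (∀ x, M (M x) = 0) ∧ (∀ x, M (J x) = J (M x)) ∧
    (∀ x, M (w x) = w (M x)) ∧ ∀ x, S.Q (x + M x) = S.Q x

/-- there is a totally singular subspace of half the dimension -/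
def Half (S : QSp F V) : Prop :=
  ∃ U : Submodule F V, (∀ x ∈ U, S.Q x = 0) ∧ 2 * finrank F U = finrank F V

/-- there is a `J`-invariant totally singular subspace of half the dimension -/
def HalfJ (S : QSp F V) (J : V →ₗ[F] V) : Prop :=
  ∃ U : Submodule F V, (∀ x ∈ U, J x ∈ U) ∧ (∀ x ∈ U, S.Q x = 0) ∧
    2 * finrank F U = finrank F V

theorem HalfJ.half {S : QSp F V} {J : V →ₗ[F] V} (h : HalfJ S J) : Half S := by
  obtain ⟨U, -, h1, h2⟩ := h
  exact ⟨U, h1, h2⟩

/-- the operator `x ↦ B_K(x,a) b` -/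
noncomputable def Th (S : QSp F V) (J : V →ₗ[F] V) (a b : V) : V →ₗ[F] V :=
  ((S.B.flip (J a)) + (S.B.flip a)).smulRight b + (S.B.flip a).smulRight (J b)

theorem Th_apply (S : QSp F V) (J : V →ₗ[F] V) (a b x : V) :
    Th S J a b x = (S.B x (J a) + S.B x a) • b + (S.B x a) • J b := by
  simp [Th]

namespace Core

variable {S : QSp F V} {J w : V →ₗ[F] V} {e δ : F} (C : Core S J w e δ)
include C

theorem Ja' (x : V) : S.B x (J x) = 0 := by rw [S.symm]; exact C.Ja x

theorem wa' (x : V) : S.B x (w x) = 0 := by rw [S.symm]; exact C.wa x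

/-- commutation with `J` -/
theorem Th_J (a b x : V) : Th S J a b (J x) = J (Th S J a b x) := by
  rw [Th_apply, Th_apply]
  simp only [map_add, map_smul, C.Js, C.JJ, smul_eq_mul]
  match_scalars <;> (ring_nf; try reduce_mod_char!)

/-- commutation with `w` for vectors of the kernel -/
theorem Th_w {a b : V} (ha : w a = 0) (hb : w b = 0) (x : V) :
    Th S J a b (w x) = w (Th S J a b x) := by
  have h1 : w (J a) = δ • a := by rw [C.wJ, ha]; simp
  have h2 : w (J b) = δ • b := by rw [C.wJ, hb]; simp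
  rw [Th_apply, Th_apply]
  simp only [map_add, map_smul, C.ws, h1, h2, ha, hb, smul_eq_mul, map_zero, smul_zero, zero_smul,
    add_zero, zero_add]
  match_scalars <;> (ring_nf; try reduce_mod_char!)

theorem adj_Th (a b x y : V) : S.B (Th S J a b x) y = S.B x (Th S J b a y) := by
  rw [Th_apply, Th_apply]
  simp only [map_add, map_smul, LinearMap.add_apply, LinearMap.smul_apply, smul_eq_mul, C.Js]
  rw [S.symm b y, S.symm b (J y), ← C.Js y b, S.symm (J y) b, ← C.Js b y]
  rw [C.Js, S.symm b (J y), C.Js y b]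
  ring

/-- the diagonal value -/
theorem B_Th_self (a x : V) : S.B x (Th S J a a x) = (S.B x a) ^ 2 := by
  rw [Th_apply]
  simp only [map_add, map_smul, smul_eq_mul]
  linear_combination (norm := (ring_nf; reduce_mod_char!)) (0 : F)

theorem Q_comb (a : V) (k l : F) : S.Q (k • a + l • J a) = k ^ 2 * S.Q a + l ^ 2 * S.Q (J a) := by
  rw [S.add, S.smul, S.smul]
  simp only [map_smul, LinearMap.smul_apply, smul_eq_mul, C.Ja']
  ring

theorem good_T {y : V} (hy : w y = 0) (h0 : y ≠ 0) (hQ : S.Q y = 0) (hQJ : S.Q (J y) ≠ 0) :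
    Good S J w := by
  refine ⟨(S.Q (J y))⁻¹ • Th S J y y, ?_, ?_, ?_, ?_, ?_⟩
  · intro h
    obtain ⟨x, hx⟩ := S.exists_ne h0
    have h1 := LinearMap.congr_fun h x
    rw [LinearMap.smul_apply, LinearMap.zero_apply, smul_eq_zero] at h1
    rcases h1 with h1 | h1
    · exact hQJ (inv_eq_zero.1 h1)
    · have h2 : S.Q (Th S J y y x) = 0 := by rw [h1, S.Q_zero]
      rw [Th_apply, C.Q_comb, hQ, hx] at h2
      apply hQJ
      simpa using h2
  · intro x
    have h1 : Th S J y y y = 0 := by
      rw [Th_apply, C.Ja', S.self]; simp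
    have h2 : Th S J y y (Th S J y y x) = 0 := by
      conv_lhs => rw [Th_apply S J y y x]
      rw [map_add, map_smul, map_smul, C.Th_J, h1]
      simp
    simp [h2]
  · intro x
    rw [LinearMap.smul_apply, LinearMap.smul_apply, C.Th_J, map_smul]
  · intro x
    rw [LinearMap.smul_apply, LinearMap.smul_apply, C.Th_w hy hy, map_smul]
  · intro x
    rw [S.add, LinearMap.smul_apply, S.smul, map_smul, smul_eq_mul, C.B_Th_self, Th_apply,
      C.Q_comb, hQ]
    field_simp
    linear_combination (norm := (ring_nf; reduce_mod_char!)) (0 : F)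

/-- Siegel transformations -/
theorem good_S {y z : V} (hy : w y = 0) (hz : w z = 0) (hQy : S.Q y = 0) (hQJy : S.Q (J y) = 0)
    (hQz : S.Q z = 0) (hQJz : S.Q (J z) = 0) (h1 : S.B y z = 0) (h2 : S.B y (J z) = 0)
    (hind : ∀ c : F, J y ≠ c • y) (hz' : ∀ c d : F, z ≠ c • y + d • J y) :
    Good S J w := by
  have h2' : S.B (J y) z = 0 := by rw [C.Js]; exact h2
  have h3 : S.B (J y) (J z) = 0 := by rw [C.Js, C.JJ]; simp [h1, h2]
  have h1s : S.B z y = 0 := by rw [S.symm]; exact h1
  have h2s : S.B z (J y) = 0 := by rw [S.symm]; exact h2'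
  have h3s : S.B (J z) y = 0 := by rw [S.symm]; exact h2
  have h4s : S.B (J z) (J y) = 0 := by rw [S.symm]; exact h3
  refine ⟨Th S J y z + Th S J z y, ?_, ?_, ?_, ?_, ?_⟩
  · intro h
    obtain ⟨x, hx1, hx2⟩ := S.exists_dual hind
    have h5 := LinearMap.congr_fun h x
    rw [LinearMap.add_apply, Th_apply, Th_apply, hx1, hx2, LinearMap.zero_apply] at h5
    apply hz' (-(S.B x (J z) + S.B x z)) (-(S.B x z))
    simp only [add_zero, one_smul, zero_smul] at h5
    rw [neg_smul, neg_smul]
    linear_combination (norm := module) h5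
  · intro x
    have hyy : (Th S J y z + Th S J z y) y = 0 := by
      rw [LinearMap.add_apply, Th_apply, Th_apply, C.Ja', S.self, h1, h2]; simp
    have hzz : (Th S J y z + Th S J z y) z = 0 := by
      rw [LinearMap.add_apply, Th_apply, Th_apply, C.Ja', S.self, h1s, h2s]; simp
    have hJy : (Th S J y z + Th S J z y) (J y) = 0 := by
      rw [LinearMap.add_apply, C.Th_J, C.Th_J, ← map_add, ← LinearMap.add_apply, hyy, map_zero]
    have hJz : (Th S J y z + Th S J z y) (J z) = 0 := by
      rw [LinearMap.add_apply, C.Th_J, C.Th_J, ← map_add, ← LinearMap.add_apply, hzz, map_zero]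
    have : (Th S J y z + Th S J z y) x = (S.B x (J y) + S.B x y) • z + (S.B x y) • J z +
        ((S.B x (J z) + S.B x z) • y + (S.B x z) • J y) := by
      rw [LinearMap.add_apply, Th_apply, Th_apply]
    rw [this]
    simp only [map_add, map_smul, hyy, hzz, hJy, hJz, smul_zero, add_zero]
  · intro x
    rw [LinearMap.add_apply, LinearMap.add_apply, C.Th_J, C.Th_J, map_add]
  · intro x
    rw [LinearMap.add_apply, LinearMap.add_apply, C.Th_w hy hz, C.Th_w hz hy, map_add]
  · intro x
    rw [LinearMap.add_apply, Th_apply, Th_apply, S.add, S.add, S.add, S.add]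
    simp only [S.smul, hQy, hQJy, hQz, hQJz, map_add, map_smul, LinearMap.add_apply,
      LinearMap.smul_apply, smul_eq_mul, h1s, h2s, h3s, h4s, C.Ja', C.Ja, S.self]
    linear_combination (norm := (ring_nf; reduce_mod_char!)) (0 : F)

end Core

end Pool.Agent.OmegaEven
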