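import Mathlib
import Pool.Agent.OmegaEven.Local1

set_option autoImplicit false
set_option linter.unusedSectionVars false
set_option linter.unusedVariables false
set_option linter.unnecessarySeqFocus false

namespace Pool.Agent.OmegaEven

open Module

variable {F V : Type*} [Field F] [CharP F 2] [AddCommGroup V] [Module F V]

theorem pow_app_succ (w : V →ₗ[F] V) (k : ℕ) (x : V) : (w ^ (k + 1)) x = (w ^ k) (w x) := by
  rw [pow_succ]; rfl

theorem pow_app_succ' (w : V →ₗ[F] V) (k : ℕ) (x : V) : (w ^ (k + 1)) x = w ((w ^ k) x) := by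
  rw [pow_succ']; rfl

theorem pow_app_add (w : V →ₗ[F] V) (k l : ℕ) (x : V) :
    (w ^ (k + l)) x = (w ^ k) ((w ^ l) x) := by
  rw [pow_add]; rfl

theorem pow_app_zero (w : V →ₗ[F] V) (x : V) : (w ^ 0) x = x := rfl

namespace Core

variable {S : QSp F V} {J w : V →ₗ[F] V} {e δ : F} (C : Core S J w e δ)
include C

theorem ws_pow (k : ℕ) (x y : V) : S.B ((w ^ k) x) y = S.B x ((w ^ k) y) := by
  induction k generalizing x y with
  | zero => rfl
  | succ k ih => rw [pow_app_succ, ih, C.ws, pow_app_succ']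

theorem wa_pow (k : ℕ) (x : V) : S.B ((w ^ k) x) x = 0 := by
  obtain ⟨j, hj | hj⟩ := Nat.even_or_odd' k
  · rw [hj, two_mul, pow_app_add, C.ws_pow]; exact S.self _
  · rw [hj, two_mul, add_assoc, pow_app_add, C.ws_pow, pow_app_succ']; exact C.wa _

theorem w2J (x : V) : w (w (J x)) = J (w (w x)) := by
  rw [C.wJ, map_add, map_add, map_add, C.wJ (w x), map_smul]
  match_scalars <;> (ring_nf; try reduce_mod_char!)

theorem w2jJ (j : ℕ) (x : V) : (w ^ (2 * j)) (J x) = J ((w ^ (2 * j)) x) := by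
  induction j generalizing x with
  | zero => rfl
  | succ j ih =>
    rw [show 2 * (j + 1) = 2 * j + 1 + 1 by ring, pow_app_succ, pow_app_succ, C.w2J, ih,
      pow_app_succ, pow_app_succ]

theorem alt_Jw2 (x : V) : S.B x (J (w (w x))) = 0 := by
  have h1 := C.Ja' (w x)
  rw [C.ws, C.wJ] at h1
  simp only [map_add, map_smul] at h1
  have h2 := C.wa_pow 2 x
  have h3 := C.wa_pow 3 x
  have h4 := C.wa' x
  rw [C.ws_pow] at h2 h3
  simp only [pow_app_succ, pow_app_zero] at h2 h3
  rw [h2, h3, h4] at h1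
  simpa using h1

theorem alt_Jpow (j : ℕ) (x : V) : S.B x (J ((w ^ (2 * j)) x)) = 0 := by
  obtain ⟨i, hi | hi⟩ := Nat.even_or_odd' j
  · have : 2 * j = 2 * i + 2 * i := by omega
    rw [this, pow_app_add, ← C.w2jJ, ← C.ws_pow]
    exact C.Ja' _
  · have : 2 * j = 2 * i + 2 + 2 * i := by omega
    rw [this, pow_app_add, pow_app_add, ← C.w2jJ, ← C.ws_pow]
    exact C.alt_Jw2 _

/-- the range of the last nonzero power of `w` is at least two-dimensional -/
theorem two_le_range [FiniteDimensional F V] (l : ℕ) (hl : w ^ l ≠ 0) :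
    2 ≤ finrank F (LinearMap.range (w ^ l)) := by
  by_contra hcon
  have h1 : finrank F (LinearMap.range (w ^ l)) ≤ 1 := by omega
  rw [finrank_le_one_iff] at h1
  obtain ⟨⟨u, hu⟩, h1⟩ := h1
  have h2 : ∀ x, ∃ c : F, (w ^ l) x = c • u := by
    intro x
    obtain ⟨c, hc⟩ := h1 ⟨(w ^ l) x, x, rfl⟩
    exact ⟨c, by rw [Subtype.ext_iff] at hc; exact hc.symm⟩
  obtain ⟨v, hv⟩ : ∃ v, (w ^ l) v ≠ 0 := by
    by_contra h
    push Not at h
    exact hl (LinearMap.ext h)
  obtain ⟨c, hc⟩ := h2 v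
  have hc0 : c ≠ 0 := by
    rintro rfl
    rw [zero_smul] at hc
    exact hv hc
  have hu0 : u ≠ 0 := by
    rintro rfl
    rw [smul_zero] at hc
    exact hv hc
  have h3 : S.B u v = 0 := by
    have := C.wa_pow l v
    rw [hc, map_smul, LinearMap.smul_apply, smul_eq_mul] at this
    rcases mul_eq_zero.1 this with h | h
    · exact absurd h hc0
    · exact h
  obtain ⟨x, hx⟩ := S.exists_ne hu0
  rw [S.symm] at hx
  obtain ⟨d, hd⟩ := h2 x
  have hd0 : d = 0 := by
    have := C.wa_pow l x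
    rw [hd, map_smul, LinearMap.smul_apply, smul_eq_mul, hx, mul_one] at this
    exact this
  have h4 := C.wa_pow l (v + x)
  have h5 : (w ^ l) (v + x) = c • u := by rw [map_add, hc, hd, hd0, zero_smul, add_zero]
  rw [h5, map_smul, LinearMap.smul_apply, map_add, h3, hx] at h4
  simp at h4
  exact hc0 h4

theorem exists_index [Nontrivial V] :
    ∃ l : ℕ, w ^ l ≠ 0 ∧ w ^ (l + 1) = 0 := by
  classical
  have hne : ∃ k : ℕ, w ^ k = 0 := C.nil
  have h1 := Nat.find_spec hne
  have h0 : Nat.find hne ≠ 0 := by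
    intro h
    rw [h, pow_zero] at h1
    obtain ⟨x, hx⟩ := exists_ne (0 : V)
    exact hx (by simpa using LinearMap.congr_fun h1 x)
  obtain ⟨l, hl⟩ := Nat.exists_eq_succ_of_ne_zero h0
  refine ⟨l, fun h => ?_, by rw [hl] at h1; exact h1⟩
  have := Nat.find_min' hne h
  omega

theorem range_eq_ker [FiniteDimensional F V] {l : ℕ} (hl : w ^ l ≠ 0) (hl1 : w ^ (l + 1) = 0)
    (hk : finrank F (LinearMap.ker w) ≤ 2) :
    LinearMap.range (w ^ l) = LinearMap.ker w ∧ finrank F (LinearMap.ker w) = 2 := by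
  have hle : LinearMap.range (w ^ l) ≤ LinearMap.ker w := by
    rintro _ ⟨x, rfl⟩
    rw [LinearMap.mem_ker, ← pow_app_succ', hl1]; rfl
  have h2 := C.two_le_range l hl
  have h3 := Submodule.finrank_mono hle
  exact ⟨Submodule.eq_of_le_of_finrank_le hle (by omega), by omega⟩

/-- the case `L = 2` -/
theorem dim_four [FiniteDimensional F V] (hl : w ^ 1 ≠ 0) (hl1 : w ^ (1 + 1) = 0)
    (hk : finrank F (LinearMap.ker w) ≤ 2) : finrank F V = 4 := by
  obtain ⟨h1, h2⟩ := C.range_eq_ker hl hl1 hk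
  rw [pow_one] at h1
  have h3 := LinearMap.finrank_range_add_finrank_ker w
  rw [h1] at h3
  omega

end Core

theorem finrank_span_pair_of_ind {u v : V} (hu : u ≠ 0) (hv : ∀ c : F, v ≠ c • u) :
    finrank F (Submodule.span F ({u, v} : Set V)) = 2 := by
  have hli : LinearIndependent F ![u, v] := by
    rw [LinearIndependent.pair_iff]
    intro s t hst
    have ht : t = 0 := by
      by_contra ht
      apply hv (-(t⁻¹ * s))
      have : t • v = -(s • u) := by
        rw [eq_neg_iff_add_eq_zero, add_comm]; exact hst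
      rw [neg_smul, mul_smul, ← smul_neg, ← this, smul_smul, inv_mul_cancel₀ ht, one_smul]
    refine ⟨?_, ht⟩
    rw [ht, zero_smul, add_zero] at hst
    exact (smul_eq_zero.1 hst).resolve_right hu
  have h1 := finrank_span_eq_card hli
  have h2 : Set.range ![u, v] = {u, v} := by
    simp [Matrix.range_cons, Set.pair_comm]
  rw [h2] at h1
  simpa using h1

end Pool.Agent.OmegaEven
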