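import Mathlib
import Pool.Agent.OmegaEven.Group2
import Pool.Agent.OmegaEven.Local2

set_option autoImplicit false
set_option linter.unusedSectionVars false
set_option linter.unusedVariables false
set_option linter.unnecessarySeqFocus false
set_option linter.style.haveILetI false
set_option linter.unusedSimpArgs false

namespace Pool.Agent.OmegaEven

open Module

variable {F V : Type*} [Field F] [CharP F 2] [PerfectRing F 2] [AddCommGroup V] [Module F V]

namespace QSp
variable (S : QSp F V)

/-- an involution `1+M` is an isometry -/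
def Inv (M : V →ₗ[F] V) : Prop := (∀ x, M (M x) = 0) ∧ ∀ x, S.Q (x + M x) = S.Q x

variable {S}
theorem Inv.Qx {M : V →ₗ[F] V} (h : S.Inv M) (x : V) : S.Q (M x) = S.B x (M x) := by
  have h1 := h.2 x
  rw [S.add, add_assoc] at h1
  exact eq_of_add_eq_zeroV F (add_eq_left.1 h1)

theorem Inv.BMM {M : V →ₗ[F] V} (h : S.Inv M) (x y : V) : S.B (M x) (M y) = 0 := by
  have h1 := h.Qx (x + M y)
  rw [map_add, h.1, add_zero, map_add, LinearMap.add_apply, h.Qx x] at h1
  have h2 := add_eq_left.1 h1.symm
  rw [S.symm]; exact h2

theorem Inv.Ms {M : V →ₗ[F] V} (h : S.Inv M) (x y : V) : S.B (M x) y = S.B x (M y) := by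
  have h1 := h.Qx (x + y)
  rw [map_add, S.add, h.BMM, h.Qx, h.Qx] at h1
  simp only [map_add, LinearMap.add_apply] at h1
  rw [S.symm (M x) y]
  linear_combination (norm := (ring_nf; reduce_mod_char!)) h1

variable (S)
variable [FiniteDimensional F V]

/-- two maps which differ by a map of small rank -/
theorem rank_le_of_sub {M N : V →ₗ[F] V} {P : Submodule F V} (h : ∀ x, ∃ p ∈ P, M x = N x + p) :
    finrank F (LinearMap.range M) ≤ finrank F (LinearMap.range N) + finrank F P := by
  have h1 : LinearMap.range M ≤ LinearMap.range N ⊔ P := by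
    rintro _ ⟨x, rfl⟩
    obtain ⟨p, hp, h2⟩ := h x
    rw [h2]
    exact Submodule.add_mem_sup ⟨x, rfl⟩ hp
  exact (Submodule.finrank_mono h1).trans (Submodule.finrank_add_le_finrank_add_finrank _ _)

theorem rank_add_le {M N : V →ₗ[F] V} {W : Submodule F V} (hk : ∀ x, M x = 0 → N x = 0)
    (hW : ∀ x ∈ W, N x = 0) :
    finrank F (LinearMap.range N) + finrank F (W.map M) ≤ finrank F (LinearMap.range M) := by
  have h1 := LinearMap.finrank_range_add_finrank_ker M
  have h2 := LinearMap.finrank_range_add_finrank_ker N
  have h3 : LinearMap.ker M ⊔ W ≤ LinearMap.ker N := by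
    rw [sup_le_iff]
    exact ⟨fun x hx => hk x hx, fun x hx => hW x hx⟩
  have h4 := Submodule.finrank_mono h3
  have h5 := LinearMap.finrank_range_add_finrank_ker (M.domRestrict (LinearMap.ker M ⊔ W))
  have h6 : LinearMap.range (M.domRestrict (LinearMap.ker M ⊔ W)) = W.map M := by
    rw [LinearMap.range_domRestrict, Submodule.map_sup]
    have : Submodule.map M (LinearMap.ker M) = ⊥ := by
      rw [eq_bot_iff]
      rintro _ ⟨x, hx, rfl⟩
      exact hx
    rw [this, bot_sup_eq]
  have h7 : finrank F (LinearMap.ker (M.domRestrict (LinearMap.ker M ⊔ W))) =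
      finrank F (LinearMap.ker M) := by
    have h8 : (LinearMap.ker (M.domRestrict (LinearMap.ker M ⊔ W))).map
        (LinearMap.ker M ⊔ W).subtype = LinearMap.ker M := by
      ext x
      constructor
      · rintro ⟨y, hy, rfl⟩
        exact hy
      · intro hx
        exact ⟨⟨x, Submodule.mem_sup_left hx⟩, hx, rfl⟩
    rw [← Submodule.finrank_map_subtype_eq, h8]
  rw [h6, h7] at h5
  omega

theorem inv1_mem_aux (hV : 4 < finrank F V) : ∀ (n : ℕ) (M : V →ₗ[F] V) (h : S.Inv M),
    finrank F (LinearMap.range M) = n →
    (Even n → inv1 M h.1 ∈ S.Om) ∧ (Odd n → ∀ a, S.Q a ≠ 0 → S.refl a * inv1 M h.1 ∈ S.Om) := by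
  intro n
  induction n using Nat.strong_induction_on with
  | _ n ih =>
    intro M h hn
    by_cases h0 : M = 0
    · subst h0
      have hn0 : n = 0 := by rw [← hn, LinearMap.range_zero, finrank_bot]
      subst hn0
      refine ⟨fun _ => ?_, fun h => absurd h (by decide)⟩
      have : inv1 (0 : V →ₗ[F] V) h.1 = 1 := by
        ext x
        rw [inv1_apply, LinearMap.zero_apply, add_zero]; rfl
      rw [this]
      exact S.Om.one_mem
    by_cases hQ : ∃ x, S.Q (M x) ≠ 0
    · obtain ⟨x, hx⟩ := hQ
      set c := M x with hc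
      set N : V →ₗ[F] V := M + S.rf c with hN
      have hNa : ∀ y, N y = M y + ((S.Q c)⁻¹ * S.B y c) • c := by
        intro y
        rw [hN, LinearMap.add_apply, rf_apply]
      have hMc : M c = 0 := h.1 x
      have hMB : ∀ y, S.B (M y) c = 0 := fun y => h.BMM y x
      have hNQ : S.Inv N := by
        refine ⟨?_, ?_⟩
        · intro y
          rw [hNa (N y), hNa y]
          simp only [map_add, map_smul, LinearMap.add_apply, LinearMap.smul_apply, h.1, hMc, hMB,
            S.self, smul_zero, add_zero, mul_zero, zero_smul]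
        · intro y
          rw [hNa, ← add_assoc, S.add, h.2, S.smul]
          simp only [map_add, map_smul, LinearMap.add_apply, LinearMap.smul_apply, hMB, smul_eq_mul]
          field_simp
          linear_combination (norm := (ring_nf; reduce_mod_char!)) (0 : F)
      have hprod : S.refl c * inv1 M h.1 = inv1 N hNQ.1 := by
        ext y
        rw [mul_apply', inv1_apply, inv1_apply, refl_apply, hNa, map_add, LinearMap.add_apply, hMB,
          add_zero, add_assoc]
      have hc0 : c ≠ 0 := by
        intro h1
        rw [h1] at hx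
        exact hx S.Q_zero
      have hsp : finrank F (F ∙ c) = 1 := finrank_span_singleton hc0
      have hr1 := rank_le_of_sub (M := M) (N := N) (P := F ∙ c) (by
        intro y
        refine ⟨((S.Q c)⁻¹ * S.B y c) • c, Submodule.smul_mem _ _
          (Submodule.mem_span_singleton_self c), ?_⟩
        rw [hNa, add_assoc, add_selfV F, add_zero])
      have hr2 := rank_add_le (M := M) (N := N) (W := F ∙ x) (by
        intro y hy
        have : S.B y c = 0 := by rw [hc, ← h.Ms, hy, map_zero, LinearMap.zero_apply]
        rw [hNa, hy, this]; simp) (by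
        intro y hy
        rw [Submodule.mem_span_singleton] at hy
        obtain ⟨t, rfl⟩ := hy
        have h1 : N x = 0 := by
          rw [hNa, ← hc, ← h.Qx, ← hc, inv_mul_cancel₀ hx, one_smul]
          exact add_selfV F _
        rw [map_smul, h1, smul_zero])
      have hmap : (F ∙ x).map M = F ∙ c := by
        rw [Submodule.map_span, Set.image_singleton]
      rw [hmap, hsp] at hr2
      rw [hsp] at hr1
      have hNr : finrank F (LinearMap.range N) + 1 = n := by omega
      obtain ⟨ih1, ih2⟩ := ih _ (by omega) N hNQ rfl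
      have hM : inv1 M h.1 = S.refl c * inv1 N hNQ.1 := by
        rw [← hprod, ← mul_assoc, S.refl_refl, one_mul]
      refine ⟨fun he => ?_, fun ho a ha => ?_⟩
      · have h1 : Odd (finrank F (LinearMap.range N)) := by
          rw [← hNr, Nat.even_add_one, Nat.not_even_iff_odd] at he
          exact he
        have h2 := ih2 h1 c hx
        rwa [← hM] at h2
      · have h1 : Even (finrank F (LinearMap.range N)) := by
          rw [← hNr, Nat.odd_add_one, Nat.not_odd_iff_even] at ho
          exact ho
        rw [hM, ← mul_assoc]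
        exact S.Om.mul_mem (S.refl_refl_mem hV ha hx) (ih1 h1)
    · push Not at hQ
      obtain ⟨x, hx⟩ : ∃ x, M x ≠ 0 := by
        by_contra h1
        push Not at h1
        exact h0 (LinearMap.ext h1)
      obtain ⟨y, hy⟩ := S.exists_ne hx
      have hxy : S.B x (M y) = 1 := by
        rw [← h.Ms, S.symm]; exact hy
      have hyy : S.B y (M y) = 0 := by rw [← h.Qx, hQ]
      have hxx : S.B x (M x) = 0 := by rw [← h.Qx, hQ]
      set N : V →ₗ[F] V := M + (S.B.flip (M x)).smulRight (M y)
        + (S.B.flip (M y)).smulRight (M x) with hN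
      have hNa : ∀ z, N z = M z + S.B z (M x) • M y + S.B z (M y) • M x := by
        intro z
        simp [hN]
      have hNQ : S.Inv N := by
        refine ⟨?_, ?_⟩
        · intro z
          rw [hNa (N z), hNa z]
          simp only [map_add, map_smul, LinearMap.add_apply, LinearMap.smul_apply, h.1, h.BMM,
            smul_zero, add_zero, mul_zero, zero_smul]
        · intro z
          rw [hNa, ← add_assoc, ← add_assoc, S.add, S.add, h.2]
          simp only [map_add, map_smul, LinearMap.add_apply, LinearMap.smul_apply, h.BMM,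
            smul_eq_mul, S.smul, hQ]
          linear_combination (norm := (ring_nf; reduce_mod_char!)) (0 : F)
      have hE : ∀ z, ((LinearMap.id : V →ₗ[F] V) + ((S.B.flip (M x)).smulRight (M y)
        + (S.B.flip (M y)).smulRight (M x))) z = z + S.B z (M y) • M x + S.B z (M x) • M y := by
        intro z
        simp only [LinearMap.add_apply, LinearMap.id_apply, LinearMap.smulRight_apply,
          LinearMap.flip_apply]
        abel
      have hE2 : ∀ z, ((S.B.flip (M x)).smulRight (M y) + (S.B.flip (M y)).smulRight (M x))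
          (((S.B.flip (M x)).smulRight (M y) + (S.B.flip (M y)).smulRight (M x)) z) = 0 := by
        intro z
        simp only [LinearMap.add_apply, LinearMap.smulRight_apply, LinearMap.flip_apply, map_add,
          map_smul, LinearMap.smul_apply, h.BMM]
        simp
      have hEm : inv1 ((S.B.flip (M x)).smulRight (M y) + (S.B.flip (M y)).smulRight (M x)) hE2
          ∈ S.Om := by
        apply S.siegel_mem hV (hQ x) (hQ y) (h.BMM x y)
        intro z
        exact hE z
      have hprod : inv1 M h.1 = inv1 N hNQ.1 *
          inv1 ((S.B.flip (M x)).smulRight (M y) + (S.B.flip (M y)).smulRight (M x)) hE2 := by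
        ext z
        rw [mul_apply', inv1_apply, inv1_apply, inv1_apply, hNa]
        simp only [LinearMap.add_apply, LinearMap.smulRight_apply, LinearMap.flip_apply, map_add,
          map_smul, LinearMap.smul_apply, h.BMM, smul_eq_mul, h.1]
        match_scalars <;> (ring_nf; try reduce_mod_char!)
      have hind : ∀ c : F, M y ≠ c • M x := by
        intro c hc
        rw [hc, map_smul, hxx, smul_zero] at hxy
        exact zero_ne_one hxy
      have hsp : finrank F (Submodule.span F ({M x, M y} : Set V)) = 2 :=
        finrank_span_pair_of_ind hx hind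
      have hxm : M x ∈ Submodule.span F ({M x, M y} : Set V) := Submodule.subset_span (by simp)
      have hym : M y ∈ Submodule.span F ({M x, M y} : Set V) := Submodule.subset_span (by simp)
      have hr1 := rank_le_of_sub (M := M) (N := N)
        (P := Submodule.span F ({M x, M y} : Set V)) (by
        intro z
        refine ⟨S.B z (M x) • M y + S.B z (M y) • M x, Submodule.add_mem _
          (Submodule.smul_mem _ _ hym) (Submodule.smul_mem _ _ hxm), ?_⟩
        rw [hNa]
        match_scalars <;> (ring_nf; try reduce_mod_char!))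
      have hr2 := rank_add_le (M := M) (N := N) (W := Submodule.span F ({x, y} : Set V)) (by
        intro z hz
        rw [hNa, hz, ← h.Ms, ← h.Ms, hz]; simp) (by
        intro z hz
        rw [Submodule.mem_span_pair] at hz
        obtain ⟨s, t, rfl⟩ := hz
        have h1 : N x = 0 := by
          rw [hNa, hxx, hxy, zero_smul, add_zero, one_smul]
          exact add_selfV F _
        have h2 : N y = 0 := by
          rw [hNa, hyy, hy, zero_smul, add_zero, one_smul]
          exact add_selfV F _
        rw [map_add, map_smul, map_smul, h1, h2]; simp)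
      have hmap : (Submodule.span F ({x, y} : Set V)).map M =
          Submodule.span F ({M x, M y} : Set V) := by
        rw [Submodule.map_span, Set.image_pair]
      rw [hmap, hsp] at hr2
      rw [hsp] at hr1
      have hNr : finrank F (LinearMap.range N) + 2 = n := by omega
      obtain ⟨ih1, ih2⟩ := ih _ (by omega) N hNQ rfl
      refine ⟨fun he => ?_, fun ho a ha => ?_⟩
      · have h1 : Even (finrank F (LinearMap.range N)) := by
          rw [← hNr] at he
          exact (Nat.even_add.1 he).2 even_two
        rw [hprod]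
        exact S.Om.mul_mem (ih1 h1) hEm
      · have h1 : Odd (finrank F (LinearMap.range N)) := by
          rw [← hNr] at ho
          by_contra hne
          rw [Nat.not_odd_iff_even] at hne
          exact (Nat.not_even_iff_odd.2 ho) (hne.add even_two)
        rw [hprod, ← mul_assoc]
        exact S.Om.mul_mem (ih2 h1 a ha) hEm

theorem inv1_mem (hV : 4 < finrank F V) {M : V →ₗ[F] V} (h : S.Inv M)
    (he : Even (finrank F (LinearMap.range M))) : inv1 M h.1 ∈ S.Om :=
  (S.inv1_mem_aux hV _ M h rfl).1 he

theorem even_aux {J : V →ₗ[F] V} {e : F} (hJJ : ∀ x, J (J x) = J x + e • x)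
    (hK : ∀ t : F, t ^ 2 + t ≠ e) {W : Submodule F V} (hW : ∀ x ∈ W, J x ∈ W) :
    ∀ (n : ℕ) (U : Submodule F V), U ≤ W → (∀ x ∈ U, J x ∈ U) → Even (finrank F U) →
      finrank F W = finrank F U + n → Even (finrank F W) := by
  intro n
  induction n using Nat.strong_induction_on with
  | _ n ih =>
    intro U hUW hU he hn
    by_cases hn0 : n = 0
    · rw [hn, hn0, add_zero]; exact he
    have hlt : U < W := by
      refine lt_of_le_of_ne hUW ?_
      rintro rfl
      omega
    obtain ⟨x, hxW, hxU⟩ := SetLike.exists_of_lt hlt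
    have key : ∀ a b : F, a • x + b • J x ∈ U → a = 0 ∧ b = 0 := by
      intro a b hab
      have h1 : (a ^ 2 + a * b + b ^ 2 * e) • x ∈ U := by
        have h2 : (a ^ 2 + a * b + b ^ 2 * e) • x =
            (a + b) • (a • x + b • J x) + b • J (a • x + b • J x) := by
          rw [map_add, map_smul, map_smul, hJJ]
          match_scalars <;> (ring_nf; try reduce_mod_char!)
        rw [h2]
        exact U.add_mem (U.smul_mem _ hab) (U.smul_mem _ (hU _ hab))
      have h2 : a ^ 2 + a * b + b ^ 2 * e = 0 := by
        by_contra h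
        exact hxU ((U.smul_mem_iff h).1 h1)
      have hb : b = 0 := by
        by_contra hb
        apply hK (a / b)
        field_simp
        linear_combination (norm := (ring_nf; reduce_mod_char!)) h2
      refine ⟨?_, hb⟩
      rw [hb] at h2
      have h3 : a ^ 2 = 0 := by linear_combination h2
      exact (pow_eq_zero_iff two_ne_zero).1 h3
    have hx0 : x ≠ 0 := by
      rintro rfl
      exact hxU U.zero_mem
    have hJx : ∀ c : F, J x ≠ c • x := by
      intro c hc
      have h1 := (key (-c) 1 (by
        rw [hc, neg_smul, one_smul, neg_add_cancel]; exact U.zero_mem)).2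
      exact one_ne_zero h1
    have hsp := finrank_span_pair_of_ind hx0 hJx
    set P := Submodule.span F ({x, J x} : Set V) with hP
    have hdisj : U ⊓ P = ⊥ := by
      rw [eq_bot_iff]
      rintro y ⟨hyU, hyP⟩
      have hyP' : y ∈ Submodule.span F ({x, J x} : Set V) := hyP
      rw [Submodule.mem_span_pair] at hyP'
      obtain ⟨a, b, rfl⟩ := hyP'
      obtain ⟨rfl, rfl⟩ := key a b hyU
      simp
    have hsum := Submodule.finrank_sup_add_finrank_inf_eq U P
    rw [hdisj, finrank_bot, add_zero, hsp] at hsum
    have hle : U ⊔ P ≤ W := by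
      refine sup_le hUW ?_
      rw [hP, Submodule.span_le]
      rintro y (rfl | rfl)
      · exact hxW
      · exact hW _ hxW
    have h3 := Submodule.finrank_mono hle
    refine ih (n - 2) (by omega) (U ⊔ P) hle ?_ ?_ (by omega)
    · intro y hy
      rw [Submodule.mem_sup] at hy
      obtain ⟨u, hu, p, hp, rfl⟩ := hy
      rw [map_add]
      refine Submodule.add_mem_sup (hU u hu) ?_
      rw [hP, Submodule.mem_span_pair] at hp
      obtain ⟨a, b, rfl⟩ := hp
      rw [hP, Submodule.mem_span_pair]
      refine ⟨b * e, a + b, ?_⟩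
      rw [map_add, map_smul, map_smul, hJJ]
      module
    · rw [hsum]; exact he.add even_two

/-- the rank of a map commuting with `J` is even -/
theorem even_rank {J : V →ₗ[F] V} {e : F} (hJJ : ∀ x, J (J x) = J x + e • x)
    (hK : ∀ t : F, t ^ 2 + t ≠ e) {M : V →ₗ[F] V} (hMJ : ∀ x, M (J x) = J (M x)) :
    Even (finrank F (LinearMap.range M)) := by
  refine even_aux hJJ hK (W := LinearMap.range M) ?_ (finrank F (LinearMap.range M)) ⊥ bot_le
    ?_ ?_ ?_
  · rintro _ ⟨x, rfl⟩
    exact ⟨J x, hMJ x⟩
  · intro x hx
    rw [Submodule.mem_bot] at hx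
    rw [hx, map_zero]; exact Submodule.zero_mem _
  · rw [finrank_bot]; exact Even.zero
  · rw [finrank_bot, zero_add]

/-- reflections are never products commuting with `J` -/
theorem exists_not_commute (hV : 4 < finrank F V) {J : V →ₗ[F] V} {e : F}
    (hJJ : ∀ x, J (J x) = J x + e • x) (hK : ∀ t : F, t ^ 2 + t ≠ e) :
    ∃ g ∈ S.Om, ∃ x, g (J x) ≠ J (g x) := by
  have : Nontrivial V := by
    apply Module.nontrivial_of_finrank_pos (R := F); omega
  obtain ⟨x, hx⟩ := _root_.exists_ne (0 : V)
  obtain ⟨a, ha, hax, -⟩ := S.exists_ns_avoid hV hx hx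
  obtain ⟨b, hb, hbx, hbJ⟩ := S.exists_ns_perp hV x (J x)
  refine ⟨_, S.refl_refl_mem hV ha hb, x, fun h => ?_⟩
  have hxb : S.B x b = 0 := by rw [S.symm]; exact hbx
  have hJb : S.B (J x) b = 0 := by rw [S.symm]; exact hbJ
  rw [mul_apply', mul_apply', S.refl_apply b, S.refl_apply b, hxb, hJb, mul_zero, zero_smul,
    add_zero, add_zero, refl_apply, refl_apply, map_add, map_smul] at h
  have h1 := add_left_cancel h
  have hax' : S.B x a ≠ 0 := by rw [S.symm]; exact hax
  have hk : (S.Q a)⁻¹ * S.B x a ≠ 0 := mul_ne_zero (inv_ne_zero ha) hax'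
  set k := (S.Q a)⁻¹ * S.B x a
  set k' := (S.Q a)⁻¹ * S.B (J x) a
  have h2 : J a = (k⁻¹ * k') • a := by
    rw [mul_smul, h1, smul_smul, inv_mul_cancel₀ hk, one_smul]
  have ha0 : a ≠ 0 := by rintro rfl; exact ha S.Q_zero
  have h3 := hJJ a
  rw [h2, map_smul, h2, smul_smul] at h3
  set c := k⁻¹ * k'
  have h4 : (c ^ 2 + c + e) • a = 0 := by
    have : (c ^ 2 + c + e) • a = (c * c) • a + (c • a + e • a) := by module
    rw [this, h3]; exact add_selfV F _
  rcases smul_eq_zero.1 h4 with h5 | h5
  · apply hK c
    linear_combination (norm := (ring_nf; reduce_mod_char!)) h5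
  · exact ha0 h5

/-- irreducibility -/
theorem Om_irred (hV : 4 < finrank F V) {X : Submodule F V} (h0 : X ≠ ⊥) (h1 : X ≠ ⊤)
    (hinv : ∀ g ∈ S.Om, ∀ x ∈ X, g x ∈ X) : False := by
  obtain ⟨x, hxX, hx⟩ := X.exists_mem_ne_zero_of_ne_bot h0
  have hperp : S.perp X ≠ ⊥ := by
    intro h
    have h2 := S.finrank_perp X
    rw [h, finrank_bot, zero_add] at h2
    exact h1 (Submodule.eq_top_of_finrank_eq h2)
  obtain ⟨u, huX, hu⟩ := (S.perp X).exists_mem_ne_zero_of_ne_bot hperp
  obtain ⟨a, ha, hax, hau⟩ := S.exists_ns_avoid hV hx hu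
  obtain ⟨b, hb, hbx, -⟩ := S.exists_ns_perp hV x x
  have hxb : S.B x b = 0 := by rw [S.symm]; exact hbx
  have h2 := hinv _ (S.refl_refl_mem hV ha hb) x hxX
  rw [mul_apply', S.refl_apply b, hxb, mul_zero, zero_smul, add_zero, refl_apply] at h2
  have h3 := huX _ h2
  rw [map_add, huX x hxX, zero_add, map_smul, smul_eq_mul, S.symm u a, S.symm x a] at h3
  exact mul_ne_zero (mul_ne_zero (inv_ne_zero ha) hax) hau h3

/-- elements of the group which are trivial on the orthogonal complement of a 3-space -/
theorem exists_fix (hV : 4 < finrank F V) {W : Submodule F V} (hW : 3 ≤ finrank F W) :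
    ∃ h ∈ S.Om, h ≠ 1 ∧ ∀ x ∈ S.perp W, h x = x := by
  by_cases hQ : ∀ w ∈ W, S.Q w = 0
  · have hB : ∀ x ∈ W, ∀ y ∈ W, S.B x y = 0 := by
      intro x hx y hy
      have h1 := S.add x y
      rw [hQ x hx, hQ y hy, hQ _ (W.add_mem hx hy)] at h1
      simpa using h1.symm
    obtain ⟨u, huW, hu⟩ : ∃ u ∈ W, u ≠ 0 := by
      apply W.exists_mem_ne_zero_of_ne_bot
      rintro rfl
      rw [finrank_bot] at hW; omega
    obtain ⟨v, hvW, hv⟩ : ∃ v ∈ W, ∀ c : F, v ≠ c • u := by
      by_contra hcon
      push Not at hcon
      have h1 : W ≤ F ∙ u := by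
        intro v hv
        obtain ⟨c, hc⟩ := hcon v hv
        rw [hc]
        exact Submodule.smul_mem _ _ (Submodule.mem_span_singleton_self u)
      have h2 := Submodule.finrank_mono h1
      have h3 := finrank_span_singleton (K := F) hu
      omega
    have hE2 : ∀ z, ((S.B.flip u).smulRight v + (S.B.flip v).smulRight u : V →ₗ[F] V)
        (((S.B.flip u).smulRight v + (S.B.flip v).smulRight u : V →ₗ[F] V) z) = 0 := by
      intro z
      simp only [LinearMap.add_apply, LinearMap.smulRight_apply, LinearMap.flip_apply, map_add,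
        map_smul, LinearMap.smul_apply, hB u huW v hvW, hB v hvW u huW, S.self]
      simp
    have hE : ∀ z, inv1 ((S.B.flip u).smulRight v + (S.B.flip v).smulRight u) hE2 z =
        z + S.B z v • u + S.B z u • v := by
      intro z
      rw [inv1_apply]
      simp only [LinearMap.add_apply, LinearMap.smulRight_apply, LinearMap.flip_apply]
      abel
    refine ⟨_, S.siegel_mem hV (hQ u huW) (hQ v hvW) (hB u huW v hvW) hE, ?_, ?_⟩
    · intro h
      obtain ⟨x, hx1, hx2⟩ := S.exists_dual hv
      have h1 := hE x
      rw [h, hx1, hx2, zero_smul, one_smul, add_zero] at h1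
      have h2 : x = x + u := h1
      exact hu (add_eq_left.1 h2.symm)
    · intro x hx
      rw [hE, hx v hvW, hx u huW]; simp
  · push Not at hQ
    obtain ⟨b, hbW, hb⟩ := hQ
    have hb0 : b ≠ 0 := by rintro rfl; exact hb S.Q_zero
    obtain ⟨c, hcW, hc, hcb⟩ : ∃ c ∈ W, S.Q c ≠ 0 ∧ ∀ t : F, c ≠ t • b := by
      by_contra hcon
      push Not at hcon
      have h1 : ∀ w ∈ W, (∀ t : F, w ≠ t • b) → S.B w b = S.Q b := by
        intro w hw hwt
        have h2 : S.Q w = 0 := by
          by_contra h
          obtain ⟨t, ht⟩ := hcon w hw h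
          exact hwt t ht
        have h3 : S.Q (w + b) = 0 := by
          by_contra h
          obtain ⟨t, ht⟩ := hcon (w + b) (W.add_mem hw hbW) h
          apply hwt (t - 1)
          rw [sub_smul, one_smul, ← ht]; abel
        rw [S.add, h2, zero_add] at h3
        exact (eq_of_add_eq_zeroV F h3).symm
      obtain ⟨w, hwW, hw⟩ : ∃ w ∈ W, ∀ t : F, w ≠ t • b := by
        by_contra hcon'
        push Not at hcon'
        have h1 : W ≤ F ∙ b := by
          intro v hv
          obtain ⟨c, hc⟩ := hcon' v hv
          rw [hc]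
          exact Submodule.smul_mem _ _ (Submodule.mem_span_singleton_self b)
        have h2 := Submodule.finrank_mono h1
        have h3 := finrank_span_singleton (K := F) hb0
        omega
      obtain ⟨w', hwW', hw'⟩ : ∃ w' ∈ W, ∀ s t : F, w' ≠ s • b + t • w := by
        by_contra hcon'
        push Not at hcon'
        have h1 : W ≤ Submodule.span F ({b, w} : Set V) := by
          intro v hv
          obtain ⟨s, t, hst⟩ := hcon' v hv
          rw [Submodule.mem_span_pair]
          exact ⟨s, t, hst.symm⟩
        have h2 := Submodule.finrank_mono h1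
        have h3 := finrank_span_pair_le (F := F) b w
        omega
      have h2 := h1 w hwW hw
      have h3 := h1 w' hwW' (by
        intro t ht
        apply hw' t 0
        rw [ht, zero_smul, add_zero])
      have h4 := h1 (w + w') (W.add_mem hwW hwW') (by
        intro t ht
        apply hw' t (-1)
        rw [← ht, neg_smul, one_smul]; abel)
      rw [map_add, LinearMap.add_apply, h2, h3, CharTwo.add_self_eq_zero] at h4
      exact hb h4.symm
    refine ⟨_, S.refl_refl_mem hV hb hc, ?_, ?_⟩
    · intro h
      have h1 : S.refl b = S.refl c := by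
        rw [mul_eq_one_iff_eq_inv, refl_inv] at h
        exact h
      obtain ⟨x, hx⟩ := S.exists_ne hb0
      have h2 := LinearEquiv.congr_fun h1 x
      rw [refl_apply, refl_apply, hx, mul_one] at h2
      have h3 := add_left_cancel h2
      have hxc : S.B x c ≠ 0 := by
        intro h4
        rw [h4, mul_zero, zero_smul] at h3
        rcases smul_eq_zero.1 h3 with h5 | h5
        · exact hb (inv_eq_zero.1 h5)
        · exact hb0 h5
      have hk : (S.Q c)⁻¹ * S.B x c ≠ 0 := mul_ne_zero (inv_ne_zero hc) hxc
      apply hcb (((S.Q c)⁻¹ * S.B x c)⁻¹ * (S.Q b)⁻¹)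
      rw [mul_smul, h3, smul_smul, inv_mul_cancel₀ hk, one_smul]
    · intro x hx
      rw [mul_apply', S.refl_apply c, hx c hcW, mul_zero, zero_smul, add_zero, refl_apply,
        hx b hbW, mul_zero, zero_smul, add_zero]

end QSp

end Pool.Agent.OmegaEven
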