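import Mathlib
import Pool.Agent.OmegaEven.Local2

set_option autoImplicit false
set_option linter.unusedSectionVars false
set_option linter.unusedVariables false
set_option linter.unnecessarySeqFocus false

namespace Pool.Agent.OmegaEven

open Module

variable {F V : Type*} [Field F] [CharP F 2] [PerfectRing F 2] [AddCommGroup V] [Module F V]

namespace Core

variable {S : QSp F V} {J w : V →ₗ[F] V} {e δ : F}

theorem pow_zero_of_le (C : Core S J w e δ) {l k : ℕ} (hl1 : w ^ (l + 1) = 0) (hk : l + 1 ≤ k) :
    w ^ k = 0 := by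
  obtain ⟨i, rfl⟩ := Nat.exists_eq_add_of_le hk
  rw [pow_add, hl1, zero_mul]

theorem no_eig (C : Core S J w e δ) (hK : ∀ t : F, t ^ 2 + t ≠ e) {x : V} (hx : x ≠ 0) (c : F) :
    J x ≠ c • x := by
  intro h
  have h1 := C.JJ x
  rw [h, map_smul, h, smul_smul] at h1
  have h2 : (c ^ 2 + c + e) • x = 0 := by
    have : (c ^ 2 + c + e) • x = (c * c) • x + (c • x + e • x) := by module
    rw [this, h1]; exact add_selfV F _
  rcases smul_eq_zero.1 h2 with h3 | h3
  · apply hK c
    linear_combination (norm := (ring_nf; reduce_mod_char!)) h3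
  · exact hx h3

/-- quadratic form on the image of a power as a function of the two coordinates -/
theorem exists_coef (C : Core S J w e δ) {k : ℕ} (g : V →ₗ[F] V)
    (hiso : ∀ x y, S.B (g x) (g y) = 0) {y : V}
    (hz : ∀ x, S.B x y = 0 → S.B x (J y) = 0 → S.Q (g x) = 0) :
    ∃ a b : F, ∀ x, S.Q (g x) = a ^ 2 * (S.B x (J y) + S.B x y) ^ 2 + b ^ 2 * (S.B x y) ^ 2 := by
  obtain ⟨a, b, hab⟩ := lin2 (S.B.flip (J y) + S.B.flip y) (S.B.flip y) (rtMap S g hiso) (by
    intro x h1 h2
    have h2' : S.B x y = 0 := h2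
    have h1' : S.B x (J y) = 0 := by
      have : S.B x (J y) + S.B x y = 0 := h1
      rw [h2', add_zero] at this; exact this
    have h3 := rtMap_sq S g hiso x
    rw [hz x h2' h1'] at h3
    exact pow_eq_zero_iff (two_ne_zero) |>.1 h3)
  refine ⟨a, b, fun x => ?_⟩
  rw [← rtMap_sq S g hiso x, hab x]
  have : (S.B.flip (J y) + S.B.flip y) x = S.B x (J y) + S.B x y := rfl
  rw [this]
  have h2 : (S.B.flip y) x = S.B x y := rfl
  rw [h2]
  linear_combination (norm := (ring_nf; reduce_mod_char!)) (0 : F)

theorem local_zero [FiniteDimensional F V] [Nontrivial V] (C : Core S J w e 0)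
    (hK : ∀ t : F, t ^ 2 + t ≠ e) : Good S J w ∨ HalfJ S J := by
  by_cases hgood : Good S J w
  · exact Or.inl hgood
  right
  have hJker : ∀ y, w y = 0 → w (J y) = 0 := by
    intro y hy
    rw [C.wJ, hy]; simp
  -- all vectors of the kernel are singular
  have hQ0 : ∀ y, w y = 0 → S.Q y = 0 := by
    intro y hy
    by_contra hQ
    have hy0 : y ≠ 0 := by rintro rfl; exact hQ S.Q_zero
    apply hgood
    by_cases hQJ : S.Q (J y) = 0
    · have h1 : J y ≠ 0 := by
        have := C.no_eig hK hy0 0
        rwa [zero_smul] at this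
      refine C.good_T (hJker y hy) h1 hQJ ?_
      have he : e ≠ 0 := by
        intro he
        apply hK 0
        rw [he]; ring
      rw [C.JJ, S.add, S.smul, hQJ, map_smul, C.Ja, smul_zero, zero_add, add_zero]
      exact mul_ne_zero (pow_ne_zero 2 he) hQ
    · set k := rt (S.Q (J y)) with hk
      set m := rt (S.Q y) with hm
      have hk2 : k ^ 2 = S.Q (J y) := rt_sq _
      have hm2 : m ^ 2 = S.Q y := rt_sq _
      have hm0 : m ≠ 0 := by
        intro h; apply hQ; rw [← hm2, h]; ring
      have ha : w (k • y + m • J y) = 0 := by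
        rw [map_add, map_smul, map_smul, hy, hJker y hy]; simp
      have ha0 : k • y + m • J y ≠ 0 := by
        intro h
        apply C.no_eig hK hy0 (m⁻¹ * k)
        have h1 : m • J y = k • y := by
          rw [add_comm] at h
          exact eq_of_add_eq_zeroV F h
        rw [mul_smul, ← h1, smul_smul, inv_mul_cancel₀ hm0, one_smul]
      refine C.good_T ha ha0 ?_ ?_
      · rw [C.Q_comb, hk2, hm2]
        linear_combination (norm := (ring_nf; reduce_mod_char!)) (0 : F)
      · have h1 : J (k • y + m • J y) = (m * e) • y + (k + m) • J y := by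
          rw [map_add, map_smul, map_smul, C.JJ]; module
        rw [h1, C.Q_comb, ← hk2, ← hm2]
        intro h
        have h2 : (m ^ 2 * e + k * m + k ^ 2) ^ 2 = 0 := by
          linear_combination (norm := (ring_nf; reduce_mod_char!)) h
        have h3 := pow_eq_zero_iff (two_ne_zero) |>.1 h2
        apply hK (k / m)
        field_simp
        linear_combination (norm := (ring_nf; reduce_mod_char!)) h3
  have hB0 : ∀ y z, w y = 0 → w z = 0 → S.B y z = 0 := by
    intro y z hy hz
    have h1 := S.add y z
    rw [hQ0 y hy, hQ0 z hz, hQ0 (y + z) (by rw [map_add, hy, hz, add_zero])] at h1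
    simpa using h1.symm
  obtain ⟨l, hl, hl1⟩ := C.exists_index
  obtain ⟨v, hv⟩ : ∃ v, (w ^ l) v ≠ 0 := by
    by_contra h
    push Not at h
    exact hl (LinearMap.ext h)
  set y := (w ^ l) v with hydef
  have hy : w y = 0 := by rw [hydef, ← pow_app_succ', hl1]; rfl
  have hyJ : ∀ c : F, J y ≠ c • y := C.no_eig hK hv
  have hspan : ∀ z, w z = 0 → ∃ c d : F, z = c • y + d • J y := by
    intro z hz
    by_contra hcon
    push Not at hcon
    exact hgood (C.good_S hy hz (hQ0 y hy) (hQ0 _ (hJker y hy)) (hQ0 z hz)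
      (hQ0 _ (hJker z hz)) (hB0 y z hy hz) (hB0 y _ hy (hJker z hz)) hyJ hcon)
  have hkspan : LinearMap.ker w = Submodule.span F {y, J y} := by
    ext z
    rw [LinearMap.mem_ker, Submodule.mem_span_pair]
    constructor
    · intro hz
      obtain ⟨c, d, h⟩ := hspan z hz
      exact ⟨c, d, h.symm⟩
    · rintro ⟨c, d, rfl⟩
      rw [map_add, map_smul, map_smul, hy, hJker y hy]; simp
  have hk2 : finrank F (LinearMap.ker w) = 2 := by
    rw [hkspan]; exact finrank_span_pair_of_ind hv hyJ
  obtain ⟨hrk, -⟩ := C.range_eq_ker hl hl1 hk2.le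
  -- orthogonality to the kernel
  have horth : ∀ x, S.B x y = 0 → S.B x (J y) = 0 → ∃ z, w z = x := by
    intro x h1 h2
    apply S.mem_range w C.ws
    intro z hz
    obtain ⟨c, d, rfl⟩ := hspan z hz
    simp [h1, h2]
  obtain ⟨j, hj | hj⟩ := Nat.even_or_odd' l
  · exfalso
    obtain ⟨z, hz⟩ := horth v (by rw [hydef, ← C.ws_pow]; exact C.wa_pow l v) (by
      rw [hydef, hj]; exact C.alt_Jpow j v)
    apply hv
    rw [hydef, ← hz, ← pow_app_succ, hl1]; rfl
  · rcases Nat.eq_zero_or_pos j with rfl | hjpos
    · -- dimension four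
      have hl' : l = 1 := by omega
      subst hl'
      refine ⟨LinearMap.ker w, fun x hx => hJker x hx, fun x hx => hQ0 x hx, ?_⟩
      rw [hk2, C.dim_four hl hl1 hk2.le]
    · exfalso
      apply hgood
      have hlj : l = 2 * j + 1 := hj
      set g := w ^ (2 * j) with hg
      have hgy : g y = 0 := by
        rw [hg, hydef, ← pow_app_add, C.pow_zero_of_le hl1 (by omega)]; rfl
      have hgJ : ∀ x, g (J x) = J (g x) := C.w2jJ j
      have hgg : ∀ x, g (g x) = 0 := by
        intro x
        rw [hg, ← pow_app_add, C.pow_zero_of_le hl1 (by omega)]; rfl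
      have hgs : ∀ x z, S.B (g x) z = S.B x (g z) := C.ws_pow (2 * j)
      have hgw : ∀ x, g (w x) = w (g x) := by
        intro x; rw [hg, ← pow_app_succ, ← pow_app_succ']
      have hiso : ∀ x z, S.B (g x) (g z) = 0 := by
        intro x z; rw [hgs, hgg, map_zero]
      obtain ⟨a, b, hab⟩ := C.exists_coef (k := 0) g hiso (y := y) (by
        intro x h1 h2
        obtain ⟨z, rfl⟩ := horth x h1 h2
        apply hQ0
        rw [hgw, hg, ← pow_app_succ', ← pow_app_succ', C.pow_zero_of_le hl1 (by omega)]; rfl)
      have hyy : S.B y y = 0 := S.self y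
      have hyJy : S.B y (J y) = 0 := C.Ja' y
      have hJyJy : S.B (J y) (J y) = 0 := S.self _
      have hJyy : S.B (J y) y = 0 := C.Ja y
      have hQy := hQ0 y hy
      have hQJy := hQ0 _ (hJker y hy)
      have hgJy : g (J y) = 0 := by rw [hgJ, hgy, map_zero]
      have hTy : ∀ c : V, Th S J y c y = 0 := by
        intro c; rw [Th_apply, hyy, hyJy]; simp
      have hTJy : ∀ c : V, Th S J y c (J y) = 0 := by
        intro c; rw [C.Th_J, hTy, map_zero]
      have hMapp : ∀ x, (g + (b ^ 2 + (1 + e) * a ^ 2) • Th S J y y + a ^ 2 • Th S J y (J y)) x =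
          g x + ((b ^ 2 + (1 + e) * a ^ 2) * (S.B x (J y) + S.B x y) + a ^ 2 * (e * S.B x y)) • y
            + ((b ^ 2 + (1 + e) * a ^ 2) * S.B x y + a ^ 2 * (S.B x (J y) + S.B x y)
              + a ^ 2 * S.B x y) • J y := by
        intro x
        simp only [LinearMap.add_apply, LinearMap.smul_apply, Th_apply, C.JJ]
        module
      refine ⟨g + (b ^ 2 + (1 + e) * a ^ 2) • Th S J y y + a ^ 2 • Th S J y (J y),
        ?_, ?_, ?_, ?_, ?_⟩
      · intro h
        have h1 := LinearMap.congr_fun h v
        rw [hMapp, LinearMap.zero_apply] at h1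
        have h2 := congrArg w h1
        rw [map_zero, map_add, map_add, map_smul, map_smul, hy, hJker y hy, smul_zero, smul_zero,
          add_zero, add_zero, hg, ← pow_app_succ', ← hlj] at h2
        exact hv h2
      · intro x
        have h1 : (g + (b ^ 2 + (1 + e) * a ^ 2) • Th S J y y + a ^ 2 • Th S J y (J y)) y = 0 := by
          simp only [LinearMap.add_apply, LinearMap.smul_apply, hgy, hTy, smul_zero, add_zero]
        have h2 : (g + (b ^ 2 + (1 + e) * a ^ 2) • Th S J y y + a ^ 2 • Th S J y (J y)) (J y)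
            = 0 := by
          simp only [LinearMap.add_apply, LinearMap.smul_apply, hgJy, hTJy, smul_zero, add_zero]
        have h3 : (g + (b ^ 2 + (1 + e) * a ^ 2) • Th S J y y + a ^ 2 • Th S J y (J y)) (g x)
            = 0 := by
          simp only [LinearMap.add_apply, LinearMap.smul_apply, hgg, Th_apply, hgs, hgy, hgJy,
            map_zero, zero_smul, smul_zero, add_zero]
        conv_lhs => rw [hMapp x]
        rw [map_add, map_add, map_smul, map_smul, h1, h2, h3]
        simp
      · intro x
        simp only [LinearMap.add_apply, LinearMap.smul_apply, hgJ, C.Th_J, map_add, map_smul]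
      · intro x
        simp only [LinearMap.add_apply, LinearMap.smul_apply, hgw, C.Th_w hy hy,
          C.Th_w hy (hJker y hy), map_add, map_smul]
      · intro x
        rw [hMapp, S.add, S.add, S.add]
        simp only [S.smul, map_add, map_smul, LinearMap.add_apply, LinearMap.smul_apply,
          smul_eq_mul, hgs, hgy, hgJy, hQy, hQJy, hyy, hyJy, hJyy, hJyJy, map_zero]
        rw [hab x]
        have h0 : S.B x (g x) = 0 := by
          rw [S.symm]; exact C.wa_pow _ x
        rw [h0]
        linear_combination (norm := (ring_nf; reduce_mod_char!)) (0 : F)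

end Core

end Pool.Agent.OmegaEven
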