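import Mathlib
import Pool.Agent.OmegaEven.Local3

set_option autoImplicit false
set_option linter.unusedSectionVars false
set_option linter.unusedVariables false
set_option linter.unnecessarySeqFocus false
set_option linter.unusedSimpArgs false

namespace Pool.Agent.OmegaEven

open Module

variable {F V : Type*} [Field F] [CharP F 2] [PerfectRing F 2] [AddCommGroup V] [Module F V]

namespace Core

variable {S : QSp F V} {J w : V →ₗ[F] V} {e δ : F}

/-- two vectors of a two-dimensional kernel orthogonal to `v` are proportional -/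
theorem prop_of_orth [FiniteDimensional F V] (C : Core S J w e δ) {l : ℕ} (hl1 : w ^ (l + 1) = 0)
    (hk2 : finrank F (LinearMap.ker w) = 2) {v y z : V} (hy : w y = 0) (hz : w z = 0)
    (hy0 : y ≠ 0) (hyv : S.B y v = 0) (hzv : S.B z v = 0) (hv : (w ^ l) v ≠ 0) :
    ∃ c : F, z = c • y := by
  by_contra hcon
  push Not at hcon
  have h1 : Submodule.span F {y, z} ≤ LinearMap.ker w := by
    rw [Submodule.span_le]
    rintro x (rfl | rfl)
    · exact hy
    · exact hz
  have h2 : Submodule.span F {y, z} = LinearMap.ker w :=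
    Submodule.eq_of_le_of_finrank_le h1 (by
      rw [hk2, finrank_span_pair_of_ind hy0 hcon])
  obtain ⟨u, hu⟩ := S.mem_range w C.ws (x := v) (by
    intro t ht
    have : t ∈ Submodule.span F {y, z} := by rw [h2]; exact ht
    rw [Submodule.mem_span_pair] at this
    obtain ⟨a, b, rfl⟩ := this
    rw [map_add, map_smul, map_smul, S.symm v y, S.symm v z, hyv, hzv]; simp)
  apply hv
  rw [← hu, ← pow_app_succ, hl1]; rfl

theorem local_ne [FiniteDimensional F V] [Nontrivial V] (C : Core S J w e δ)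
    (hδ : δ ≠ 0) : Good S J w ∨ HalfJ S J := by
  by_cases hgood : Good S J w
  · exact Or.inl hgood
  right
  have hwJ : ∀ y, w y = 0 → w (J y) = δ • y := by
    intro y hy
    rw [C.wJ, hy]; simp
  have hB0 : ∀ y z, w y = 0 → w z = 0 → S.B y z = 0 := by
    intro y z hy hz
    have h1 : S.B (w (J y)) z = 0 := by rw [C.ws, hz, map_zero]
    rw [hwJ y hy, map_smul, LinearMap.smul_apply, smul_eq_mul] at h1
    exact (mul_eq_zero.1 h1).resolve_left hδ
  have hQJ : ∀ y, w y = 0 → S.Q y = 0 → S.Q (J y) = 0 := by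
    intro y hy hQ
    by_cases hy0 : y = 0
    · rw [hy0, map_zero, S.Q_zero]
    by_contra h
    exact hgood (C.good_T hy hy0 hQ h)
  have hind : ∀ y, w y = 0 → y ≠ 0 → ∀ c : F, J y ≠ c • y := by
    intro y hy hy0 c h
    have h1 := hwJ y hy
    rw [h, map_smul, hy, smul_zero] at h1
    rcases smul_eq_zero.1 h1.symm with h2 | h2
    · exact hδ h2
    · exact hy0 h2
  -- singular vectors of the kernel
  set K := LinearMap.ker w with hK
  have hiso : ∀ x y : K, S.B (K.subtype x) (K.subtype y) = 0 := fun x y =>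
    hB0 x.1 y.1 x.2 y.2
  set f := rtMap S K.subtype hiso with hf
  have hfQ : ∀ x : K, f x = 0 ↔ S.Q x.1 = 0 := by
    intro x
    have h1 := rtMap_sq S K.subtype hiso x
    rw [← hf] at h1
    rw [show S.Q x.1 = S.Q (K.subtype x) from rfl, ← h1]
    exact (pow_eq_zero_iff two_ne_zero).symm
  have hprop : ∀ y z, w y = 0 → w z = 0 → y ≠ 0 → S.Q y = 0 → S.Q z = 0 →
      ∃ c : F, z = c • y := by
    intro y z hy hz hy0 hQy hQz
    by_contra hcon
    push Not at hcon
    have h0 : S.B y z = 0 := hB0 y z hy hz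
    have h1 : S.Q (y + z) = 0 := by rw [S.add, hQy, hQz, h0]; simp
    have h2 := hQJ (y + z) (by rw [map_add, hy, hz, add_zero]) h1
    rw [map_add, S.add, hQJ y hy hQy, hQJ z hz hQz, C.Js, C.JJ, map_add, map_smul, h0] at h2
    refine hgood (C.good_S hy hz hQy (hQJ y hy hQy) hQz (hQJ z hz hQz) h0 (by simpa using h2)
      (hind y hy hy0) ?_)
    intro c d h
    have h3 := congrArg w h
    rw [hz, map_add, map_smul, map_smul, hy, hwJ y hy, smul_zero, zero_add, smul_smul] at h3
    rcases smul_eq_zero.1 h3.symm with h4 | h4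
    · have hd : d = 0 := (mul_eq_zero.1 h4).resolve_right hδ
      rw [hd, zero_smul, add_zero] at h
      exact hcon c h
    · exact hy0 h4
  have hker1 : finrank F (LinearMap.ker f) ≤ 1 := by
    by_contra hcon
    have h1 : ¬ finrank F (LinearMap.ker f) ≤ 1 := hcon
    rw [finrank_le_one_iff] at h1
    push Not at h1
    have hne : Nontrivial (LinearMap.ker f) := by
      rw [← finrank_pos_iff (R := F)]; omega
    obtain ⟨x, hx⟩ := exists_ne (0 : LinearMap.ker f)
    obtain ⟨z, hz⟩ := h1 x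
    have hx0 : x.1.1 ≠ 0 := by
      intro h
      apply hx
      ext; exact h
    obtain ⟨c, hc⟩ := hprop x.1.1 z.1.1 x.1.2 z.1.2 hx0 ((hfQ _).1 x.2) ((hfQ _).1 z.2)
    apply hz c
    ext; exact hc.symm
  have hrange1 : finrank F (LinearMap.range f) ≤ 1 := by
    have := Submodule.finrank_le (LinearMap.range f)
    rwa [finrank_self] at this
  have hsum := LinearMap.finrank_range_add_finrank_ker f
  obtain ⟨l, hl, hl1⟩ := C.exists_index
  obtain ⟨hrk, hk2⟩ := C.range_eq_ker hl hl1 (by rw [← hK]; omega)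
  rw [← hK] at hrk hk2
  -- a singular vector of the kernel
  obtain ⟨y, hy, hy0, hQy⟩ : ∃ y, w y = 0 ∧ y ≠ 0 ∧ S.Q y = 0 := by
    have hne : Nontrivial (LinearMap.ker f) := by
      rw [← finrank_pos_iff (R := F)]; omega
    obtain ⟨x, hx⟩ := exists_ne (0 : LinearMap.ker f)
    refine ⟨x.1.1, x.1.2, ?_, (hfQ _).1 x.2⟩
    intro h
    apply hx
    ext; exact h
  have hQJy := hQJ y hy hQy
  have hyK : y ∈ LinearMap.range (w ^ l) := by rw [hrk]; exact hy
  obtain ⟨v, hv⟩ := hyK
  have hv0 : (w ^ l) v ≠ 0 := by rw [hv]; exact hy0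
  obtain ⟨j, hj | hj⟩ := Nat.even_or_odd' l
  · exfalso
    have h1 : J y ∈ LinearMap.range (w ^ l) := by
      refine ⟨J v, ?_⟩
      rw [hj, C.w2jJ, ← hj, hv]
    rw [hrk] at h1
    have h2 : w (J y) = 0 := h1
    rw [hwJ y hy] at h2
    rcases smul_eq_zero.1 h2 with h | h
    · exact hδ h
    · exact hy0 h
  rcases Nat.eq_zero_or_pos j with rfl | hjpos
  · have hl' : l = 1 := by omega
    subst hl'
    refine ⟨Submodule.span F {y, J y}, ?_, ?_, ?_⟩
    · intro x hx
      rw [Submodule.mem_span_pair] at hx ⊢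
      obtain ⟨a, b, rfl⟩ := hx
      refine ⟨b * e, a + b, ?_⟩
      rw [map_add, map_smul, map_smul, C.JJ]
      module
    · intro x hx
      rw [Submodule.mem_span_pair] at hx
      obtain ⟨a, b, rfl⟩ := hx
      rw [C.Q_comb, hQy, hQJy]; simp
    · rw [finrank_span_pair_of_ind hy0 (hind y hy hy0), C.dim_four hl hl1 hk2.le]
  exfalso
  have hwJy : w (J y) = δ • y := hwJ y hy
  -- the vector p
  obtain ⟨p0, hp0⟩ := S.mem_range w C.ws (x := J y) (by
    intro z hz
    have hzK : z ∈ LinearMap.range (w ^ l) := by rw [hrk]; exact hz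
    obtain ⟨z', rfl⟩ := hzK
    obtain ⟨i, hi⟩ : ∃ i, l = i + 1 + 1 := ⟨l - 2, by omega⟩
    rw [← C.ws_pow, hi, pow_app_succ, pow_app_succ, hwJy, map_smul, hy, smul_zero, map_zero]
    simp)
  obtain ⟨p, hp⟩ : ∃ p, p = δ⁻¹ • p0 := ⟨_, rfl⟩
  have hwp : w p = δ⁻¹ • J y := by rw [hp, map_smul, hp0]
  have hwwp : w (w p) = y := by
    rw [hwp, map_smul, hwJy, smul_smul, inv_mul_cancel₀ hδ, one_smul]
  have hwJp : w (J p) = (δ⁻¹ * e) • y + y + δ • p := by
    rw [C.wJ, hwwp, hwp, map_smul, C.JJ]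
    match_scalars <;> (ring_nf; try reduce_mod_char!)
  have byy : S.B y y = 0 := S.self y
  have byJy : S.B y (J y) = 0 := C.Ja' y
  have bJyy : S.B (J y) y = 0 := C.Ja y
  have bpy : S.B p y = 0 := by
    have h1 := C.wa_pow 2 p
    rw [C.ws_pow] at h1
    rwa [pow_app_succ, pow_app_succ, pow_app_zero, hwwp] at h1
  have byp : S.B y p = 0 := by rw [S.symm]; exact bpy
  have bpJy : S.B p (J y) = 0 := by
    have h1 := C.alt_Jw2 p
    rwa [hwwp] at h1
  have bJyp : S.B (J y) p = 0 := by rw [S.symm]; exact bpJy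
  have byJp : S.B y (J p) = 0 := by rw [← C.Js]; exact bJyp
  have bJpy : S.B (J p) y = 0 := by rw [S.symm]; exact byJp
  have bpJp : S.B p (J p) = 0 := C.Ja' p
  have bJyJp : S.B (J y) (J p) = 0 := by rw [C.Js, C.JJ, map_add, map_smul, byJp, byp]; simp
  have bJpJy : S.B (J p) (J y) = 0 := by rw [S.symm]; exact bJyJp
  have bJyJy : S.B (J y) (J y) = 0 := S.self _
  have bpp : S.B p p = 0 := S.self _
  have bJpJp : S.B (J p) (J p) = 0 := S.self _
  have bJpp : S.B (J p) p = 0 := C.Ja p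
  -- the operator g
  set g := w ^ (2 * j) with hg
  have hgJ : ∀ x, g (J x) = J (g x) := C.w2jJ j
  have hgg : ∀ x, g (g x) = 0 := by
    intro x
    rw [hg, ← pow_app_add, C.pow_zero_of_le hl1 (by omega)]; rfl
  have hgs : ∀ x z, S.B (g x) z = S.B x (g z) := C.ws_pow (2 * j)
  have hgw : ∀ x, g (w x) = w (g x) := by
    intro x; rw [hg, ← pow_app_succ, ← pow_app_succ']
  have hwg : ∀ x, w (g x) = (w ^ l) x := by
    intro x; rw [hg, ← pow_app_succ', ← hj]
  have hgiso : ∀ x z, S.B (g x) (g z) = 0 := by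
    intro x z; rw [hgs, hgg, map_zero]
  have hgy : g y = 0 := by
    rw [← hv, hg, ← pow_app_add, C.pow_zero_of_le hl1 (by omega)]; rfl
  have hgJy : g (J y) = 0 := by rw [hgJ, hgy, map_zero]
  obtain ⟨c, hc⟩ : ∃ c : F, g p = c • y := by
    rcases Nat.eq_or_lt_of_le hjpos with h | h
    · refine ⟨1, ?_⟩
      rw [hg, ← h, show 2 * Nat.succ 0 = 0 + 1 + 1 by rfl, pow_app_succ, pow_app_succ,
        pow_app_zero, hwwp, one_smul]
    · refine ⟨0, ?_⟩
      obtain ⟨i, hi⟩ : ∃ i, 2 * j = i + 1 + 1 + 1 := ⟨2 * j - 3, by omega⟩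
      rw [hg, hi, pow_app_succ, pow_app_succ, pow_app_succ, hwwp, hy, map_zero, zero_smul]
  have hcJ : g (J p) = c • J y := by rw [hgJ, hc, map_smul]
  obtain ⟨a, b, hab⟩ := C.exists_coef (k := 0) g hgiso (y := y) (by
    intro x h1 h2
    have hwx : w ((w ^ l) x) = 0 := by rw [← pow_app_succ', hl1]; rfl
    have hvy : S.B y v = 0 := by rw [← hv]; exact C.wa_pow l v
    obtain ⟨c', hc'⟩ := C.prop_of_orth hl1 hk2 hy hwx hy0 hvy (by
      rw [C.ws_pow, hv]; exact h1) hv0
    -- u' = g x - c' δ⁻¹ J y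
    have hu' : w (g x + (c' * δ⁻¹) • J y) = 0 := by
      rw [map_add, hwg, hc', map_smul, hwJy, smul_smul, mul_assoc, inv_mul_cancel₀ hδ, mul_one]
      exact add_selfV F _
    have h3 : S.B (g x + (c' * δ⁻¹) • J y) v = 0 := by
      set u := g x + (c' * δ⁻¹) • J y with hu
      have h4 : S.B u (J (w v)) = δ * S.B u v := by
        rw [← C.Js, ← C.ws, hwJ u hu', map_smul, LinearMap.smul_apply, smul_eq_mul]
      have h5 : S.B u (J (w v)) = 0 := by
        rw [hu, map_add, LinearMap.add_apply, map_smul, LinearMap.smul_apply, hgs, hgJ, hgw, hwg,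
          hv, h2, C.Js, C.JJ, map_add, map_smul, ← C.Js, ← C.ws, hwJy, ← C.ws, hy]
        simp [hvy]
      rw [h5] at h4
      exact (mul_eq_zero.1 h4.symm).resolve_left hδ
    obtain ⟨d, hd⟩ := C.prop_of_orth hl1 hk2 hy hu' hy0 hvy h3 hv0
    have h6 : g x = d • y + (c' * δ⁻¹) • J y := by
      rw [← hd, add_assoc, add_selfV F, add_zero]
    rw [h6, C.Q_comb, hQy, hQJy]; simp)
  -- the general solution
  have key : ∀ α β γ : F, β * (δ⁻¹) ^ 2 + α ^ 2 * a ^ 2 + β ^ 2 * S.Q p = 0 →
      β * (δ⁻¹) ^ 2 * (1 + e) + γ + α ^ 2 * b ^ 2 + β ^ 2 * S.Q (J p) + c * α * β = 0 →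
      (β = 1 ∨ (β = 0 ∧ α = 1)) → False := by
    intro α β γ hE0 hE1 hne
    apply hgood
    set M := α • g + β • (Th S J y (p + ((δ⁻¹) ^ 2) • J y) + Th S J p y) + γ • Th S J y y with hM
    have hMapp : ∀ x, M x = α • g x + (β * (S.B x (J y) + S.B x y)) • p
        + (β * S.B x y) • J p
        + (β * ((δ⁻¹) ^ 2 * e * S.B x y + (S.B x (J p) + S.B x p))
            + γ * (S.B x (J y) + S.B x y)) • y
        + (β * ((δ⁻¹) ^ 2 * (S.B x (J y) + S.B x y + S.B x y) + S.B x p) + γ * S.B x y) • J y := by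
      intro x
      simp only [hM, LinearMap.add_apply, LinearMap.smul_apply, Th_apply, map_add, map_smul, C.JJ]
      module
    have hMJ : ∀ x, M (J x) = J (M x) := by
      intro x
      simp only [hM, LinearMap.add_apply, LinearMap.smul_apply, hgJ, C.Th_J, map_add, map_smul]
    have hMy : M y = 0 := by
      rw [hMapp, hgy, byJy, byy, byJp, byp]; simp
    have hMJy : M (J y) = 0 := by rw [hMJ, hMy, map_zero]
    have hMp : M p = (α * c) • y := by
      rw [hMapp, hc, bpJy, bpy, bpJp, bpp, smul_smul]; simp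
    have hMJp : M (J p) = (α * c) • J y := by rw [hMJ, hMp, map_smul]
    have hMg : ∀ x, M (g x) = (β * c * (S.B x (J y) + S.B x y)) • y +
        (β * c * S.B x y) • J y := by
      intro x
      rw [hMapp, hgg, hgs, hgs, hgs, hgs, hgJy, hgy, hcJ, hc]
      simp only [map_zero, map_smul, smul_eq_mul]
      module
    refine ⟨M, ?_, ?_, hMJ, ?_, ?_⟩
    · intro h
      rcases hne with h1 | ⟨h1, h2⟩
      · obtain ⟨x, hx1, hx2⟩ := S.exists_dual (hind y hy hy0)
        have h3 : w (w (M x)) = 0 := by rw [h]; simp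
        rw [hMapp, hx1, hx2, h1] at h3
        simp only [map_add, map_smul, hwJy, hy, smul_zero, hwwp, hwg] at h3
        rw [← pow_app_succ', hl1] at h3
        simp [hy0] at h3
      · have h3 : w (M v) = 0 := by rw [h]; simp
        have hvy : S.B v y = 0 := by rw [S.symm, ← hv]; exact C.wa_pow l v
        rw [hMapp, h1, h2, hvy] at h3
        simp only [map_add, map_smul, hwJy, hy, smul_zero, hwg, hv] at h3
        simp [hy0] at h3
    · intro x
      conv_lhs => rw [hMapp x]
      simp only [map_add, map_smul, hMy, hMJy, hMp, hMJp, hMg]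
      match_scalars <;> (ring_nf; try reduce_mod_char!)
    · intro x
      rw [hMapp, hMapp]
      simp only [C.ws, hwp, hwJp, hwJy, hy, map_add, map_smul, hgw, smul_zero, map_zero,
        smul_eq_mul]
      match_scalars <;> field_simp <;> (ring_nf; try reduce_mod_char!)
    · intro x
      rw [hMapp, S.add, S.add, S.add, S.add, S.add]
      simp only [S.smul, map_add, map_smul, LinearMap.add_apply, LinearMap.smul_apply,
        smul_eq_mul, hgs, hgy, hgJy, hc, hcJ, hQy, hQJy, byy, byJy, bJyy, bJyJy, bpy, byp, bpJy,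
        bJyp, byJp, bJpy, bpJp, bJyJp, bJpJy, bpp, bJpJp, bJpp, map_zero]
      rw [hab x]
      have h0 : S.B x (g x) = 0 := by
        rw [S.symm]; exact C.wa_pow _ x
      rw [h0]
      linear_combination (norm := (ring_nf; reduce_mod_char!))
        (S.B x (J y) + S.B x y) ^ 2 * hE0 + (S.B x y) ^ 2 * hE1
  by_cases ha : a = 0
  · apply key 1 0 (b ^ 2)
    · rw [ha]; ring
    · linear_combination (norm := (ring_nf; reduce_mod_char!)) (0 : F)
    · exact Or.inr ⟨rfl, rfl⟩
  · apply key (rt ((δ⁻¹) ^ 2 + S.Q p) / a) 1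
      ((δ⁻¹) ^ 2 * (1 + e) + (rt ((δ⁻¹) ^ 2 + S.Q p) / a) ^ 2 * b ^ 2 + S.Q (J p)
        + c * (rt ((δ⁻¹) ^ 2 + S.Q p) / a))
    · have h1 : (rt ((δ⁻¹) ^ 2 + S.Q p) / a) ^ 2 * a ^ 2 = (δ⁻¹) ^ 2 + S.Q p := by
        rw [div_pow, div_mul_cancel₀ _ (pow_ne_zero 2 ha), rt_sq]
      rw [h1]
      linear_combination (norm := (ring_nf; reduce_mod_char!)) (0 : F)
    · linear_combination (norm := (ring_nf; reduce_mod_char!)) (0 : F)
    · exact Or.inl rfl

/-- the local statement -/
theorem local_main [FiniteDimensional F V] [Nontrivial V] (C : Core S J w e δ)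
    (hK : δ = 0 → ∀ t : F, t ^ 2 + t ≠ e) : Good S J w ∨ HalfJ S J := by
  by_cases hδ : δ = 0
  · subst hδ
    exact C.local_zero (hK rfl)
  · exact C.local_ne hδ

end Core

end Pool.Agent.OmegaEven
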