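import Mathlib
import Pool.Agent.OmegaEven.Basic

set_option autoImplicit false
set_option linter.unusedSectionVars false
set_option linter.unusedVariables false

namespace Pool.Agent.OmegaEven

open Module

section
variable {F R : Type*} [Field F] [Field R] [Algebra F R] [FiniteDimensional F R]
  [Algebra.IsSeparable F R]

theorem exists_tr (f : R →ₗ[F] F) : ∃ r : R, ∀ c, Algebra.trace F R (c * r) = f c := by
  have hnd := traceForm_nondegenerate F R
  refine ⟨(LinearMap.BilinForm.toDual _ hnd).symm f, fun c => ?_⟩
  have h := LinearMap.BilinForm.apply_toDual_symm_apply (hB := hnd) f c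
  rw [← h, mul_comm]
  rfl

theorem tr_inj {r s : R} (h : ∀ c : R, Algebra.trace F R (c * r) = Algebra.trace F R (c * s)) :
    r = s := by
  have hnd := traceForm_nondegenerate F R
  rw [← sub_eq_zero]
  apply hnd.1
  intro c
  rw [Algebra.traceForm_apply, sub_mul, map_sub, mul_comm r c, mul_comm s c, h c, sub_self]

end

section
variable {F R V : Type*} [Field F] [CharP F 2] [PerfectRing F 2] [Field R] [CharP R 2]
  [PerfectRing R 2] [Algebra F R] [FiniteDimensional F R] [Algebra.IsSeparable F R]
  [AddCommGroup V] [Module F V] [Module R V] [IsScalarTower F R V]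

theorem rt_algebraMap_mul (a : F) (c : R) : rt (a • c) = rt a • rt c := by
  have h : a • c = (rt a • rt c) ^ 2 := by
    rw [smul_pow, rt_sq, rt_sq]
  conv_lhs => rw [h]
  rw [rt_of_sq]

theorem transfer (S : QSp F V) (hR : ∀ (c : R) x y, S.B (c • x) y = S.B x (c • y)) :
    ∃ S' : QSp R V, (∀ x y (c : R), Algebra.trace F R (c * S'.B x y) = S.B (c • x) y) ∧
      ∀ x (c : R), Algebra.trace F R (c ^ 2 * S'.Q x) = S.Q (c • x) := by
  have halt : ∀ (c : R) x, S.B (c • x) x = 0 := by
    intro c x
    rw [← rt_sq c, sq, mul_smul, hR]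
    exact S.self _
  -- the quadratic form
  have hq : ∀ x : V, ∃ r : R, ∀ c : R, Algebra.trace F R (c ^ 2 * r) = S.Q (c • x) := by
    intro x
    let f : R →ₗ[F] F :=
      { toFun := fun c => S.Q (rt c • x)
        map_add' := fun c d => by
          rw [map_add, add_smul, S.add, ← hR, smul_smul, mul_comm, halt, add_zero]
        map_smul' := fun a c => by
          rw [rt_algebraMap_mul, smul_assoc, S.smul, rt_sq]; rfl }
    obtain ⟨r, hr⟩ := exists_tr f
    refine ⟨r, fun c => ?_⟩
    rw [hr]
    change S.Q (rt (c ^ 2) • x) = _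
    rw [rt_of_sq]
  have hb : ∀ x y : V, ∃ r : R, ∀ c : R, Algebra.trace F R (c * r) = S.B (c • x) y := by
    intro x y
    let f : R →ₗ[F] F :=
      { toFun := fun c => S.B (c • x) y
        map_add' := fun c d => by rw [add_smul, map_add, LinearMap.add_apply]
        map_smul' := fun a c => by
          rw [smul_assoc, map_smul, LinearMap.smul_apply]; rfl }
    obtain ⟨r, hr⟩ := exists_tr f
    exact ⟨r, fun c => hr c⟩
  choose q hq using hq
  choose b hb using hb
  have hb_add : ∀ x y z, b (x + y) z = b x z + b y z := by
    intro x y z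
    apply tr_inj (F := F)
    intro c
    rw [mul_add, map_add, hb, hb, hb, smul_add, map_add, LinearMap.add_apply]
  have hb_symm : ∀ x y, b x y = b y x := by
    intro x y
    apply tr_inj (F := F)
    intro c
    rw [hb, hb, hR, S.symm]
  have hb_smul : ∀ (c : R) x y, b (c • x) y = c * b x y := by
    intro c x y
    apply tr_inj (F := F)
    intro d
    rw [hb, ← mul_assoc, hb, mul_smul]
  refine ⟨{ Q := q
            B := LinearMap.mk₂ R b hb_add hb_smul
              (fun x y z => by rw [hb_symm, hb_add, hb_symm y, hb_symm z])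
              (fun c x y => by rw [hb_symm, hb_smul, hb_symm]; rfl)
            add := ?_
            smul := ?_
            nd := ?_ }, ?_, ?_⟩
  · intro x y
    apply tr_inj (F := F)
    intro c
    rw [← rt_sq c]
    rw [LinearMap.mk₂_apply, mul_add, mul_add, map_add, map_add, hq, hq, hq, hb, smul_add, S.add,
      sq, mul_smul, hR (rt c) (rt c • x) y]
  · intro c x
    apply tr_inj (F := F)
    intro d
    rw [← rt_sq d]
    rw [hq, ← mul_assoc, ← mul_pow, hq, mul_smul]
  · intro x hx
    apply S.nd
    intro y
    have h1 := hb x y 1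
    rw [one_mul, one_smul] at h1
    have h2 : b x y = 0 := hx y
    rw [← h1, h2, map_zero]
  · intro x y c
    exact hb x y c
  · intro x c
    exact hq x c

end

end Pool.Agent.OmegaEven
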