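import Mathlib
import Pool.Agent.OmegaEven.Transfer
import Pool.Agent.OmegaEven.Local4

set_option autoImplicit false
set_option linter.unusedSectionVars false
set_option linter.unusedVariables false
set_option linter.unnecessarySeqFocus false
set_option linter.style.haveILetI false

namespace Pool.Agent.OmegaEven

open Module

/-- two quadratic operators with the same equation -/
structure Pair {F V : Type*} [Field F] [AddCommGroup V] [Module F V] (S : QSp F V)
    (J J' : V →ₗ[F] V) (e : F) : Prop where
  JJ : ∀ x, J (J x) = J x + e • x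
  JJ' : ∀ x, J' (J' x) = J' x + e • x
  Js : ∀ x y, S.B (J x) y = S.B x (J y)
  Js' : ∀ x y, S.B (J' x) y = S.B x (J' y)
  Ja : ∀ x, S.B (J x) x = 0
  Ja' : ∀ x, S.B (J' x) x = 0

/-- there is a nontrivial involutive isometry commuting with both -/
def Comm {F V : Type*} [Field F] [AddCommGroup V] [Module F V] (S : QSp F V)
    (J J' : V →ₗ[F] V) : Prop :=
  ∃ M : V →ₗ[F] V, M ≠ 0 ∧ (∀ x, M (M x) = 0) ∧ (∀ x, M (J x) = J (M x)) ∧
    (∀ x, M (J' x) = J' (M x)) ∧ ∀ x, S.Q (x + M x) = S.Q x

variable {F V : Type*} [Field F] [CharP F 2] [AddCommGroup V] [Module F V]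

theorem field_case [Finite F] [FiniteDimensional F V] [Nontrivial V] {S : QSp F V}
    {J J' : V →ₗ[F] V} {e : F} (P : Pair S J J' e)
    {R : Type*} [Field R] [Finite R] [Algebra F R] [Module R V] [IsScalarTower F R V]
    (hR : ∀ (c : R) x y, S.B (c • x) y = S.B x (c • y))
    (hRJ : ∀ (c : R) x, J (c • x) = c • J x) (hRJ' : ∀ (c : R) x, J' (c • x) = c • J' x)
    (k : ℕ) (c0 : R) (h0 : ∀ x, ((J + J') ^ (2 ^ k)) x = c0 • x)
    (hgen : (c0 = 0 ∨ c0 = 1) → Function.Surjective (algebraMap F R) ∧
      ∀ t : F, t ^ 2 + t ≠ e) :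
    Comm S J J' ∨ HalfJ S J := by
  haveI : CharP R 2 := charP_of_injective_algebraMap (algebraMap F R).injective 2
  haveI : PerfectRing F 2 := inferInstance
  haveI : PerfectRing R 2 := inferInstance
  haveI : FiniteDimensional F R := inferInstance
  haveI : FiniteDimensional R V := FiniteDimensional.right F R V
  haveI : Algebra.IsSeparable F R := inferInstance
  obtain ⟨S', hB, hQ⟩ := transfer S hR
  have hQ1 : ∀ x, S.Q x = Algebra.trace F R (S'.Q x) := by
    intro x
    have := hQ x 1
    rw [one_pow, one_mul, one_smul] at this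
    exact this.symm
  -- linear maps over R
  let JR : V →ₗ[R] V := { toFun := J, map_add' := J.map_add, map_smul' := hRJ }
  let nR : V →ₗ[R] V := { toFun := fun x => J x + J' x
                          map_add' := fun x y => by rw [map_add, map_add]; abel
                          map_smul' := fun c x => by rw [hRJ, hRJ', smul_add]; rfl }
  have hnpow : ∀ (j : ℕ) x, (nR ^ j) x = ((J + J') ^ j) x := by
    intro j
    induction j with
    | zero => intro x; rfl
    | succ j ih => intro x; rw [pow_app_succ, pow_app_succ, ih]; rfl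
  haveI : CharP (Module.End R V) 2 :=
    charP_of_injective_algebraMap (algebraMap R (Module.End R V)).injective 2
  obtain ⟨ρ, hρ⟩ : ∃ ρ : R, ρ ^ (2 ^ k) = c0 := by
    refine ⟨(iterateFrobeniusEquiv R 2 k).symm c0, ?_⟩
    have := (iterateFrobeniusEquiv R 2 k).apply_symm_apply c0
    rwa [iterateFrobeniusEquiv_apply] at this
  let w : V →ₗ[R] V := nR + algebraMap R (Module.End R V) ρ
  have hw : ∀ x, w x = J x + J' x + ρ • x := fun x => rfl
  have C : Core S' JR w (algebraMap F R e) (ρ ^ 2 + ρ) := by
    have hs' : ∀ x y, S'.B (J' x) y = S'.B x (J' y) := by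
      intro x y
      apply tr_inj (F := F)
      intro c
      rw [hB, hB, ← hRJ', P.Js']
    have hs : ∀ x y, S'.B (J x) y = S'.B x (J y) := by
      intro x y
      apply tr_inj (F := F)
      intro c
      rw [hB, hB, ← hRJ, P.Js]
    have ha : ∀ x, S'.B (J x) x = 0 := by
      intro x
      apply tr_inj (F := F)
      intro c
      rw [hB, mul_zero, map_zero, ← rt_sq c, sq, mul_smul, hR, ← hRJ, P.Ja]
    have ha' : ∀ x, S'.B (J' x) x = 0 := by
      intro x
      apply tr_inj (F := F)
      intro c
      rw [hB, mul_zero, map_zero, ← rt_sq c, sq, mul_smul, hR, ← hRJ', P.Ja']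
    refine ⟨?_, hs, ha, ?_, ?_, ?_, ?_⟩
    · intro x
      have : JR (JR x) = J (J x) := rfl
      rw [this, P.JJ, algebraMap_smul]; rfl
    · intro x y
      rw [hw, hw]
      simp only [map_add, LinearMap.add_apply, map_smul, LinearMap.smul_apply, hs, hs']
    · intro x
      rw [hw]
      simp only [map_add, LinearMap.add_apply, map_smul, LinearMap.smul_apply, ha, ha', S'.self,
        smul_zero, add_zero]
    · intro x
      have e1 : JR x = J x := rfl
      rw [hw, hw, e1]
      have e2 : JR (J x + J' x + ρ • x) = J (J x) + J (J' x) + ρ • J x := by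
        change J (J x + J' x + ρ • x) = _
        rw [map_add, map_add, hRJ]
      rw [e2, hw]
      simp only [map_add, hRJ, hRJ', P.JJ, P.JJ']
      have e3 : e • x = (algebraMap F R e) • x := (algebraMap_smul R e x).symm
      rw [e3]
      match_scalars <;> (ring_nf; try reduce_mod_char!)
    · refine ⟨2 ^ k, ?_⟩
      have hc : Commute nR (algebraMap R (Module.End R V) ρ) := (Algebra.commutes ρ nR).symm
      have h1 : w ^ (2 ^ k) = nR ^ (2 ^ k) + (algebraMap R (Module.End R V) ρ) ^ (2 ^ k) :=
        add_pow_char_pow_of_commute 2 _ hc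
      rw [h1, ← map_pow, hρ]
      ext x
      rw [LinearMap.add_apply, hnpow, h0]
      exact add_selfV R _
  rcases C.local_main (by
    intro hδ t ht
    have h1 : ρ = 0 ∨ ρ = 1 := by
      have : ρ * (ρ - 1) = 0 := by
        linear_combination (norm := (ring_nf; reduce_mod_char!)) hδ
      rcases mul_eq_zero.1 this with h | h
      · exact Or.inl h
      · exact Or.inr (sub_eq_zero.1 h)
    have h2 : c0 = 0 ∨ c0 = 1 := by
      rcases h1 with h | h
      · left; rw [← hρ, h, zero_pow]; positivity
      · right; rw [← hρ, h, one_pow]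
    obtain ⟨hsurj, hK⟩ := hgen h2
    obtain ⟨s, rfl⟩ := hsurj t
    apply hK s
    apply (algebraMap F R).injective
    rw [← ht, map_add, map_pow]) with hG | hH
  · left
    obtain ⟨M, hM0, hMM, hMJ, hMw, hMQ⟩ := hG
    refine ⟨M.restrictScalars F, ?_, hMM, hMJ, ?_, ?_⟩
    · intro h
      apply hM0
      ext x
      exact LinearMap.congr_fun h x
    · intro x
      have h1 := hMw x
      rw [hw, hw, map_add, map_add, map_smul] at h1
      have h2 : M (J x) = J (M x) := hMJ x
      rw [h2] at h1
      exact add_left_cancel (add_right_cancel h1)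
    · intro x
      change S.Q (x + M x) = _
      rw [hQ1, hMQ, ← hQ1]
  · right
    obtain ⟨U, hUJ, hU, hdim⟩ := hH
    refine ⟨U.restrictScalars F, fun x hx => hUJ x hx, ?_, ?_⟩
    · intro x hx
      rw [hQ1, hU x hx, map_zero]
    · have h1 : finrank F (U.restrictScalars F) = finrank F R * finrank R U :=
        (finrank_mul_finrank F R U).symm
      have h2 := finrank_mul_finrank F R V
      rw [h1, ← h2, ← hdim]
      ring

end Pool.Agent.OmegaEven
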