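import Mathlib
import Pool.Agent.OmegaEven.Global1

set_option autoImplicit false
set_option linter.unusedSectionVars false
set_option linter.unusedVariables false
set_option linter.unnecessarySeqFocus false
set_option linter.style.haveILetI false

namespace Pool.Agent.OmegaEven

open Module

theorem exists_pow_idem {M : Type*} [Monoid M] [Finite M] (c : M) :
    ∃ k : ℕ, 0 < k ∧ c ^ k * c ^ k = c ^ k := by
  obtain ⟨i, j, hij, h⟩ : ∃ i j : ℕ, i < j ∧ c ^ i = c ^ j := by
    obtain ⟨i, j, hne, h⟩ := Finite.exists_ne_map_eq_of_infinite (fun n : ℕ => c ^ n)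
    rcases lt_or_gt_of_ne hne with h1 | h1
    · exact ⟨i, j, h1, h⟩
    · exact ⟨j, i, h1, h.symm⟩
  obtain ⟨d, rfl⟩ := Nat.exists_eq_add_of_lt hij
  have h1 : ∀ n, i ≤ n → c ^ n = c ^ (n + (d + 1)) := by
    intro n hn
    obtain ⟨r, rfl⟩ := Nat.exists_eq_add_of_le hn
    rw [pow_add, h, ← pow_add]
    congr 1
    ring
  have h2 : ∀ m n, i ≤ n → c ^ n = c ^ (n + m * (d + 1)) := by
    intro m
    induction m with
    | zero => intro n hn; simp
    | succ m ih =>
      intro n hn
      rw [ih n hn, h1 (n + m * (d + 1)) (by omega)]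
      congr 1
      ring
  refine ⟨(i + 1) * (d + 1), by positivity, ?_⟩
  rw [← pow_add]
  refine (h2 (i + 1) _ ?_).symm
  nlinarith

variable {F V : Type*} [Field F] [CharP F 2] [AddCommGroup V] [Module F V]

/-- restriction to the range of a self-adjoint idempotent -/
def QSp.restr (S : QSp F V) (f : V →ₗ[F] V) (hf : ∀ x, f (f x) = f x)
    (hs : ∀ x y, S.B (f x) y = S.B x (f y)) : QSp F (LinearMap.range f) where
  Q x := S.Q x.1
  B := S.B.compl₁₂ (LinearMap.range f).subtype (LinearMap.range f).subtype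
  add x y := S.add x.1 y.1
  smul c x := S.smul c x.1
  nd := by
    rintro ⟨_, x, rfl⟩ h
    have : f x = 0 := by
      apply S.nd
      intro y
      rw [← hf, hs]
      exact h ⟨f y, y, rfl⟩
    ext
    exact this

/-- extension by zero of a map on the range of an idempotent -/
noncomputable def extz (f : V →ₗ[F] V) (M : LinearMap.range f →ₗ[F] LinearMap.range f) :
    V →ₗ[F] V := (LinearMap.range f).subtype ∘ₗ M ∘ₗ f.rangeRestrict

theorem extz_apply (f : V →ₗ[F] V) (M : LinearMap.range f →ₗ[F] LinearMap.range f) (x : V) :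
    extz f M x = (M (f.rangeRestrict x)).1 := rfl

theorem restr_self {f : V →ₗ[F] V} (hf : ∀ x, f (f x) = f x) (y : LinearMap.range f) :
    f.rangeRestrict y.1 = y := by
  obtain ⟨_, x, rfl⟩ := y
  exact Subtype.ext (hf x)

/-- all properties of the extension by zero -/
theorem extz_prop {S : QSp F V} {J J' : V →ₗ[F] V} (f : V →ₗ[F] V) (hf : ∀ x, f (f x) = f x)
    (hs : ∀ x y, S.B (f x) y = S.B x (f y)) (hfJ : ∀ x, f (J x) = J (f x))
    (hfJ' : ∀ x, f (J' x) = J' (f x)) (hJm : ∀ x ∈ LinearMap.range f, J x ∈ LinearMap.range f)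
    (hJm' : ∀ x ∈ LinearMap.range f, J' x ∈ LinearMap.range f)
    (M : LinearMap.range f →ₗ[F] LinearMap.range f) (hMM : ∀ x, M (M x) = 0)
    (hMJ : ∀ x, M (J.restrict hJm x) = J.restrict hJm (M x))
    (hMJ' : ∀ x, M (J'.restrict hJm' x) = J'.restrict hJm' (M x))
    (hMQ : ∀ x, (S.restr f hf hs).Q (x + M x) = (S.restr f hf hs).Q x) :
    (∀ y : LinearMap.range f, extz f M y.1 = (M y).1) ∧ (∀ x, extz f M (extz f M x) = 0) ∧
      (∀ x, extz f M (J x) = J (extz f M x)) ∧ (∀ x, extz f M (J' x) = J' (extz f M x)) ∧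
      (∀ x, S.Q (x + extz f M x) = S.Q x) ∧
      LinearMap.range (extz f M) = (LinearMap.range M).map (LinearMap.range f).subtype := by
  refine ⟨?_, ?_, ?_, ?_, ?_, ?_⟩
  · intro y
    rw [extz_apply, restr_self hf]
  · intro x
    rw [extz_apply, extz_apply, restr_self hf, hMM]; rfl
  · intro x
    have h2 : f.rangeRestrict (J x) = J.restrict hJm (f.rangeRestrict x) :=
      Subtype.ext (hfJ x)
    rw [extz_apply, h2, hMJ]; rfl
  · intro x
    have h2 : f.rangeRestrict (J' x) = J'.restrict hJm' (f.rangeRestrict x) :=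
      Subtype.ext (hfJ' x)
    rw [extz_apply, h2, hMJ']; rfl
  · intro x
    have h2 := hMQ (f.rangeRestrict x)
    have h3 : S.Q (f x + extz f M x) = S.Q (f x) := h2
    have h4 : extz f M x = f (extz f M x) := by
      obtain ⟨y, hy⟩ := (M (f.rangeRestrict x)).2
      rw [extz_apply, ← hy, hf]
    have h5 : x + extz f M x = (x + f x) + (f x + extz f M x) := by
      have := add_selfV F (f x)
      linear_combination (norm := module) -(this)
    have h6 : ∀ z, S.B (x + f x) (f z) = 0 := by
      intro z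
      rw [← hs, map_add, hf, add_selfV F, map_zero, LinearMap.zero_apply]
    have h7 : S.B (x + f x) (f x + extz f M x) = 0 := by
      rw [h4, map_add, h6, h6, add_zero]
    have h8 : S.Q x = S.Q (x + f x) + S.Q (f x) := by
      have h9 := S.add (x + f x) (f x)
      rw [h6, add_zero, add_assoc, add_selfV F, add_zero] at h9
      exact h9
    rw [h5, S.add, h7, h3, add_zero, ← h8]
  · ext z
    constructor
    · rintro ⟨x, rfl⟩
      exact ⟨M (f.rangeRestrict x), ⟨_, rfl⟩, rfl⟩
    · rintro ⟨_, ⟨y, rfl⟩, rfl⟩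
      refine ⟨y.1, ?_⟩
      rw [extz_apply, restr_self hf]; rfl

theorem split_half [FiniteDimensional F V] {S : QSp F V} {J J' : V →ₗ[F] V} {e : F}
    (P : Pair S J J' e) (f : V →ₗ[F] V) (hf : ∀ x, f (f x) = f x)
    (hs : ∀ x y, S.B (f x) y = S.B x (f y)) (hfJ : ∀ x, f (J x) = J (f x))
    (hfJ' : ∀ x, f (J' x) = J' (f x)) (h0 : ∃ x, f x ≠ 0) (h1 : ∃ x, f x ≠ x)
    (IH : ∀ (W : Submodule F V) (T : QSp F W) (K K' : W →ₗ[F] W), finrank F W < finrank F V →
      Nontrivial W → (∀ x, (K x).1 = J x.1) → (∀ x, (K' x).1 = J' x.1) → Pair T K K' e →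
      Comm T K K' ∨ HalfJ T K) :
    Comm S J J' ∨ ∃ U : Submodule F V, (∀ x ∈ U, f x = x) ∧ (∀ x ∈ U, J x ∈ U) ∧
      (∀ x ∈ U, S.Q x = 0) ∧ 2 * finrank F U = finrank F (LinearMap.range f) := by
  have hJm : ∀ x ∈ LinearMap.range f, J x ∈ LinearMap.range f := by
    rintro _ ⟨x, rfl⟩
    exact ⟨J x, hfJ x⟩
  have hJm' : ∀ x ∈ LinearMap.range f, J' x ∈ LinearMap.range f := by
    rintro _ ⟨x, rfl⟩
    exact ⟨J' x, hfJ' x⟩
  have hlt : finrank F (LinearMap.range f) < finrank F V := by
    apply Submodule.finrank_lt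
    intro htop
    obtain ⟨x, hx⟩ := h1
    have : x ∈ LinearMap.range f := by rw [htop]; trivial
    obtain ⟨y, rfl⟩ := this
    exact hx (hf y)
  have hnt : Nontrivial (LinearMap.range f) := by
    obtain ⟨x, hx⟩ := h0
    refine ⟨⟨⟨f x, x, rfl⟩, 0, fun h => hx ?_⟩⟩
    exact congrArg Subtype.val h
  rcases IH (LinearMap.range f) (S.restr f hf hs) (J.restrict hJm) (J'.restrict hJm') hlt hnt
    (fun x => rfl) (fun x => rfl)
    ⟨fun x => Subtype.ext (P.JJ x.1), fun x => Subtype.ext (P.JJ' x.1), fun x y => P.Js x.1 y.1,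
      fun x y => P.Js' x.1 y.1, fun x => P.Ja x.1, fun x => P.Ja' x.1⟩ with hC | hH
  · left
    obtain ⟨M, hM0, hMM, hMJ, hMJ', hMQ⟩ := hC
    obtain ⟨g1, g2, g3, g4, g5, -⟩ := extz_prop f hf hs hfJ hfJ' hJm hJm' M hMM hMJ hMJ' hMQ
    refine ⟨extz f M, ?_, g2, g3, g4, g5⟩
    intro h
    apply hM0
    ext x
    rw [← g1 x, h]; rfl
  · right
    obtain ⟨U, hUJ, hU, hdim⟩ := hH
    refine ⟨U.map (LinearMap.range f).subtype, ?_, ?_, ?_, ?_⟩
    · rintro _ ⟨⟨_, x, rfl⟩, -, rfl⟩
      exact hf x
    · rintro _ ⟨x, hx, rfl⟩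
      exact ⟨J.restrict hJm x, hUJ x hx, rfl⟩
    · rintro _ ⟨x, hx, rfl⟩
      exact hU x hx
    · rw [Submodule.finrank_map_subtype_eq, hdim]

theorem split_case [FiniteDimensional F V] {S : QSp F V} {J J' : V →ₗ[F] V} {e : F}
    (P : Pair S J J' e) (f : V →ₗ[F] V) (hf : ∀ x, f (f x) = f x)
    (hs : ∀ x y, S.B (f x) y = S.B x (f y)) (hfJ : ∀ x, f (J x) = J (f x))
    (hfJ' : ∀ x, f (J' x) = J' (f x)) (h0 : ∃ x, f x ≠ 0) (h1 : ∃ x, f x ≠ x)
    (IH : ∀ (W : Submodule F V) (T : QSp F W) (K K' : W →ₗ[F] W), finrank F W < finrank F V →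
      Nontrivial W → (∀ x, (K x).1 = J x.1) → (∀ x, (K' x).1 = J' x.1) → Pair T K K' e →
      Comm T K K' ∨ HalfJ T K) :
    Comm S J J' ∨ HalfJ S J := by
  rcases split_half P f hf hs hfJ hfJ' h0 h1 IH with hC | ⟨U, hUf, hUJ, hUQ, hU⟩
  · exact Or.inl hC
  have hg : ∀ x, (LinearMap.id + f : V →ₗ[F] V) x = x + f x := fun x => rfl
  rcases split_half P (LinearMap.id + f) (by
      intro x
      rw [hg, hg, map_add, hf, add_selfV F, add_zero]) (by
      intro x y
      rw [hg, hg, map_add, map_add, LinearMap.add_apply, hs]) (by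
      intro x
      rw [hg, hg, map_add, hfJ]) (by
      intro x
      rw [hg, hg, map_add, hfJ']) (by
      obtain ⟨x, hx⟩ := h1
      refine ⟨x, fun h => hx ?_⟩
      rw [hg] at h
      exact (eq_of_add_eq_zeroV F h).symm) (by
      obtain ⟨x, hx⟩ := h0
      refine ⟨x, fun h => hx ?_⟩
      rw [hg] at h
      exact add_eq_left.1 h) IH with hC | ⟨U', hUf', hUJ', hUQ', hU'⟩
  · exact Or.inl hC
  right
  have hdisj : Disjoint U U' := by
    rw [Submodule.disjoint_def]
    intro x hx hx'
    have h2 := hUf x hx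
    have h3 := hUf' x hx'
    rw [hg, h2] at h3
    exact add_eq_left.1 h3
  refine ⟨U ⊔ U', ?_, ?_, ?_⟩
  · intro x hx
    rw [Submodule.mem_sup] at hx
    obtain ⟨u, hu, u', hu', rfl⟩ := hx
    rw [map_add]
    exact Submodule.add_mem_sup (hUJ u hu) (hUJ' u' hu')
  · intro x hx
    rw [Submodule.mem_sup] at hx
    obtain ⟨u, hu, u', hu', rfl⟩ := hx
    have h2 : S.B u u' = 0 := by
      rw [← hUf u hu, ← hUf' u' hu', hs, hg, map_add, hf, add_selfV F, map_zero]
    rw [S.add, hUQ u hu, hUQ' u' hu', h2]; simp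
  · have h2 := Submodule.finrank_sup_add_finrank_inf_eq U U'
    rw [hdisj.eq_bot, finrank_bot, add_zero] at h2
    have h3 := LinearMap.finrank_range_add_finrank_ker f
    have h4 : LinearMap.range (LinearMap.id + f : V →ₗ[F] V) = LinearMap.ker f := by
      ext x
      constructor
      · rintro ⟨y, rfl⟩
        rw [LinearMap.mem_ker, hg, map_add, hf]
        exact add_selfV F _
      · intro hx
        refine ⟨x, ?_⟩
        rw [hg, LinearMap.mem_ker.1 hx, add_zero]
    rw [h4] at hU'
    omega

/-- a pair of operators splits, or is defined over a field -/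
theorem pair_cases.{u, v} {F : Type v} {V : Type u} [Field F] [CharP F 2] [Finite F]
    [AddCommGroup V] [Module F V] [FiniteDimensional F V] [Nontrivial V] {S : QSp F V}
    {J J' : V →ₗ[F] V} {e : F} (P : Pair S J J' e) :
    (∃ f : V →ₗ[F] V, (∀ x, f (f x) = f x) ∧ (∀ x y, S.B (f x) y = S.B x (f y)) ∧
      (∀ x, f (J x) = J (f x)) ∧ (∀ x, f (J' x) = J' (f x)) ∧ (∃ x, f x ≠ 0) ∧
      (∃ x, f x ≠ x)) ∨
    ∃ (R : Type u) (_ : Field R) (_ : Finite R) (_ : Algebra F R) (_ : Module R V)
      (_ : IsScalarTower F R V), (∀ (c : R) x y, S.B (c • x) y = S.B x (c • y)) ∧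
      (∀ (c : R) x, J (c • x) = c • J x) ∧ (∀ (c : R) x, J' (c • x) = c • J' x) ∧
      ∃ (k : ℕ) (c0 : R), (∀ x, ((J + J') ^ (2 ^ k)) x = c0 • x) ∧
        ((c0 = 0 ∨ c0 = 1) → Function.Surjective (algebraMap F R)) := by
  set N : Module.End F V := J + J' with hN
  have hNs : ∀ x y, S.B (N x) y = S.B x (N y) := by
    intro x y
    rw [hN, LinearMap.add_apply, LinearMap.add_apply, map_add, map_add, LinearMap.add_apply,
      P.Js, P.Js']
  have hN2J : ∀ x, N (N (J x)) = J (N (N x)) := by
    intro x
    simp only [hN, LinearMap.add_apply, map_add, P.JJ, P.JJ', map_smul]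
    match_scalars <;> (ring_nf; try reduce_mod_char!)
  have hN2J' : ∀ x, N (N (J' x)) = J' (N (N x)) := by
    intro x
    simp only [hN, LinearMap.add_apply, map_add, P.JJ, P.JJ', map_smul]
    match_scalars <;> (ring_nf; try reduce_mod_char!)
  set k := finrank F V with hk
  have hkpos : 0 < k := finrank_pos
  set c := N ^ (2 ^ k) with hc
  have hcJ : Commute c J := by
    have h1 : Commute (N ^ 2) J := by
      ext x
      exact hN2J x
    have h2 : c = (N ^ 2) ^ (2 ^ (k - 1)) := by
      rw [← pow_mul, hc]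
      congr 1
      rw [← pow_succ']
      congr 1
      omega
    rw [h2]
    exact h1.pow_left _
  have hcJ' : Commute c J' := by
    have h1 : Commute (N ^ 2) J' := by
      ext x
      exact hN2J' x
    have h2 : c = (N ^ 2) ^ (2 ^ (k - 1)) := by
      rw [← pow_mul, hc]
      congr 1
      rw [← pow_succ']
      congr 1
      omega
    rw [h2]
    exact h1.pow_left _
  have hcs : ∀ x y, S.B (c x) y = S.B x (c y) := by
    have : ∀ (j : ℕ) x y, S.B ((N ^ j) x) y = S.B x ((N ^ j) y) := by
      intro j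
      induction j with
      | zero => intro x y; rfl
      | succ j ih => intro x y; rw [pow_app_succ, ih, hNs, pow_app_succ']
    exact this _
  set R := Algebra.adjoin F {c} with hR
  have hRJ : ∀ r ∈ R, Commute r J := by
    intro r hr
    induction hr using Algebra.adjoin_induction with
    | mem x hx => rw [Set.mem_singleton_iff.1 hx]; exact hcJ
    | algebraMap a => exact Algebra.commutes a J
    | add a b _ _ ha hb => exact ha.add_left hb
    | mul a b _ _ ha hb => exact ha.mul_left hb
  have hRJ' : ∀ r ∈ R, Commute r J' := by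
    intro r hr
    induction hr using Algebra.adjoin_induction with
    | mem x hx => rw [Set.mem_singleton_iff.1 hx]; exact hcJ'
    | algebraMap a => exact Algebra.commutes a J'
    | add a b _ _ ha hb => exact ha.add_left hb
    | mul a b _ _ ha hb => exact ha.mul_left hb
  have hRc : ∀ r ∈ R, Commute r c := by
    intro r hr
    induction hr using Algebra.adjoin_induction with
    | mem x hx => rw [Set.mem_singleton_iff.1 hx]
    | algebraMap a => exact Algebra.commutes a c
    | add a b _ _ ha hb => exact ha.add_left hb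
    | mul a b _ _ ha hb => exact ha.mul_left hb
  have hRR : ∀ r ∈ R, ∀ s ∈ R, Commute r s := by
    intro r hr s hs
    induction hs using Algebra.adjoin_induction with
    | mem x hx => rw [Set.mem_singleton_iff.1 hx]; exact hRc r hr
    | algebraMap a => exact (Algebra.commutes a r).symm
    | add a b _ _ ha hb => exact ha.add_right hb
    | mul a b _ _ ha hb => exact ha.mul_right hb
  have hRs : ∀ r ∈ R, ∀ x y, S.B (r x) y = S.B x (r y) := by
    intro r hr
    induction hr using Algebra.adjoin_induction with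
    | mem x hx => rw [Set.mem_singleton_iff.1 hx]; exact hcs
    | algebraMap a =>
      intro x y
      change S.B (a • x) y = S.B x (a • y)
      rw [map_smul, map_smul, LinearMap.smul_apply]
    | add a b _ _ ha hb =>
      intro x y
      rw [LinearMap.add_apply, LinearMap.add_apply, map_add, map_add, LinearMap.add_apply, ha, hb]
    | mul a b ha' hb' ha hb =>
      intro x y
      have : (a * b) y = (b * a) y := by rw [(hRR a ha' b hb').eq]
      rw [this]
      change S.B (a (b x)) y = S.B x (b (a y))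
      rw [ha, hb]
  haveI : PerfectRing F 2 := inferInstance
  -- elements of `R` are powers
  haveI : CharP (Module.End F V) 2 :=
    charP_of_injective_algebraMap (algebraMap F (Module.End F V)).injective 2
  have hRp : ∀ r ∈ R, ∃ p ∈ Algebra.adjoin F {N}, r = p ^ (2 ^ k) := by
    have hNN : ∀ r ∈ Algebra.adjoin F {N}, Commute r N := by
      intro r hr
      induction hr using Algebra.adjoin_induction with
      | mem x hx => rw [Set.mem_singleton_iff.1 hx]
      | algebraMap a => exact Algebra.commutes a N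
      | add a b _ _ ha hb => exact ha.add_left hb
      | mul a b _ _ ha hb => exact ha.mul_left hb
    have hNR : ∀ r ∈ Algebra.adjoin F {N}, ∀ s ∈ Algebra.adjoin F {N}, Commute r s := by
      intro r hr s hs
      induction hs using Algebra.adjoin_induction with
      | mem x hx => rw [Set.mem_singleton_iff.1 hx]; exact hNN r hr
      | algebraMap a => exact (Algebra.commutes a r).symm
      | add a b _ _ ha hb => exact ha.add_right hb
      | mul a b _ _ ha hb => exact ha.mul_right hb
    intro r hr
    induction hr using Algebra.adjoin_induction with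
    | mem x hx =>
      rw [Set.mem_singleton_iff.1 hx]
      exact ⟨N, Algebra.self_mem_adjoin_singleton F N, hc⟩
    | algebraMap a =>
      refine ⟨algebraMap F _ ((iterateFrobeniusEquiv F 2 k).symm a),
        Subalgebra.algebraMap_mem _ _, ?_⟩
      rw [← map_pow]
      congr 1
      have := (iterateFrobeniusEquiv F 2 k).apply_symm_apply a
      rw [iterateFrobeniusEquiv_apply] at this
      exact this.symm
    | add a b _ _ ha hb =>
      obtain ⟨p, hp, rfl⟩ := ha
      obtain ⟨s, hs, rfl⟩ := hb
      exact ⟨p + s, Subalgebra.add_mem _ hp hs,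
        (add_pow_char_pow_of_commute 2 _ (hNR p hp s hs)).symm⟩
    | mul a b _ _ ha hb =>
      obtain ⟨p, hp, rfl⟩ := ha
      obtain ⟨s, hs, rfl⟩ := hb
      exact ⟨p * s, Subalgebra.mul_mem _ hp hs, ((hNR p hp s hs).mul_pow _).symm⟩
  have hRred : ∀ r ∈ R, ∀ j : ℕ, r ^ j = 0 → r = 0 := by
    intro r hr j hj
    obtain ⟨p, -, rfl⟩ := hRp r hr
    have h1 : p ^ (2 ^ k * j + k) = 0 := by
      rw [pow_add, pow_mul, hj, zero_mul]
    have h2 := Module.End.ker_pow_eq_ker_pow_finrank_of_le (f := p)
      (show finrank F V ≤ 2 ^ k * j + k by omega)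
    rw [h1, LinearMap.ker_zero] at h2
    have h3 : p ^ k = 0 := by
      rw [← LinearMap.ker_eq_top, ← h2]
    have h4 : k ≤ 2 ^ k := Nat.lt_two_pow_self.le
    obtain ⟨i, hi⟩ := Nat.exists_eq_add_of_le h4
    rw [hi, pow_add, h3, zero_mul]
  by_cases hidem : ∃ f ∈ R, f * f = f ∧ f ≠ 0 ∧ f ≠ 1
  · obtain ⟨f, hfR, hff, hf0, hf1⟩ := hidem
    left
    refine ⟨f, fun x => LinearMap.congr_fun hff x, hRs f hfR,
      fun x => LinearMap.congr_fun (hRJ f hfR).eq x,
      fun x => LinearMap.congr_fun (hRJ' f hfR).eq x, ?_, ?_⟩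
    · by_contra h
      push Not at h
      exact hf0 (LinearMap.ext h)
    · by_contra h
      push Not at h
      exact hf1 (LinearMap.ext h)
  · push Not at hidem
    right
    haveI : Finite (Module.End F V) := Module.finite_of_finite F
    haveI : Finite R := inferInstance
    have hfield : IsField R := by
      refine ⟨⟨0, 1, ?_⟩, ?_, ?_⟩
      · intro h
        have h1 : (0 : Module.End F V) = 1 := congrArg Subtype.val h
        exact zero_ne_one h1
      · intro a b
        exact Subtype.ext (hRR a.1 a.2 b.1 b.2).eq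
      · intro a ha
        obtain ⟨m, hm, h1⟩ := exists_pow_idem a.1
        have h2 : a.1 ^ m ∈ R := Subalgebra.pow_mem _ a.2 m
        have h3 : a.1 ^ m ≠ 0 := by
          intro h
          exact ha (Subtype.ext (hRred a.1 a.2 m h))
        have h4 := hidem _ h2 h1 h3
        refine ⟨a ^ (m - 1), Subtype.ext ?_⟩
        change a.1 * a.1 ^ (m - 1) = 1
        rw [← pow_succ', Nat.sub_add_cancel hm, h4]
    letI : Field R := hfield.toField
    refine ⟨R, inferInstance, inferInstance, inferInstance, inferInstance, inferInstance,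
      fun c x y => hRs c.1 c.2 x y,
      fun c x => LinearMap.congr_fun (hRJ c.1 c.2).symm.eq x,
      fun c x => LinearMap.congr_fun (hRJ' c.1 c.2).symm.eq x,
      k, ⟨c, Algebra.self_mem_adjoin_singleton F c⟩, fun x => rfl, ?_⟩
    intro h01
    have h1 : ∃ a : F, c = algebraMap F _ a := by
      rcases h01 with h | h
      · exact ⟨0, by rw [map_zero]; exact congrArg Subtype.val h⟩
      · exact ⟨1, by rw [map_one]; exact congrArg Subtype.val h⟩
    obtain ⟨a0, ha0⟩ := h1
    have h2 : ∀ r ∈ R, ∃ a : F, algebraMap F (Module.End F V) a = r := by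
      intro r hr
      induction hr using Algebra.adjoin_induction with
      | mem x hx => rw [Set.mem_singleton_iff.1 hx]; exact ⟨a0, ha0.symm⟩
      | algebraMap a => exact ⟨a, rfl⟩
      | add a b _ _ ha hb =>
        obtain ⟨s, rfl⟩ := ha
        obtain ⟨t, rfl⟩ := hb
        exact ⟨s + t, map_add _ _ _⟩
      | mul a b _ _ ha hb =>
        obtain ⟨s, rfl⟩ := ha
        obtain ⟨t, rfl⟩ := hb
        exact ⟨s * t, map_mul _ _ _⟩
    intro r
    obtain ⟨a, ha⟩ := h2 r.1 r.2
    exact ⟨a, Subtype.ext ha⟩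


/-- regularity of a pair -/
def Reg {F V : Type*} [Field F] [AddCommGroup V] [Module F V] (J J' : V →ₗ[F] V) (e : F) : Prop :=
  (∀ t : F, t ^ 2 + t ≠ e) ∨ (∀ x, J x + J' x = 0 → x = 0) ∧ ∀ x, J x + J' x = x → x = 0

theorem global_core' {F : Type*} [Field F] [CharP F 2] [Finite F] {e : F} :
    ∀ (n : ℕ) (V : Type*) [AddCommGroup V] [Module F V]
    [FiniteDimensional F V] [Nontrivial V] (S : QSp F V) (J J' : V →ₗ[F] V),
    finrank F V = n → Reg J J' e → Pair S J J' e → Comm S J J' ∨ HalfJ S J := by
  intro n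
  induction n using Nat.strong_induction_on with
  | _ n ih =>
    intro V _ _ _ _ S J J' hn hreg P
    subst hn
    rcases pair_cases P with ⟨f, hf, hs, hfJ, hfJ', h0, h1⟩ |
      ⟨R, _, _, _, _, _, hRs, hRJ, hRJ', k, c0, hc0, hgen⟩
    · refine split_case P f hf hs hfJ hfJ' h0 h1 ?_
      intro W T K K' hlt hnt hK hK' PT
      refine ih _ hlt W T K K' rfl ?_ PT
      rcases hreg with h | ⟨h2, h3⟩
      · exact Or.inl h
      · right
        constructor
        · intro x hx
          apply Subtype.ext
          apply h2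
          rw [← hK, ← hK']
          exact congrArg Subtype.val hx
        · intro x hx
          apply Subtype.ext
          apply h3
          rw [← hK, ← hK']
          exact congrArg Subtype.val hx
    · refine field_case P hRs hRJ hRJ' k c0 hc0 fun h01 => ⟨hgen h01, ?_⟩
      rcases hreg with h | ⟨h2, h3⟩
      · exact h
      · exfalso
        obtain ⟨x, hx⟩ := exists_ne (0 : V)
        rcases h01 with h0 | h1
        · have h4 : ∀ (j : ℕ) x, ((J + J') ^ j) x = 0 → x = 0 := by
            intro j
            induction j with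
            | zero => intro x hx; exact hx
            | succ j ihj =>
              intro x hx
              rw [pow_app_succ] at hx
              exact h2 _ (ihj _ hx)
          apply hx
          apply h4 (2 ^ k)
          rw [hc0, h0, zero_smul]
        · have h4 : ∀ (j : ℕ) x, ((J + J' + LinearMap.id : V →ₗ[F] V) ^ j) x = 0 → x = 0 := by
            intro j
            induction j with
            | zero => intro x hx; exact hx
            | succ j ihj =>
              intro x hx
              rw [pow_app_succ] at hx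
              have h5 := ihj _ hx
              exact h3 _ (eq_of_add_eq_zeroV F h5)
          apply hx
          apply h4 (2 ^ k)
          haveI : CharP (Module.End F V) 2 :=
            charP_of_injective_algebraMap (algebraMap F (Module.End F V)).injective 2
          have h5 : ((J + J' + LinearMap.id : V →ₗ[F] V) ^ (2 ^ k)) =
              (J + J') ^ (2 ^ k) + (LinearMap.id) ^ (2 ^ k) :=
            add_pow_char_pow_of_commute 2 _ (Commute.one_right _)
          have h6 : ((LinearMap.id : V →ₗ[F] V) ^ (2 ^ k)) = LinearMap.id := one_pow _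
          rw [h5, LinearMap.add_apply, hc0, h1, one_smul, h6]
          exact add_selfV F x

theorem global_core {F : Type*} [Field F] [CharP F 2] [Finite F] {e : F}
    (hK : ∀ t : F, t ^ 2 + t ≠ e) (n : ℕ) (V : Type*) [AddCommGroup V] [Module F V]
    [FiniteDimensional F V] [Nontrivial V] (S : QSp F V) (J J' : V →ₗ[F] V)
    (hn : finrank F V = n) (P : Pair S J J' e) : Comm S J J' ∨ Half S := by
  rcases global_core' n V S J J' hn (Or.inl hK) P with h | h
  · exact Or.inl h
  · exact Or.inr h.half

end Pool.Agent.OmegaEven
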