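import Mathlib
import Pool.Agent.OmegaEven.Global2

set_option autoImplicit false
set_option linter.unusedSectionVars false
set_option linter.unusedVariables false
set_option linter.unnecessarySeqFocus false
set_option linter.style.haveILetI false
set_option linter.unusedSimpArgs false

namespace Pool.Agent.OmegaEven

open Module Polynomial

theorem exists_root_of_even {F L : Type*} [Field F] [CharP F 2] [Finite F] [Field L] [Finite L]
    [Algebra F L] (hL : Even (finrank F L)) {e : F} (hK : ∀ t : F, t ^ 2 + t ≠ e) :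
    ∃ t : L, t ^ 2 + t = algebraMap F L e := by
  set f : F[X] := X ^ 2 + X + C e with hf
  have hdeg : f.natDegree = 2 := by
    rw [hf]; compute_degree!
  have hirr : Irreducible f := by
    apply Polynomial.irreducible_of_degree_le_three_of_not_isRoot
    · rw [hdeg]; decide
    · intro t ht
      have h1 : t ^ 2 + t + e = 0 := by
        have := ht
        rw [IsRoot.def, hf] at this
        simpa using this
      apply hK t
      linear_combination (norm := (ring_nf; reduce_mod_char!)) h1
  haveI : Fact (Irreducible f) := ⟨hirr⟩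
  have h1 : finrank F (AdjoinRoot f) = 2 := by
    rw [(AdjoinRoot.powerBasis hirr.ne_zero).finrank, AdjoinRoot.powerBasis_dim, hdeg]
  obtain ⟨φ⟩ := FiniteField.nonempty_algHom_of_finrank_dvd (F := F) (K := AdjoinRoot f) (L := L)
    (by rw [h1]; exact hL.two_dvd)
  have h2 : aeval (AdjoinRoot.root f) f = 0 := by
    rw [AdjoinRoot.aeval_eq, AdjoinRoot.mk_self]
  have h3 : aeval (φ (AdjoinRoot.root f)) f = 0 := by
    rw [aeval_algHom_apply, h2, map_zero]
  refine ⟨φ (AdjoinRoot.root f), ?_⟩
  generalize φ (AdjoinRoot.root f) = r at h3 ⊢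
  haveI : CharP L 2 := charP_of_injective_algebraMap (algebraMap F L).injective 2
  rw [hf] at h3
  simp only [map_add, map_pow, aeval_X, aeval_C] at h3
  linear_combination (norm := (ring_nf; reduce_mod_char!)) h3


/-- a subalgebra generated by one element, all of whose nonzero elements are injective -/
theorem isField_adjoin {F X : Type*} [Field F] [CharP F 2] [Finite F] [AddCommGroup X] [Module F X]
    [FiniteDimensional F X] [Nontrivial X] (c : Module.End F X)
    (hinj : ∀ r ∈ Algebra.adjoin F {c}, r ≠ 0 → ∀ x, r x = 0 → x = 0) :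
    IsField (Algebra.adjoin F {c}) := by
  have hRc : ∀ r ∈ Algebra.adjoin F {c}, Commute r c := by
    intro r hr
    induction hr using Algebra.adjoin_induction with
    | mem x hx => rw [Set.mem_singleton_iff.1 hx]
    | algebraMap a => exact Algebra.commutes a c
    | add a b _ _ ha hb => exact ha.add_left hb
    | mul a b _ _ ha hb => exact ha.mul_left hb
  have hRR : ∀ r ∈ Algebra.adjoin F {c}, ∀ s ∈ Algebra.adjoin F {c}, Commute r s := by
    intro r hr s hs
    induction hs using Algebra.adjoin_induction with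
    | mem x hx => rw [Set.mem_singleton_iff.1 hx]; exact hRc r hr
    | algebraMap a => exact (Algebra.commutes a r).symm
    | add a b _ _ ha hb => exact ha.add_right hb
    | mul a b _ _ ha hb => exact ha.mul_right hb
  haveI : Finite (Module.End F X) := Module.finite_of_finite F
  refine ⟨⟨0, 1, ?_⟩, ?_, ?_⟩
  · intro h
    have h1 : (0 : Module.End F X) = 1 := congrArg Subtype.val h
    exact zero_ne_one h1
  · intro a b
    exact Subtype.ext (hRR a.1 a.2 b.1 b.2).eq
  · intro a ha
    obtain ⟨m, hm, h1⟩ := exists_pow_idem a.1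
    have ha' : a.1 ≠ 0 := fun h => ha (Subtype.ext h)
    have hi : ∀ k : ℕ, ∀ x, (a.1 ^ k) x = 0 → x = 0 := by
      intro k
      induction k with
      | zero => intro x hx; exact hx
      | succ k ih =>
        intro x hx
        rw [pow_app_succ] at hx
        exact hinj a.1 a.2 ha' _ (ih _ hx)
    have h4 : a.1 ^ m = 1 := by
      ext x
      have h5 : (a.1 ^ m) ((a.1 ^ m) x - x) = 0 := by
        rw [map_sub, sub_eq_zero]
        exact LinearMap.congr_fun h1 x
      exact sub_eq_zero.1 (hi m _ h5)
    refine ⟨a ^ (m - 1), Subtype.ext ?_⟩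
    change a.1 * a.1 ^ (m - 1) = 1
    rw [← pow_succ', Nat.sub_add_cancel hm, h4]

/-- the structure of an irreducible isometry -/
theorem irr_struct.{u, v} {F : Type v} {X : Type u} [Field F] [CharP F 2] [Finite F] [AddCommGroup X]
    [Module F X] [FiniteDimensional F X] (S : QSp F X) (s : X →ₗ[F] X)
    (hs : ∀ x, S.Q (s x) = S.Q x)
    (hirr : ∀ Y : Submodule F X, (∀ y ∈ Y, s y ∈ Y) → Y = ⊥ ∨ Y = ⊤)
    (h2 : 2 ≤ finrank F X) :
    ∃ (L : Type u) (_ : Field L) (_ : Finite L) (_ : Algebra F L) (_ : Module L X)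
      (_ : IsScalarTower F L X), finrank L X = 2 ∧
      (∀ (c : L) x y, S.B (c • x) y = S.B x (c • y)) ∧
      (∀ (c : L) x, s (c • x) = c • s x) ∧
      (∀ x, x ≠ 0 → ∃ c : L, S.Q (c • x) ≠ 0) := by
  haveI : Nontrivial X := by
    apply Module.nontrivial_of_finrank_pos (R := F); omega
  -- the inverse of `s`
  have hsB : ∀ x y, S.B (s x) (s y) = S.B x y := by
    intro x y
    have h1 := S.add (s x) (s y)
    rw [← map_add, hs, hs, hs, S.add] at h1
    exact (add_left_cancel h1).symm
  have hsinj : Function.Injective s := by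
    rw [injective_iff_map_eq_zero]
    intro x hx
    apply S.nd
    intro y
    rw [← hsB, hx, map_zero, LinearMap.zero_apply]
  obtain ⟨t, hst, hts⟩ : ∃ t : X →ₗ[F] X, (∀ x, s (t x) = x) ∧ ∀ x, t (s x) = x := by
    let es := LinearEquiv.ofInjectiveEndo s hsinj
    exact ⟨es.symm.toLinearMap, fun x => es.apply_symm_apply x, fun x => es.symm_apply_apply x⟩
  set τ : Module.End F X := s + t with hτ
  have hτa : ∀ x, τ x = s x + t x := fun x => rfl
  have hadj_s : ∀ x y, S.B (s x) y = S.B x (t y) := by
    intro x y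
    rw [← hsB x (t y), hst]
  have hadj_t : ∀ x y, S.B (t x) y = S.B x (s y) := by
    intro x y
    rw [S.symm, ← hadj_s, S.symm]
  -- maps commuting with `s`
  have hcomm_inj : ∀ r : Module.End F X, (∀ x, r (s x) = s (r x)) → r ≠ 0 →
      ∀ x, r x = 0 → x = 0 := by
    intro r hr hr0 x hx
    rcases hirr (LinearMap.ker r) (by
      intro y hy
      rw [LinearMap.mem_ker] at hy ⊢
      rw [hr, hy, map_zero]) with h | h
    · have : x ∈ LinearMap.ker r := hx
      rw [h] at this
      exact (Submodule.mem_bot F).1 this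
    · exact absurd (LinearMap.ker_eq_top.1 h) hr0
  have hcomm : ∀ r ∈ Algebra.adjoin F {τ}, ∀ x, r (s x) = s (r x) := by
    intro r hr
    induction hr using Algebra.adjoin_induction with
    | mem x hx =>
      rw [Set.mem_singleton_iff.1 hx]
      intro y
      rw [hτa, hτa, map_add, hts, hst]
    | algebraMap a =>
      intro y
      change a • s y = s (a • y)
      rw [map_smul]
    | add a b _ _ ha hb =>
      intro y
      rw [LinearMap.add_apply, LinearMap.add_apply, map_add, ha, hb]
    | mul a b _ _ ha hb =>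
      intro y
      change a (b (s y)) = s (a (b y))
      rw [hb, ha]
  have hf : IsField (Algebra.adjoin F {τ}) :=
    isField_adjoin τ fun r hr hr0 => hcomm_inj r (hcomm r hr) hr0
  have hadj : ∀ r ∈ Algebra.adjoin F {τ}, ∀ x y, S.B (r x) y = S.B x (r y) := by
    intro r hr
    induction hr using Algebra.adjoin_induction with
    | mem x hx =>
      rw [Set.mem_singleton_iff.1 hx]
      intro x y
      rw [hτa, hτa, map_add, map_add, LinearMap.add_apply, hadj_s, hadj_t, add_comm]
    | algebraMap a =>
      intro x y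
      change S.B (a • x) y = S.B x (a • y)
      rw [map_smul, map_smul, LinearMap.smul_apply]
    | add a b _ _ ha hb =>
      intro x y
      rw [LinearMap.add_apply, LinearMap.add_apply, map_add, map_add, LinearMap.add_apply, ha, hb]
    | mul a b ha' hb' ha hb =>
      intro x y
      have : (a * b) y = (b * a) y := by
        have := hf.mul_comm ⟨a, ha'⟩ ⟨b, hb'⟩
        have h3 : a * b = b * a := congrArg Subtype.val this
        rw [h3]
      rw [this]
      change S.B (a (b x)) y = S.B x (b (a y))
      rw [ha, hb]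
  -- `s` is not the identity and not in `L`
  have hs1 : s ≠ LinearMap.id := by
    intro h
    obtain ⟨x, hx⟩ := exists_ne (0 : X)
    rcases hirr (F ∙ x) (by
      intro y hy
      rw [h]; exact hy) with h1 | h1
    · rw [Submodule.span_singleton_eq_bot] at h1
      exact hx h1
    · have h3 := finrank_span_singleton (K := F) hx
      rw [h1, finrank_top] at h3
      omega
  have hss : ∃ x, s (s x) ≠ x := by
    by_contra hcon
    push Not at hcon
    have h3 : ∀ x, s x + x = 0 := by
      obtain ⟨x, hx⟩ := exists_ne (0 : X)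
      by_contra hne
      have hr0 : (s + LinearMap.id : X →ₗ[F] X) ≠ 0 := by
        intro h
        apply hne
        intro x
        exact LinearMap.congr_fun h x
      have h4 := hcomm_inj (s + LinearMap.id) (by
        intro x
        change s (s x) + s x = s (s x + x)
        rw [map_add]) hr0
      apply hx
      apply h4
      change s x + x = 0
      apply h4
      change s (s x + x) + (s x + x) = 0
      rw [map_add, hcon, add_comm (s x) x]
      exact add_selfV F _
    apply hs1
    ext x
    exact eq_of_add_eq_zeroV F (h3 x)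
  have hnotL : ∀ r ∈ Algebra.adjoin F {τ}, ∀ x, x ≠ 0 → s x ≠ r x := by
    intro r hr x hx h
    have h3 : s = r := by
      by_contra hne
      have h4 := hcomm_inj (s - r) (by
        intro y
        rw [LinearMap.sub_apply, LinearMap.sub_apply, map_sub, hcomm r hr]) (sub_ne_zero.2 hne) x
      apply hx
      apply h4
      rw [LinearMap.sub_apply, h, sub_self]
    obtain ⟨z, hz⟩ := hss
    apply hz
    have h5 : ∀ y, S.B (s (s z)) y = S.B z y := by
      intro y
      have h6 := hadj r hr (s z) y
      rw [← h3] at h6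
      rw [h6, hsB]
    rw [← sub_eq_zero]
    apply S.nd
    intro y
    rw [map_sub, LinearMap.sub_apply, h5, sub_self]
  have hspan : ∀ x, x ≠ 0 → ∀ y, ∃ a ∈ Algebra.adjoin F {τ}, ∃ b ∈ Algebra.adjoin F {τ},
      y = a x + b (s x) := by
    intro x hx
    let Y : Submodule F X :=
      { carrier := {y | ∃ a ∈ Algebra.adjoin F {τ}, ∃ b ∈ Algebra.adjoin F {τ},
          y = a x + b (s x)}
        add_mem' := by
          rintro _ _ ⟨a, ha, b, hb, rfl⟩ ⟨a', ha', b', hb', rfl⟩
          refine ⟨a + a', Subalgebra.add_mem _ ha ha', b + b', Subalgebra.add_mem _ hb hb', ?_⟩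
          rw [LinearMap.add_apply, LinearMap.add_apply]; abel
        zero_mem' := ⟨0, Subalgebra.zero_mem _, 0, Subalgebra.zero_mem _, by simp⟩
        smul_mem' := by
          rintro c _ ⟨a, ha, b, hb, rfl⟩
          refine ⟨c • a, Subalgebra.smul_mem _ ha c, c • b, Subalgebra.smul_mem _ hb c, ?_⟩
          rw [LinearMap.smul_apply, LinearMap.smul_apply, smul_add] }
    have hτmem : τ ∈ Algebra.adjoin F {τ} := Algebra.self_mem_adjoin_singleton F τ
    rcases hirr Y (by
      rintro _ ⟨a, ha, b, hb, rfl⟩
      refine ⟨b, hb, a + b * τ, Subalgebra.add_mem _ ha (Subalgebra.mul_mem _ hb hτmem), ?_⟩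
      rw [map_add, ← hcomm a ha, ← hcomm b hb, LinearMap.add_apply]
      have h3 : (b * τ) (s x) = b (s (s x)) + b x := by
        change b (τ (s x)) = _
        rw [hτa, hts, map_add]
      rw [h3]
      have h4 := add_selfV F (b x)
      linear_combination (norm := module) -(h4)) with h | h
    · exfalso
      have h3 : x ∈ Y := ⟨1, Subalgebra.one_mem _, 0, Subalgebra.zero_mem _, by simp⟩
      rw [h] at h3
      exact hx ((Submodule.mem_bot F).1 h3)
    · intro y
      have h3 : y ∈ Y := by rw [h]; trivial
      exact h3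
  haveI : Finite (Module.End F X) := Module.finite_of_finite F
  letI : Field (Algebra.adjoin F {τ}) := hf.toField
  haveI : CharP (Algebra.adjoin F {τ}) 2 :=
    charP_of_injective_algebraMap (algebraMap F (Algebra.adjoin F {τ})).injective 2
  haveI : PerfectRing (Algebra.adjoin F {τ}) 2 := inferInstance
  refine ⟨Algebra.adjoin F {τ}, inferInstance, inferInstance, inferInstance, inferInstance,
    inferInstance, ?_, fun c x y => hadj c.1 c.2 x y, fun c x => (hcomm c.1 c.2 x).symm, ?_⟩
  · obtain ⟨x, hx⟩ := exists_ne (0 : X)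
    have h3 : finrank (Algebra.adjoin F {τ})
        (Submodule.span (Algebra.adjoin F {τ}) ({x, s x} : Set X)) = 2 :=
      finrank_span_pair_of_ind hx (fun c => hnotL c.1 c.2 x hx)
    have h4 : Submodule.span (Algebra.adjoin F {τ}) ({x, s x} : Set X) = ⊤ := by
      rw [eq_top_iff]
      rintro y -
      obtain ⟨a, ha, b, hb, rfl⟩ := hspan x hx y
      rw [Submodule.mem_span_pair]
      exact ⟨⟨a, ha⟩, ⟨b, hb⟩, rfl⟩
    rw [h4, finrank_top] at h3
    exact h3
  · intro x hx
    by_contra hcon
    push Not at hcon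
    have hQ : ∀ c ∈ Algebra.adjoin F {τ}, S.Q (c x) = 0 := fun c hc => hcon ⟨c, hc⟩
    have hQs : ∀ c ∈ Algebra.adjoin F {τ}, S.Q (c (s x)) = 0 := by
      intro c hc
      rw [hcomm c hc, hs, hQ c hc]
    have hτmem : τ ∈ Algebra.adjoin F {τ} := Algebra.self_mem_adjoin_singleton F τ
    have hQss : ∀ c ∈ Algebra.adjoin F {τ}, S.B (c x) (c (τ (s x))) = 0 := by
      intro c hc
      have h3 : s (s x) = x + τ (s x) := by
        rw [hτa, hts]
        have h4 := add_selfV F x
        linear_combination (norm := module) -(h4)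
      have h4 : S.Q (c (s (s x))) = 0 := by
        rw [hcomm c hc, hcomm c hc, hs, hs, hQ c hc]
      have h5 : S.Q (c (τ (s x))) = 0 := hQs (c * τ) (Subalgebra.mul_mem _ hc hτmem)
      rw [h3, map_add, S.add, hQ c hc, h5] at h4
      simpa using h4
    have hτ0 : τ ≠ 0 := by
      intro h
      obtain ⟨z, hz⟩ := hss
      apply hz
      have h3 : τ (s z) = 0 := by rw [h]; rfl
      rw [hτa, hts] at h3
      exact eq_of_add_eq_zeroV F h3
    -- then `x` is orthogonal to everything
    apply hx
    apply S.nd
    intro y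
    obtain ⟨a, ha, b, hb, rfl⟩ := hspan x hx y
    have h1 : S.B x (a x) = 0 := by
      obtain ⟨u, hu⟩ : ∃ u : Algebra.adjoin F {τ}, u ^ 2 = ⟨a, ha⟩ := ⟨_, rt_sq _⟩
      have h3 : a = u.1 * u.1 := by
        rw [← sq]; exact (congrArg Subtype.val hu).symm
      rw [h3]
      change S.B x (u.1 (u.1 x)) = 0
      rw [← hadj u.1 u.2]
      exact S.self _
    have h2' : S.B x (b (s x)) = 0 := by
      have hτ0' : (⟨τ, hτmem⟩ : Algebra.adjoin F {τ}) ≠ 0 :=
        fun h => hτ0 (congrArg Subtype.val h)
      obtain ⟨u, hu⟩ : ∃ u : Algebra.adjoin F {τ},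
          u ^ 2 = ⟨b, hb⟩ * (⟨τ, hτmem⟩ : Algebra.adjoin F {τ})⁻¹ := ⟨_, rt_sq _⟩
      have h3 : (⟨b, hb⟩ : Algebra.adjoin F {τ}) = u * (u * ⟨τ, hτmem⟩) := by
        rw [← mul_assoc, ← sq, hu, mul_assoc, inv_mul_cancel₀ hτ0', mul_one]
      have h4 : b = u.1 * (u.1 * τ) := congrArg Subtype.val h3
      rw [h4]
      change S.B x (u.1 (u.1 (τ (s x)))) = 0
      rw [← hadj u.1 u.2]
      exact hQss u.1 u.2
    rw [map_add, h1, h2', add_zero]

end Pool.Agent.OmegaEven
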