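import Mathlib
import Pool.Agent.OmegaEven.Irr
import Pool.Agent.OmegaEven.Group3

set_option autoImplicit false
set_option linter.unusedSectionVars false
set_option linter.unusedVariables false
set_option linter.unnecessarySeqFocus false
set_option linter.style.haveILetI false
set_option linter.unusedSimpArgs false

namespace Pool.Agent.OmegaEven

open Module

/-- sums of two elements outside the image of `c^2+c` -/
theorem exists_as {K : Type*} [Field K] [CharP K 2] [Finite K] {r s : K}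
    (hr : ∀ c : K, c ^ 2 + c ≠ r) (hs : ∀ c : K, c ^ 2 + c ≠ s) : ∃ c : K, c ^ 2 + c = r + s := by
  let f : K →+ K :=
    { toFun := fun c => c ^ 2 + c
      map_zero' := by ring
      map_add' := fun a b => by
        linear_combination (norm := (ring_nf; reduce_mod_char!)) (0 : K) }
  have hker : Nat.card f.ker = 2 := by
    have h1 : (f.ker : Set K) = {0, 1} := by
      ext c
      rw [SetLike.mem_coe, AddMonoidHom.mem_ker]
      change c ^ 2 + c = 0 ↔ _
      rw [Set.mem_insert_iff, Set.mem_singleton_iff]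
      constructor
      · intro h
        have : c * (c - 1) = 0 := by
          linear_combination (norm := (ring_nf; reduce_mod_char!)) h
        rcases mul_eq_zero.1 this with h | h
        · exact Or.inl h
        · exact Or.inr (sub_eq_zero.1 h)
      · rintro (rfl | rfl)
        · ring
        · linear_combination (norm := (ring_nf; reduce_mod_char!)) (0 : K)
    have h2 : Nat.card (f.ker : Set K) = 2 := by
      rw [h1, Nat.card_coe_set_eq, Set.ncard_pair zero_ne_one]
    exact h2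
  have hidx : f.range.index = 2 := by
    have h1 := f.range.card_mul_index
    have h2 := AddSubgroup.card_eq_card_quotient_mul_card_addSubgroup f.ker
    have h3 : Nat.card (K ⧸ f.ker) = Nat.card f.range :=
      Nat.card_congr (QuotientAddGroup.quotientKerEquivRange f).toEquiv
    rw [h3, hker] at h2
    rw [h2] at h1
    have h4 : 0 < Nat.card f.range := Nat.card_pos
    exact Nat.eq_of_mul_eq_mul_left h4 h1
  have h5 := AddSubgroup.add_mem_iff_of_index_two hidx (a := r) (b := s)
  have hr' : r ∉ f.range := by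
    rintro ⟨c, hc⟩
    exact hr c hc
  have hs' : s ∉ f.range := by
    rintro ⟨c, hc⟩
    exact hs c hc
  obtain ⟨c, hc⟩ := h5.2 ⟨fun h => absurd h hr', fun h => absurd h hs'⟩
  exact ⟨c, hc⟩

theorem plane_basis {K Z : Type*} [Field K] [CharP K 2] [Finite K] [AddCommGroup Z] [Module K Z]
    [Nontrivial Z] (U : QSp K Z) (hU : ∀ x, U.Q x = 0 → x = 0) :
    ∃ x0 x1 : Z, U.Q x0 = 1 ∧ U.B x0 x1 = 1 ∧ ∀ c : K, c ^ 2 + c ≠ U.Q x1 := by
  obtain ⟨z, hz⟩ := exists_ne (0 : Z)
  have hQz : U.Q z ≠ 0 := fun h => hz (hU z h)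
  obtain ⟨x0, hx0⟩ : ∃ x0, U.Q x0 = 1 := by
    refine ⟨rt (U.Q z)⁻¹ • z, ?_⟩
    rw [U.smul, rt_sq, inv_mul_cancel₀ hQz]
  have hx00 : x0 ≠ 0 := by
    rintro rfl
    rw [U.Q_zero] at hx0
    exact zero_ne_one hx0
  obtain ⟨x1, hx1⟩ := U.exists_ne hx00
  have hx1' : U.B x0 x1 = 1 := by rw [U.symm]; exact hx1
  refine ⟨x0, x1, hx0, hx1', ?_⟩
  intro c hc
  have h1 : U.Q (x1 + c • x0) = 0 := by
    rw [U.add, U.smul, hx0, map_smul, smul_eq_mul, hx1, ← hc]
    linear_combination (norm := (ring_nf; reduce_mod_char!)) (0 : K)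
  have h2 := hU _ h1
  have h3 : U.B x0 (x1 + c • x0) = 0 := by rw [h2, map_zero]
  rw [map_add, map_smul, U.self, hx1'] at h3
  simp at h3

/-- anisotropic planes over a finite field are isometric -/
theorem iso_planes {K X Y : Type*} [Field K] [CharP K 2] [Finite K] [AddCommGroup X] [Module K X]
    [AddCommGroup Y] [Module K Y] (S : QSp K X) (T : QSp K Y) (hX : finrank K X = 2)
    (hY : finrank K Y = 2) (hS : ∀ x, S.Q x = 0 → x = 0) (hT : ∀ x, T.Q x = 0 → x = 0) :
    ∃ φ : X →ₗ[K] Y, ∀ x, T.Q (φ x) = S.Q x := by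
  haveI : FiniteDimensional K X := Module.finite_of_finrank_pos (by omega)
  haveI : Nontrivial X := Module.nontrivial_of_finrank_pos (R := K) (by omega)
  haveI : Nontrivial Y := Module.nontrivial_of_finrank_pos (R := K) (by omega)
  obtain ⟨x0, x1, hx0, hx01, hx1⟩ := plane_basis S hS
  obtain ⟨y0, y1, hy0, hy01, hy1⟩ := plane_basis T hT
  obtain ⟨c, hc⟩ := exists_as hx1 hy1
  refine ⟨(S.B.flip x1).smulRight y0 + (S.B.flip x0).smulRight (y1 + c • y0), fun x => ?_⟩
  have hx00 : x0 ≠ 0 := by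
    rintro rfl
    rw [S.Q_zero] at hx0
    exact zero_ne_one hx0
  have hind : ∀ d : K, x1 ≠ d • x0 := by
    intro d hd
    rw [hd, map_smul, S.self, smul_zero] at hx01
    exact zero_ne_one hx01
  have hspan : x ∈ Submodule.span K ({x0, x1} : Set X) := by
    have h1 := finrank_span_pair_of_ind hx00 hind
    have h2 : Submodule.span K ({x0, x1} : Set X) = ⊤ :=
      Submodule.eq_top_of_finrank_eq (by rw [h1, hX])
    rw [h2]; trivial
  rw [Submodule.mem_span_pair] at hspan
  obtain ⟨a, b, rfl⟩ := hspan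
  have hx10 : S.B x1 x0 = 1 := by rw [S.symm]; exact hx01
  have h1 : ((S.B.flip x1).smulRight y0 + (S.B.flip x0).smulRight (y1 + c • y0))
      (a • x0 + b • x1) = a • y0 + b • (y1 + c • y0) := by
    simp only [LinearMap.add_apply, LinearMap.smulRight_apply, LinearMap.flip_apply, map_add,
      map_smul, LinearMap.smul_apply, S.self, hx01, hx10, smul_eq_mul, mul_one, mul_zero, add_zero,
      zero_add, one_smul, zero_smul]
  have hy10 : T.B y1 y0 = 1 := by rw [T.symm]; exact hy01
  rw [h1, T.add, T.smul, T.smul, T.add, T.smul, S.add, S.smul, S.smul]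
  simp only [map_add, map_smul, LinearMap.add_apply, LinearMap.smul_apply, smul_eq_mul, T.self,
    hy01, hy10, hx01, hx0, hy0]
  linear_combination (norm := (ring_nf; reduce_mod_char!)) b ^ 2 * hc

/-- two spaces with irreducible isometries of the same dimension are isometric -/
theorem iso_irr.{u, v} {F : Type v} {X Y : Type u} [Field F] [CharP F 2] [Finite F]
    [AddCommGroup X] [Module F X] [FiniteDimensional F X] [AddCommGroup Y] [Module F Y]
    [FiniteDimensional F Y] (S : QSp F X) (T : QSp F Y) (s : X →ₗ[F] X) (t : Y →ₗ[F] Y)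
    (hs : ∀ x, S.Q (s x) = S.Q x) (ht : ∀ x, T.Q (t x) = T.Q x)
    (hsirr : ∀ Z : Submodule F X, (∀ y ∈ Z, s y ∈ Z) → Z = ⊥ ∨ Z = ⊤)
    (htirr : ∀ Z : Submodule F Y, (∀ y ∈ Z, t y ∈ Z) → Z = ⊥ ∨ Z = ⊤)
    (h2 : 2 ≤ finrank F X) (hXY : finrank F X = finrank F Y) :
    ∃ φ : X →ₗ[F] Y, ∀ x, T.Q (φ x) = S.Q x := by
  obtain ⟨K, _, _, _, _, _, hKX, hKB, -, hKQ⟩ := irr_struct S s hs hsirr h2
  obtain ⟨L, _, _, _, _, _, hLY, hLB, -, hLQ⟩ := irr_struct T t ht htirr (by omega)
  have h1 := finrank_mul_finrank F K X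
  have h3 := finrank_mul_finrank F L Y
  rw [hKX] at h1
  rw [hLY] at h3
  have hKL : finrank F K = finrank F L := by omega
  obtain ⟨φ⟩ := FiniteField.nonempty_algHom_of_finrank_dvd (F := F) (K := K) (L := L)
    (by rw [hKL])
  haveI : FiniteDimensional F K := inferInstance
  haveI : FiniteDimensional F L := inferInstance
  have hφ : Function.Surjective φ := by
    have h4 : Function.Injective φ.toLinearMap := φ.toRingHom.injective
    exact (LinearMap.injective_iff_surjective_of_finrank_eq_finrank hKL).1 h4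
  letI : Module K Y := Module.compHom Y φ.toRingHom
  have hsm : ∀ (c : K) (y : Y), c • y = φ c • y := fun c y => rfl
  haveI : IsScalarTower F K Y := ⟨fun a c y => by
    rw [hsm, hsm, map_smul, smul_assoc]⟩
  have hKY : finrank K Y = 2 := by
    have h4 := finrank_mul_finrank F K Y
    have h5 : 0 < finrank F K := finrank_pos
    have h6 : finrank F K * finrank K Y = finrank F K * 2 := by
      rw [h4, ← hXY, h1]
    exact Nat.eq_of_mul_eq_mul_left h5 h6
  haveI : CharP K 2 := charP_of_injective_algebraMap (algebraMap F K).injective 2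
  haveI : PerfectRing F 2 := inferInstance
  haveI : PerfectRing K 2 := inferInstance
  haveI : Algebra.IsSeparable F K := inferInstance
  obtain ⟨S', hSB, hSQ⟩ := transfer (R := K) S hKB
  obtain ⟨T', hTB, hTQ⟩ := transfer (R := K) T (fun c x y => hLB (φ c) x y)
  obtain ⟨ψ, hψ⟩ := iso_planes S' T' hKX hKY (by
    intro x hx
    by_contra hx0
    obtain ⟨c, hc⟩ := hKQ x hx0
    apply hc
    rw [← hSQ, hx, mul_zero, map_zero]) (by
    intro x hx
    by_contra hx0
    obtain ⟨c', hc'⟩ := hLQ x hx0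
    obtain ⟨c, rfl⟩ := hφ c'
    apply hc'
    rw [← hsm, ← hTQ, hx, mul_zero, map_zero])
  refine ⟨ψ.restrictScalars F, fun x => ?_⟩
  have h4 := hSQ x 1
  have h5 := hTQ (ψ x) 1
  rw [one_pow, one_mul, one_smul] at h4 h5
  rw [← h4, ← hψ, h5]
  rfl

/-- restriction of a form to a nondegenerate subspace -/
def QSp.sub {F V : Type*} [Field F] [CharP F 2] [AddCommGroup V] [Module F V] (S : QSp F V)
    (X : Submodule F V) (hX : X ⊓ S.perp X = ⊥) : QSp F X where
  Q x := S.Q x.1
  B := S.B.compl₁₂ X.subtype X.subtype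
  add x y := S.add x.1 y.1
  smul c x := S.smul c x.1
  nd := by
    intro x h
    have h1 : x.1 ∈ X ⊓ S.perp X := ⟨x.2, fun w hw => h ⟨w, hw⟩⟩
    rw [hX] at h1
    ext
    exact (Submodule.mem_bot F).1 h1

/-- the space is of plus type when it splits into two irreducible halves -/
theorem half_of_split {F V : Type*} [Field F] [CharP F 2] [Finite F] [AddCommGroup V]
    [Module F V] [FiniteDimensional F V] (S : QSp F V) (X : Submodule F V)
    (hX : X ⊓ S.perp X = ⊥) (s : V →ₗ[F] V) (hs : ∀ x, S.Q (s x) = S.Q x)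
    (hsX : ∀ x ∈ X, s x ∈ X) (hsY : ∀ x ∈ S.perp X, s x ∈ S.perp X)
    (hirX : ∀ Z : Submodule F V, Z ≤ X → (∀ y ∈ Z, s y ∈ Z) → Z = ⊥ ∨ Z = X)
    (hirY : ∀ Z : Submodule F V, Z ≤ S.perp X → (∀ y ∈ Z, s y ∈ Z) → Z = ⊥ ∨ Z = S.perp X)
    (h2 : 2 ≤ finrank F X) (hdim : finrank F X = finrank F (S.perp X)) : Half S := by
  have aux : ∀ W : Submodule F V, (hW : ∀ x ∈ W, s x ∈ W) →
      (∀ Z : Submodule F V, Z ≤ W → (∀ y ∈ Z, s y ∈ Z) → Z = ⊥ ∨ Z = W) →
      ∀ Z : Submodule F W, (∀ y ∈ Z, s.restrict hW y ∈ Z) → Z = ⊥ ∨ Z = ⊤ := by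
    intro W hW hir Z hZ
    rcases hir (Z.map W.subtype) (Submodule.map_subtype_le W Z) (by
      rintro _ ⟨z, hz, rfl⟩
      exact ⟨_, hZ z hz, rfl⟩) with h | h
    · left
      apply Submodule.map_injective_of_injective (Submodule.injective_subtype W)
      rw [h, Submodule.map_bot]
    · right
      rw [eq_top_iff]
      rintro ⟨x, hx⟩ -
      rw [← h] at hx
      obtain ⟨z, hz, hzx⟩ := hx
      have : z = ⟨x, hx⟩ := Subtype.ext hzx
      rw [← this]; exact hz
  have hY : S.perp X ⊓ S.perp (S.perp X) = ⊥ := by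
    rw [S.perp_perp, inf_comm]; exact hX
  obtain ⟨φ, hφ⟩ := iso_irr (S.sub X hX) (S.sub (S.perp X) hY) (s.restrict hsX) (s.restrict hsY)
    (fun x => hs x.1) (fun x => hs x.1) (aux X hsX hirX) (aux _ hsY hirY) h2 hdim
  have hφ' : ∀ x : X, S.Q (φ x).1 = S.Q x.1 := hφ
  let ψ : X →ₗ[F] V := X.subtype + (S.perp X).subtype ∘ₗ φ
  have hψ : ∀ x : X, ψ x = x.1 + (φ x).1 := fun x => rfl
  have hinj : Function.Injective ψ := by
    rw [injective_iff_map_eq_zero]
    intro x hx
    rw [hψ] at hx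
    have h3 := eq_of_add_eq_zeroV F hx
    have h4 : x.1 ∈ X ⊓ S.perp X := ⟨x.2, by rw [h3]; exact (φ x).2⟩
    rw [hX] at h4
    ext
    exact (Submodule.mem_bot F).1 h4
  refine ⟨LinearMap.range ψ, ?_, ?_⟩
  · rintro _ ⟨x, rfl⟩
    rw [hψ, S.add, hφ', S.symm, (φ x).2 x.1 x.2, add_zero, CharTwo.add_self_eq_zero]
  · rw [LinearMap.finrank_range_of_inj hinj]
    have := S.finrank_perp X
    omega

end Pool.Agent.OmegaEven
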