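import Mathlib
import Pool.Agent.OmegaEven.Half

set_option autoImplicit false
set_option linter.unusedSectionVars false
set_option linter.unusedVariables false
set_option linter.unnecessarySeqFocus false
set_option linter.style.haveILetI false
set_option linter.unusedSimpArgs false

namespace Pool.Agent.OmegaEven

open Module

/-- counting singular vectors in a space of plus type -/
theorem card_plus {F X : Type*} [Field F] [CharP F 2] [Fintype F] [AddCommGroup X] [Module F X]
    [Fintype X] [DecidableEq F] [DecidableEq X] (S : QSp F X) (k : ℕ) (hk : 0 < k)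
    (hX : finrank F X = 2 * k) (U : Submodule F X) (hU : ∀ x ∈ U, S.Q x = 0)
    (hUk : finrank F U = k) :
    (Finset.univ.filter (fun x : X => x ≠ 0 ∧ S.Q x = 0)).card =
      (Fintype.card F ^ k - 1) * (Fintype.card F ^ (k - 1) + 1) := by
  classical
  haveI : FiniteDimensional F X := Module.finite_of_finrank_pos (by omega)
  set q := Fintype.card F with hq
  have hq1 : 1 < q := Fintype.one_lt_card
  have cU : Fintype.card U = q ^ k := by rw [Module.card_eq_pow_finrank (K := F), hUk]
  have cX : Fintype.card X = q ^ (2 * k) := by rw [Module.card_eq_pow_finrank (K := F), hX]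
  have hperp : S.perp U = U := by
    symm
    apply Submodule.eq_of_le_of_finrank_eq
    · intro x hx w hw
      have h1 := S.add x w
      rw [hU x hx, hU w hw, hU _ (U.add_mem hx hw)] at h1
      simpa using h1.symm
    · have := S.finrank_perp U
      omega
  -- the inner count
  have hin : ∀ x : X, x ∉ U →
      (Finset.univ.filter (fun u : U => S.Q (x + u.1) = 0)).card = q ^ (k - 1) := by
    intro x hx
    let φ : U →ₗ[F] F := (S.B x).domRestrict U
    have hφ : ∀ u : U, φ u = S.B x u.1 := fun u => rfl
    have hne : ∃ u : U, φ u ≠ 0 := by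
      by_contra hcon
      push Not at hcon
      apply hx
      rw [← hperp]
      intro w hw
      exact hcon ⟨w, hw⟩
    obtain ⟨u0, hu0⟩ := hne
    have hrange : finrank F (LinearMap.range φ) = 1 := by
      have h1 : finrank F (LinearMap.range φ) ≤ 1 := by
        have := Submodule.finrank_le (LinearMap.range φ)
        rwa [finrank_self] at this
      have h2 : 0 < finrank F (LinearMap.range φ) := by
        rw [finrank_pos_iff]
        exact ⟨⟨⟨φ u0, u0, rfl⟩, 0, fun h => hu0 (congrArg Subtype.val h)⟩⟩
      omega
    have hker := LinearMap.finrank_range_add_finrank_ker φ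
    rw [hrange, hUk] at hker
    have cker : Fintype.card (LinearMap.ker φ) = q ^ (k - 1) := by
      rw [Module.card_eq_pow_finrank (K := F)]
      congr 1
      omega
    obtain ⟨u1, hu1⟩ : ∃ u1 : U, φ u1 = S.Q x := by
      refine ⟨(S.Q x * (φ u0)⁻¹) • u0, ?_⟩
      rw [map_smul, smul_eq_mul, mul_assoc, inv_mul_cancel₀ hu0, mul_one]
    rw [← cker, Fintype.card_subtype]
    refine Finset.card_bij (fun u _ => u + u1) ?_ ?_ ?_
    · intro u hu
      rw [Finset.mem_filter] at hu ⊢
      refine ⟨Finset.mem_univ _, ?_⟩
      have h1 := hu.2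
      rw [S.add, hU u.1 u.2, add_zero] at h1
      have h2 : φ u = S.Q x := by
        rw [hφ]
        linear_combination (norm := (ring_nf; reduce_mod_char!)) h1
      rw [LinearMap.mem_ker, map_add, h2, hu1, CharTwo.add_self_eq_zero]
    · intro a _ b _ hab
      exact add_right_cancel hab
    · intro u hu
      rw [Finset.mem_filter, LinearMap.mem_ker] at hu
      refine ⟨u + u1, ?_, ?_⟩
      · rw [Finset.mem_filter]
        refine ⟨Finset.mem_univ _, ?_⟩
        have h2 : S.B x (u + u1).1 = S.Q x := by
          rw [← hφ, map_add, hu.2, hu1, zero_add]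
        rw [S.add, hU _ (u + u1).2, h2, add_zero, CharTwo.add_self_eq_zero]
      · rw [add_assoc, add_selfV F, add_zero]
  -- double counting
  set Z := Finset.univ.filter (fun x : X => x ∉ U ∧ S.Q x = 0) with hZ
  have hdc : Z.card * q ^ k = (q ^ (2 * k) - q ^ k) * q ^ (k - 1) := by
    have h1 : ∑ x ∈ Finset.univ.filter (fun x : X => x ∉ U),
        (Finset.univ.filter (fun u : U => S.Q (x + u.1) = 0)).card =
        (q ^ (2 * k) - q ^ k) * q ^ (k - 1) := by
      rw [Finset.sum_congr rfl (fun x hx => hin x (Finset.mem_filter.1 hx).2), Finset.sum_const,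
        smul_eq_mul]
      congr 1
      have h2 := Finset.card_filter_add_card_filter_not (s := (Finset.univ : Finset X))
        (fun x => x ∈ U)
      have h3 : (Finset.univ.filter (fun x : X => x ∈ U)).card = q ^ k := by
        rw [← cU, Fintype.card_subtype]
      rw [h3, Finset.card_univ, cX] at h2
      omega
    have h2 : ∑ x ∈ Finset.univ.filter (fun x : X => x ∉ U),
        (Finset.univ.filter (fun u : U => S.Q (x + u.1) = 0)).card =
        ∑ u : U, (Finset.univ.filter (fun x : X => x ∉ U ∧ S.Q (x + u.1) = 0)).card := by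
      simp_rw [Finset.card_filter]
      rw [Finset.sum_comm]
      refine Finset.sum_congr rfl fun u _ => ?_
      rw [Finset.sum_filter]
      refine Finset.sum_congr rfl fun x _ => ?_
      by_cases hx : x ∈ U
      · simp [hx]
      · simp [hx]
    have h3 : ∀ u : U, (Finset.univ.filter (fun x : X => x ∉ U ∧ S.Q (x + u.1) = 0)).card =
        Z.card := by
      intro u
      refine Finset.card_bij (fun x _ => x + u.1) ?_ ?_ ?_
      · intro x hx
        rw [Finset.mem_filter] at hx
        rw [hZ, Finset.mem_filter]
        refine ⟨Finset.mem_univ _, fun h => hx.2.1 ?_, hx.2.2⟩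
        exact (U.add_mem_iff_left u.2).1 h
      · intro a _ b _ hab
        exact add_right_cancel hab
      · intro y hy
        rw [hZ, Finset.mem_filter] at hy
        refine ⟨y + u.1, ?_, ?_⟩
        · rw [Finset.mem_filter]
          refine ⟨Finset.mem_univ _, fun h => hy.2.1 ((U.add_mem_iff_left u.2).1 h), ?_⟩
          rw [add_assoc, add_selfV F, add_zero]
          exact hy.2.2
        · rw [add_assoc, add_selfV F, add_zero]
    rw [← h1, h2, Finset.sum_congr rfl (fun u _ => h3 u), Finset.sum_const, smul_eq_mul,
      Finset.card_univ, cU, mul_comm]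
  have hZc : Z.card = (q ^ k - 1) * q ^ (k - 1) := by
    have h1 : q ^ (2 * k) - q ^ k = q ^ k * (q ^ k - 1) := by
      rw [Nat.mul_sub, mul_one, ← pow_add, two_mul]
    have h2 : q ^ k ≠ 0 := by positivity
    apply Nat.eq_of_mul_eq_mul_right (Nat.pos_of_ne_zero h2)
    rw [hdc, h1]
    ring
  have hsplit : (Finset.univ.filter (fun x : X => x ≠ 0 ∧ S.Q x = 0)).card =
      (Finset.univ.filter (fun x : X => x ∈ U ∧ x ≠ 0)).card + Z.card := by
    rw [hZ, ← Finset.card_union_of_disjoint]
    · congr 1
      ext x
      simp only [Finset.mem_filter, Finset.mem_univ, true_and, Finset.mem_union]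
      constructor
      · rintro ⟨h1, h2⟩
        by_cases hx : x ∈ U
        · exact Or.inl ⟨hx, h1⟩
        · exact Or.inr ⟨hx, h2⟩
      · rintro (⟨h1, h2⟩ | ⟨h1, h2⟩)
        · exact ⟨h2, hU x h1⟩
        · refine ⟨?_, h2⟩
          rintro rfl
          exact h1 U.zero_mem
    · rw [Finset.disjoint_filter]
      rintro x - ⟨h1, -⟩ ⟨h2, -⟩
      exact h2 h1
  have hU0 : (Finset.univ.filter (fun x : X => x ∈ U ∧ x ≠ 0)).card = q ^ k - 1 := by
    have h1 : (Finset.univ.filter (fun x : X => x ∈ U ∧ x ≠ 0)) =
        (Finset.univ.filter (fun x : X => x ∈ U)).erase 0 := by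
      ext x
      simp only [Finset.mem_filter, Finset.mem_univ, true_and, Finset.mem_erase]
      tauto
    rw [h1, Finset.card_erase_of_mem (by simp)]
    congr 1
    rw [← cU, Fintype.card_subtype]
  rw [hsplit, hU0, hZc]
  ring

/-- counting singular vectors of the trace of an anisotropic plane -/
theorem card_aniso {F K X : Type*} [Field F] [CharP F 2] [Fintype F] [Field K] [Fintype K]
    [Algebra F K] [CharP K 2] [PerfectRing K 2] [AddCommGroup X] [Module F X] [Module K X]
    [Fintype X] [DecidableEq F] [DecidableEq X] [DecidableEq K] (S : QSp F X) (T : QSp K X)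
    (hT : ∀ x, T.Q x = 0 → x = 0) (hS : ∀ x, S.Q x = Algebra.trace F K (T.Q x))
    (hX : finrank K X = 2) :
    (Fintype.card K + 1) ∣ (Finset.univ.filter (fun x : X => x ≠ 0 ∧ S.Q x = 0)).card := by
  classical
  haveI : FiniteDimensional K X := Module.finite_of_finrank_pos (by omega)
  have cX : Fintype.card X = Fintype.card K ^ 2 := by
    rw [Module.card_eq_pow_finrank (K := K), hX]
  have hfib : ∀ c : K, c ≠ 0 → (Finset.univ.filter (fun x : X => T.Q x = c)).card =
      (Finset.univ.filter (fun x : X => T.Q x = 1)).card := by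
    intro c hc
    have hr : (rt c) ^ 2 = c := rt_sq c
    have hr0 : rt c ≠ 0 := by
      intro h
      rw [h] at hr
      apply hc
      rw [← hr]; ring
    refine Finset.card_bij (fun x _ => (rt c)⁻¹ • x) ?_ ?_ ?_
    · intro x hx
      rw [Finset.mem_filter] at hx ⊢
      refine ⟨Finset.mem_univ _, ?_⟩
      rw [T.smul, hx.2, inv_pow, hr, inv_mul_cancel₀ hc]
    · intro a _ b _ hab
      exact smul_right_injective X (inv_ne_zero hr0) hab
    · intro y hy
      rw [Finset.mem_filter] at hy
      refine ⟨rt c • y, ?_, ?_⟩
      · rw [Finset.mem_filter]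
        refine ⟨Finset.mem_univ _, ?_⟩
        rw [T.smul, hy.2, hr, mul_one]
      · rw [smul_smul, inv_mul_cancel₀ hr0, one_smul]
  set n1 := (Finset.univ.filter (fun x : X => T.Q x = 1)).card with hn1
  -- total count
  have htot : Fintype.card K ^ 2 - 1 = (Fintype.card K - 1) * n1 := by
    have h1 : (Finset.univ.filter (fun x : X => x ≠ 0)).card =
        ∑ c ∈ Finset.univ.filter (fun c : K => c ≠ 0),
          ((Finset.univ.filter (fun x : X => x ≠ 0)).filter (fun x => T.Q x = c)).card := by
      apply Finset.card_eq_sum_card_fiberwise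
      intro x hx
      simp only [Finset.coe_filter, Finset.mem_univ, true_and, Set.mem_setOf_eq] at hx ⊢
      exact fun h => hx (hT x h)
    have h2 : ∀ c ∈ Finset.univ.filter (fun c : K => c ≠ 0),
        ((Finset.univ.filter (fun x : X => x ≠ 0)).filter (fun x => T.Q x = c)).card = n1 := by
      intro c hc
      rw [Finset.mem_filter] at hc
      rw [← hfib c hc.2, Finset.filter_filter]
      congr 1
      ext x
      simp only [Finset.mem_filter, Finset.mem_univ, true_and]
      constructor
      · exact fun h => h.2
      · intro h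
        refine ⟨?_, h⟩
        rintro rfl
        rw [T.Q_zero] at h
        exact hc.2 h.symm
    rw [Finset.sum_congr rfl h2, Finset.sum_const, smul_eq_mul] at h1
    have h3 : ∀ (A : Type _) [Fintype A] [DecidableEq A] [Zero A],
        (Finset.univ.filter (fun x : A => x ≠ 0)).card = Fintype.card A - 1 := by
      intro A _ _ _
      have : (Finset.univ.filter (fun x : A => x ≠ 0)) = Finset.univ.erase 0 := by
        ext x; simp
      rw [this, Finset.card_erase_of_mem (Finset.mem_univ _), Finset.card_univ]
    have h4 : (Finset.univ.filter (fun x : X => x ≠ 0)).card = Fintype.card X - 1 := by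
      have : (Finset.univ.filter (fun x : X => x ≠ 0)) = Finset.univ.erase 0 := by
        ext x; simp
      rw [this, Finset.card_erase_of_mem (Finset.mem_univ _), Finset.card_univ]
    rw [h3 K, h4, cX] at h1
    exact h1
  have hKc : 1 < Fintype.card K := Fintype.one_lt_card
  have hn1v : n1 = Fintype.card K + 1 := by
    obtain ⟨p, hp⟩ : ∃ p, Fintype.card K = p + 2 := ⟨Fintype.card K - 2, by omega⟩
    rw [hp] at htot ⊢
    have h1 : (p + 2) ^ 2 - 1 = (p + 1) * (p + 3) := by
      have : (p + 2) ^ 2 = (p + 1) * (p + 3) + 1 := by ring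
      omega
    have h2 : p + 2 - 1 = p + 1 := by omega
    rw [h1, h2] at htot
    exact (Nat.eq_of_mul_eq_mul_left (by omega) htot).symm
  have hsum : (Finset.univ.filter (fun x : X => x ≠ 0 ∧ S.Q x = 0)).card =
      ∑ c ∈ Finset.univ.filter (fun c : K => c ≠ 0 ∧ Algebra.trace F K c = 0),
        ((Finset.univ.filter (fun x : X => x ≠ 0 ∧ S.Q x = 0)).filter
          (fun x => T.Q x = c)).card := by
    apply Finset.card_eq_sum_card_fiberwise
    intro x hx
    simp only [Finset.coe_filter, Finset.mem_univ, true_and, Set.mem_setOf_eq] at hx ⊢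
    exact ⟨fun h => hx.1 (hT x h), by rw [← hS]; exact hx.2⟩
  rw [hsum]
  apply Finset.dvd_sum
  intro c hc
  rw [Finset.mem_filter] at hc
  have h1 : ((Finset.univ.filter (fun x : X => x ≠ 0 ∧ S.Q x = 0)).filter
      (fun x => T.Q x = c)).card = n1 := by
    rw [← hfib c hc.2.1, Finset.filter_filter]
    congr 1
    ext x
    simp only [Finset.mem_filter, Finset.mem_univ, true_and]
    constructor
    · exact fun h => h.2
    · intro h
      refine ⟨⟨?_, ?_⟩, h⟩
      · rintro rfl
        rw [T.Q_zero] at h
        exact hc.2.1 h.symm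
      · rw [hS, h]; exact hc.2.2
  rw [h1, hn1v]

end Pool.Agent.OmegaEven
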