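import Mathlib
import Pool.Agent.OmegaEven.Half

set_option autoImplicit false
set_option linter.unusedSectionVars false
set_option linter.unusedVariables false
set_option linter.unnecessarySeqFocus false
set_option linter.style.haveILetI false
set_option linter.unusedSimpArgs false

namespace Pool.Agent.OmegaEven

open Module

variable {F V : Type*} [Field F] [CharP F 2] [Finite F] [AddCommGroup V] [Module F V]
  [FiniteDimensional F V]

/-- a common obstruction to generation -/
def Obs (S : QSp F V) (s t : V ≃ₗ[F] V) : Prop :=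
  ∃ h ∈ S.Om, h ≠ 1 ∧ ¬ S.Om ≤ Subgroup.closure {h, s} ∧ ¬ S.Om ≤ Subgroup.closure {h, t}

variable (S : QSp F V)

theorem not_gen_of_inv (hV : 4 < finrank F V) {X : Submodule F V} (h0 : X ≠ ⊥) (h1 : X ≠ ⊤)
    {h s : V ≃ₗ[F] V} (hh : ∀ x ∈ X, h x ∈ X) (hs : ∀ x ∈ X, s x ∈ X) :
    ¬ S.Om ≤ Subgroup.closure {h, s} := by
  intro hle
  apply S.Om_irred hV h0 h1
  intro g hg
  have hg' := hle hg
  have key : ∀ k : V ≃ₗ[F] V, (∀ x ∈ X, k x ∈ X) → X.map k.toLinearMap = X := by
    intro k hk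
    apply Submodule.eq_of_le_of_finrank_eq
    · rintro _ ⟨x, hx, rfl⟩
      exact hk x hx
    · exact LinearEquiv.finrank_map_eq k X
  clear hg
  induction hg' using Subgroup.closure_induction with
  | mem x hx =>
    rcases hx with rfl | rfl
    · exact hh
    · exact hs
  | one => exact fun x hx => hx
  | mul a b _ _ ha hb => exact fun x hx => ha _ (hb _ hx)
  | inv a _ ha =>
    intro x hx
    have h2 := key a ha
    rw [← h2] at hx
    obtain ⟨y, hy, rfl⟩ := hx
    have : a⁻¹ (a.toLinearMap y) = y := a.symm_apply_apply y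
    rw [this]; exact hy

theorem not_gen_of_J (hV : 4 < finrank F V) {J : V →ₗ[F] V} {e : F}
    (hJJ : ∀ x, J (J x) = J x + e • x) (hK : ∀ t : F, t ^ 2 + t ≠ e)
    {h s : V ≃ₗ[F] V} (hh : ∀ x, h (J x) = J (h x)) (hs : ∀ x, s (J x) = J (s x)) :
    ¬ S.Om ≤ Subgroup.closure {h, s} := by
  intro hle
  obtain ⟨g, hg, x, hx⟩ := S.exists_not_commute hV hJJ hK
  apply hx
  have hg' := hle hg
  clear hx hg
  induction hg' using Subgroup.closure_induction generalizing x with
  | mem k hk =>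
    rcases hk with rfl | rfl
    · exact hh x
    · exact hs x
  | one => rfl
  | mul a b _ _ ha hb => rw [mul_apply', mul_apply', hb, ha]
  | inv a _ ha =>
    apply a.injective
    rw [ha]
    rw [apply_inv_self', apply_inv_self']


theorem exists_no_root : ∃ e : F, ∀ t : F, t ^ 2 + t ≠ e := by
  by_contra hcon
  push Not at hcon
  have hsurj : Function.Surjective (fun t : F => t ^ 2 + t) := fun e => hcon e
  have hinj := Finite.injective_iff_surjective.2 hsurj
  have h1 : (0 : F) = 1 := hinj (by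
    change (0 : F) ^ 2 + 0 = 1 ^ 2 + 1
    linear_combination (norm := (ring_nf; reduce_mod_char!)) (0 : F))
  exact zero_ne_one h1

variable {S} in
theorem Obs_of_Comm (hV : 4 < finrank F V) {J J' : V →ₗ[F] V} {e : F}
    (hK : ∀ t : F, t ^ 2 + t ≠ e) (P : Pair S J J' e) (hC : Comm S J J') {s t : V ≃ₗ[F] V}
    (hs : ∀ x, s (J x) = J (s x)) (ht : ∀ x, t (J' x) = J' (t x)) : Obs S s t := by
  obtain ⟨M, hM0, hMM, hMJ, hMJ', hMQ⟩ := hC
  have hI : S.Inv M := ⟨hMM, hMQ⟩
  haveI : PerfectRing F 2 := inferInstance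
  refine ⟨inv1 M hI.1, S.inv1_mem hV hI (QSp.even_rank P.JJ hK hMJ), ?_, ?_, ?_⟩
  · intro h
    apply hM0
    ext x
    have h1 := LinearEquiv.congr_fun h x
    rw [inv1_apply] at h1
    exact add_eq_left.1 h1
  · refine not_gen_of_J S hV P.JJ hK ?_ hs
    intro x
    rw [inv1_apply, inv1_apply, hMJ, map_add]
  · refine not_gen_of_J S hV P.JJ' hK ?_ ht
    intro x
    rw [inv1_apply, inv1_apply, hMJ', map_add]

/-- the irreducible case -/
theorem Obs_irr (hV : 4 < finrank F V) (h4 : 4 ∣ finrank F V) (hH : ¬ Half S)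
    {s g : V ≃ₗ[F] V} (hs : s ∈ S.O) (hg : g ∈ S.O)
    (hirr : ∀ Y : Submodule F V, (∀ y ∈ Y, s y ∈ Y) → Y = ⊥ ∨ Y = ⊤) :
    Obs S s (g * s * g⁻¹) := by
  obtain ⟨e, hK⟩ := exists_no_root (F := F)
  obtain ⟨L, _, _, _, _, _, hLV, hLB, hLs, -⟩ := irr_struct S s.toLinearMap hs hirr (by omega)
  have hLs' : ∀ (c : L) x, s (c • x) = c • s x := hLs
  have h1 := finrank_mul_finrank F L V
  rw [hLV] at h1
  obtain ⟨t, ht⟩ := exists_root_of_even (L := L) (by
    rw [even_iff_two_dvd]; omega) hK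
  haveI : CharP L 2 := charP_of_injective_algebraMap (algebraMap F L).injective 2
  haveI : PerfectRing L 2 := inferInstance
  have hsmul : ∀ (a : F) (c : L) (x : V), c • a • x = a • c • x := by
    intro a c x
    rw [← algebraMap_smul L a x, ← algebraMap_smul L a (c • x), smul_smul, smul_smul, mul_comm]
  let J : V →ₗ[F] V :=
    { toFun := fun x => t • x
      map_add' := fun x y => smul_add t x y
      map_smul' := fun a x => hsmul a t x }
  have hJ : ∀ x, J x = t • x := fun x => rfl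
  let J' : V →ₗ[F] V := g.toLinearMap ∘ₗ J ∘ₗ (g⁻¹).toLinearMap
  have hJ' : ∀ x, J' x = g (J (g⁻¹ x)) := fun x => rfl
  have hJJ : ∀ x, J (J x) = J x + e • x := by
    intro x
    rw [hJ, hJ, smul_smul, ← algebraMap_smul L e x, ← ht, ← add_smul]
    congr 1
    linear_combination (norm := (ring_nf; reduce_mod_char!)) (0 : L)
  have hJs : ∀ x y, S.B (J x) y = S.B x (J y) := fun x y => hLB t x y
  have hJa : ∀ x, S.B (J x) x = 0 := by
    intro x
    rw [hJ, ← rt_sq t, sq, mul_smul, hLB]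
    exact S.self _
  have hgi : g⁻¹ ∈ S.O := S.O.inv_mem hg
  have hadj : ∀ x y, S.B (g x) y = S.B x (g⁻¹ y) := by
    intro x y
    rw [← S.O_B hg x (g⁻¹ y), apply_inv_self']
  have P : Pair S J J' e := by
    refine ⟨hJJ, ?_, hJs, ?_, hJa, ?_⟩
    · intro x
      rw [hJ', hJ', inv_apply_self', hJJ, map_add, map_smul, apply_inv_self']
    · intro x y
      rw [hJ', hJ', hadj, hJs, ← S.O_B hg (g⁻¹ x), apply_inv_self']
    · intro x
      rw [hJ', hadj]
      exact hJa _
  have hsJ : ∀ x, s (J x) = J (s x) := fun x => hLs' t x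
  haveI : Nontrivial V := by
    apply Module.nontrivial_of_finrank_pos (R := F); omega
  rcases global_core hK _ V S J J' rfl P with hC | hC
  · refine Obs_of_Comm hV hK P hC hsJ ?_
    intro x
    rw [hJ', hJ', mul_apply', mul_apply', mul_apply', mul_apply', inv_apply_self', hsJ,
      inv_apply_self']
  · exact absurd hC hH

/-- a small invariant subspace -/
theorem Obs_small (hV : 4 < finrank F V) {s g : V ≃ₗ[F] V} {X : Submodule F V} (h0 : X ≠ ⊥)
    (hX : 2 * finrank F X + 3 ≤ finrank F V) (hs : ∀ x ∈ X, s x ∈ X) :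
    Obs S s (g * s * g⁻¹) := by
  haveI : PerfectRing F 2 := inferInstance
  set X' := X.map g.toLinearMap with hX'
  have hX'r : finrank F X' = finrank F X := LinearEquiv.finrank_map_eq g X
  have h1 := Submodule.finrank_add_le_finrank_add_finrank X X'
  have h2 := S.finrank_perp (X ⊔ X')
  obtain ⟨h, hh, hh1, hfix⟩ := S.exists_fix hV (W := S.perp (X ⊔ X')) (by omega)
  rw [S.perp_perp] at hfix
  have hX1 : X ≠ ⊤ := by
    rintro rfl
    rw [finrank_top] at hX; omega
  have hX'0 : X' ≠ ⊥ := by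
    intro h3
    rw [h3, finrank_bot] at hX'r
    apply h0
    exact Submodule.finrank_eq_zero.1 hX'r.symm
  have hX'1 : X' ≠ ⊤ := by
    intro h3
    rw [h3, finrank_top] at hX'r
    omega
  refine ⟨h, hh, hh1, not_gen_of_inv S hV h0 hX1 ?_ hs, not_gen_of_inv S hV hX'0 hX'1 ?_ ?_⟩
  · intro x hx
    rw [hfix x (Submodule.mem_sup_left hx)]; exact hx
  · intro x hx
    rw [hfix x (Submodule.mem_sup_right hx)]; exact hx
  · rintro _ ⟨x, hx, rfl⟩
    refine ⟨s x, hs x hx, ?_⟩
    change g (s x) = g (s (g⁻¹ (g x)))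
    rw [inv_apply_self']

/-- a totally singular invariant subspace -/
theorem Obs_sing (hV : 4 < finrank F V) {s g : V ≃ₗ[F] V} (hg : g ∈ S.O) {X : Submodule F V}
    (hX : 3 ≤ finrank F X) (hQ : ∀ x ∈ X, S.Q x = 0) (hs : ∀ x ∈ X, s x ∈ X) :
    Obs S s (g * s * g⁻¹) := by
  haveI : PerfectRing F 2 := inferInstance
  set X' := X.map g.toLinearMap with hX'
  have hX'r : finrank F X' = finrank F X := LinearEquiv.finrank_map_eq g X
  have hQ' : ∀ x ∈ X', S.Q x = 0 := by
    rintro _ ⟨x, hx, rfl⟩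
    change S.Q (g x) = 0
    rw [hg, hQ x hx]
  have hBof : ∀ Y : Submodule F V, (∀ x ∈ Y, S.Q x = 0) → ∀ x ∈ Y, ∀ y ∈ Y, S.B x y = 0 := by
    intro Y hY x hx y hy
    have h1 := S.add x y
    rw [hY x hx, hY y hy, hY _ (Y.add_mem hx hy)] at h1
    simpa using h1.symm
  have h0 : X ≠ ⊥ := by
    rintro rfl
    rw [finrank_bot] at hX; omega
  have hX'0 : X' ≠ ⊥ := by
    intro h3
    rw [h3, finrank_bot] at hX'r
    omega
  obtain ⟨a, haX, ha⟩ := X.exists_mem_ne_zero_of_ne_bot h0
  have hntop : ∀ Y : Submodule F V, (∀ x ∈ Y, S.Q x = 0) → Y ≠ ⊤ := by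
    rintro Y hY rfl
    apply ha
    apply S.nd
    intro y
    exact hBof ⊤ hY a trivial y trivial
  obtain ⟨b, hbX, hab, hb⟩ : ∃ b ∈ X', S.B a b = 0 ∧ ∀ c : F, b ≠ c • a := by
    by_contra hcon
    push Not at hcon
    have h1 : X' ⊓ LinearMap.ker (S.B a) ≤ F ∙ a := by
      rintro x ⟨hx1, hx2⟩
      obtain ⟨c, rfl⟩ := hcon x hx1 hx2
      exact Submodule.smul_mem _ _ (Submodule.mem_span_singleton_self a)
    have h2 := Submodule.finrank_mono h1
    rw [finrank_span_singleton ha] at h2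
    have h3 := Submodule.finrank_sup_add_finrank_inf_eq X' (LinearMap.ker (S.B a))
    have h4 := LinearMap.finrank_range_add_finrank_ker (S.B a)
    have h5 : finrank F (LinearMap.range (S.B a)) ≤ 1 := by
      have := Submodule.finrank_le (LinearMap.range (S.B a))
      rwa [finrank_self] at this
    have h6 := Submodule.finrank_le (X' ⊔ LinearMap.ker (S.B a))
    omega
  have hba : S.B b a = 0 := by rw [S.symm]; exact hab
  have hE2 : ∀ z, ((S.B.flip b).smulRight a + (S.B.flip a).smulRight b : V →ₗ[F] V)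
      (((S.B.flip b).smulRight a + (S.B.flip a).smulRight b : V →ₗ[F] V) z) = 0 := by
    intro z
    simp only [LinearMap.add_apply, LinearMap.smulRight_apply, LinearMap.flip_apply, map_add,
      map_smul, LinearMap.smul_apply, hab, hba, S.self]
    simp
  have hE : ∀ z, inv1 ((S.B.flip b).smulRight a + (S.B.flip a).smulRight b) hE2 z =
      z + S.B z b • a + S.B z a • b := by
    intro z
    rw [inv1_apply]
    simp only [LinearMap.add_apply, LinearMap.smulRight_apply, LinearMap.flip_apply]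
    abel
  refine ⟨_, S.siegel_mem hV (hQ a haX) (hQ' b hbX) hab hE, ?_,
    not_gen_of_inv S hV h0 (hntop X hQ) ?_ hs, not_gen_of_inv S hV hX'0 (hntop X' hQ') ?_ ?_⟩
  · intro h
    obtain ⟨x, hx1, hx2⟩ := S.exists_dual hb
    have h1 := hE x
    rw [h, hx1, hx2, zero_smul, one_smul, add_zero] at h1
    have h2 : x = x + a := h1
    exact ha (add_eq_left.1 h2.symm)
  · intro x hx
    rw [hE, hBof X hQ x hx a haX, zero_smul, add_zero]
    exact X.add_mem hx (X.smul_mem _ haX)
  · intro x hx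
    rw [hE, hBof X' hQ' x hx b hbX, zero_smul, add_zero]
    exact X'.add_mem hx (X'.smul_mem _ hbX)
  · rintro _ ⟨x, hx, rfl⟩
    refine ⟨s x, hs x hx, ?_⟩
    change g (s x) = g (s (g⁻¹ (g x)))
    rw [inv_apply_self']

/-- a smallest invariant subspace -/
theorem exists_min [Nontrivial V] (s : V →ₗ[F] V) :
    ∃ X : Submodule F V, X ≠ ⊥ ∧ (∀ x ∈ X, s x ∈ X) ∧
      ∀ Y : Submodule F V, Y ≠ ⊥ → (∀ y ∈ Y, s y ∈ Y) → finrank F X ≤ finrank F Y := by
  classical
  have hex : ∃ n : ℕ, ∃ X : Submodule F V, X ≠ ⊥ ∧ (∀ x ∈ X, s x ∈ X) ∧ finrank F X = n :=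
    ⟨_, ⊤, top_ne_bot, fun x _ => trivial, rfl⟩
  obtain ⟨X, h0, hX, hn⟩ := Nat.find_spec hex
  refine ⟨X, h0, hX, fun Y hY0 hY => ?_⟩
  rw [hn]
  exact Nat.find_min' hex ⟨Y, hY0, hY, rfl⟩

/-- the possible structures of an isometry -/
theorem structure_cases (m : ℕ) (hm : 4 ≤ m) (hme : Even m) (hV : finrank F V = 2 * m)
    {s g : V ≃ₗ[F] V} (hs : s ∈ S.O) (hg : g ∈ S.O) :
    (∀ Y : Submodule F V, (∀ y ∈ Y, s y ∈ Y) → Y = ⊥ ∨ Y = ⊤) ∨ Obs S s (g * s * g⁻¹) ∨
      ∃ X : Submodule F V, X ⊓ S.perp X = ⊥ ∧ (∀ x ∈ X, s x ∈ X) ∧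
        (∀ x ∈ S.perp X, s x ∈ S.perp X) ∧
        (∀ Z : Submodule F V, Z ≤ X → (∀ y ∈ Z, s y ∈ Z) → Z = ⊥ ∨ Z = X) ∧
        (∀ Z : Submodule F V, Z ≤ S.perp X → (∀ y ∈ Z, s y ∈ Z) → Z = ⊥ ∨ Z = S.perp X) ∧
        finrank F X = m ∧ finrank F (S.perp X) = m := by
  haveI : PerfectRing F 2 := inferInstance
  haveI : Nontrivial V := by
    apply Module.nontrivial_of_finrank_pos (R := F); omega
  by_cases hirr : ∀ Y : Submodule F V, (∀ y ∈ Y, s y ∈ Y) → Y = ⊥ ∨ Y = ⊤
  · exact Or.inl hirr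
  right
  push Not at hirr
  obtain ⟨Y, hYs, hY0, hY1⟩ := hirr
  obtain ⟨X, hX0, hXs, hmin⟩ := exists_min (F := F) s.toLinearMap
  by_cases hobs : Obs S s (g * s * g⁻¹)
  · exact Or.inl hobs
  right
  have hd : m - 1 ≤ finrank F X := by
    by_contra hcon
    exact hobs (Obs_small S (by omega) hX0 (by omega) hXs)
  have hpinv : ∀ Z : Submodule F V, (∀ x ∈ Z, s x ∈ Z) → ∀ x ∈ S.perp Z, s x ∈ S.perp Z := by
    intro Z hZ x hx z hz
    have h2 : Z.map s.toLinearMap = Z := by
      apply Submodule.eq_of_le_of_finrank_eq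
      · rintro _ ⟨x, hx, rfl⟩
        exact hZ x hx
      · exact LinearEquiv.finrank_map_eq s Z
    rw [← h2] at hz
    obtain ⟨y, hy, rfl⟩ := hz
    change S.B (s x) (s y) = 0
    rw [S.O_B hs, hx y hy]
  have hle : ∀ Z : Submodule F V, Z ≤ X → (∀ y ∈ Z, s y ∈ Z) → Z = ⊥ ∨ Z = X := by
    intro Z hZX hZ
    by_cases hZ0 : Z = ⊥
    · exact Or.inl hZ0
    · right
      exact Submodule.eq_of_le_of_finrank_le hZX (hmin Z hZ0 hZ)
  have hXlt : finrank F X < 2 * m := by
    have h1 := hmin Y hY0 hYs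
    have h2 := Submodule.finrank_lt hY1
    omega
  rcases hle (X ⊓ S.perp X) inf_le_left (by
    rintro x ⟨hx1, hx2⟩
    exact ⟨hXs x hx1, hpinv X hXs x hx2⟩) with hrad | hrad
  · -- nondegenerate
    have hp := S.finrank_perp X
    have hp0 : S.perp X ≠ ⊥ := by
      intro h
      rw [h, finrank_bot] at hp
      omega
    have h1 := hmin (S.perp X) hp0 (hpinv X hXs)
    have hev : Even (finrank F X) := by
      obtain ⟨L, _, _, _, _, _, hLX, -⟩ := irr_struct (S.sub X hrad)
        (s.toLinearMap.restrict hXs) (fun x => hs x.1) (by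
        intro Z hZ
        rcases hle (Z.map X.subtype) (Submodule.map_subtype_le X Z) (by
          rintro _ ⟨z, hz, rfl⟩
          exact ⟨_, hZ z hz, rfl⟩) with h | h
        · left
          apply Submodule.map_injective_of_injective (Submodule.injective_subtype X)
          rw [h, Submodule.map_bot]
        · right
          rw [eq_top_iff]
          rintro ⟨x, hx⟩ -
          rw [← h] at hx
          obtain ⟨z, hz, hzx⟩ := hx
          have : z = ⟨x, hx⟩ := Subtype.ext hzx
          rw [← this]; exact hz) (by omega)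
      have h2 := finrank_mul_finrank F L X
      rw [hLX] at h2
      rw [← h2]
      exact even_two.mul_left _
    have hXm : finrank F X = m := by
      obtain ⟨a, ha⟩ := hev
      obtain ⟨b, hb⟩ := hme
      omega
    refine ⟨X, hrad, hXs, hpinv X hXs, hle, ?_, hXm, by omega⟩
    intro Z hZX hZ
    by_cases hZ0 : Z = ⊥
    · exact Or.inl hZ0
    · right
      have h2 := hmin Z hZ0 hZ
      exact Submodule.eq_of_le_of_finrank_le hZX (by omega)
  · -- totally isotropic
    exfalso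
    have hiso : ∀ x y : X, S.B (X.subtype x) (X.subtype y) = 0 := by
      intro x y
      have h1 : x.1 ∈ X ⊓ S.perp X := by rw [hrad]; exact x.2
      exact h1.2 y.1 y.2
    have hk := LinearMap.finrank_range_add_finrank_ker (rtMap S X.subtype hiso)
    have hr : finrank F (LinearMap.range (rtMap S X.subtype hiso)) ≤ 1 := by
      have := Submodule.finrank_le (LinearMap.range (rtMap S X.subtype hiso))
      rwa [finrank_self] at this
    have hmemk : ∀ x : X, x ∈ LinearMap.ker (rtMap S X.subtype hiso) ↔ S.Q x.1 = 0 := by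
      intro x
      have h1 := rtMap_sq S X.subtype hiso x
      rw [LinearMap.mem_ker, show S.Q x.1 = S.Q (X.subtype x) from rfl, ← h1]
      exact (pow_eq_zero_iff two_ne_zero).symm
    set X0 := (LinearMap.ker (rtMap S X.subtype hiso)).map X.subtype with hX0def
    have hX0r : finrank F X0 = finrank F (LinearMap.ker (rtMap S X.subtype hiso)) :=
      Submodule.finrank_map_subtype_eq _ _
    have hQ0 : ∀ x ∈ X0, S.Q x = 0 := by
      rintro _ ⟨x, hx, rfl⟩
      exact (hmemk x).1 hx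
    rcases hle X0 (Submodule.map_subtype_le X _) (by
      rintro _ ⟨x, hx, rfl⟩
      refine ⟨⟨s x.1, hXs _ x.2⟩, (hmemk _).2 ?_, rfl⟩
      change S.Q (s x.1) = 0
      rw [hs]
      exact (hmemk x).1 hx) with h | h
    · rw [h, finrank_bot] at hX0r
      omega
    · apply hobs
      refine Obs_sing S (by omega) hg (X := X) (by omega) ?_ hXs
      rw [← h]
      exact hQ0

/-- the minus type -/
theorem Obs_minus (m : ℕ) (hm : 4 ≤ m) (hme : Even m) (hV : finrank F V = 2 * m)
    (hH : ¬ Half S) {s g : V ≃ₗ[F] V} (hs : s ∈ S.O) (hg : g ∈ S.O) :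
    Obs S s (g * s * g⁻¹) := by
  rcases structure_cases S m hm hme hV hs hg with hirr | hobs | ⟨X, h1, h2, h3, h4, h5, h6, h7⟩
  · refine Obs_irr S (by omega) ?_ hH hs hg hirr
    obtain ⟨k, hk⟩ := hme
    rw [hV, hk]
    exact ⟨k, by ring⟩
  · exact hobs
  · exact absurd (half_of_split S X h1 s.toLinearMap hs h2 h3 h4 h5 (by omega) (by omega)) hH

end Pool.Agent.OmegaEven
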