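import Mathlib
import Pool.Agent.OmegaEven.Global2
import Pool.Agent.OmegaEven.Group3

set_option autoImplicit false
set_option linter.unusedSectionVars false
set_option linter.unusedVariables false
set_option linter.unnecessarySeqFocus false
set_option linter.style.haveILetI false
set_option linter.unusedSimpArgs false

namespace Pool.Agent.OmegaEven

open Module

variable {F V : Type*} [Field F] [CharP F 2] [PerfectRing F 2] [AddCommGroup V] [Module F V]

/-- a nilpotent self-adjoint operator exchanging the two eigenspaces of `J` -/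
structure Sw (S : QSp F V) (J c : V →ₗ[F] V) : Prop where
  JJ : ∀ x, J (J x) = J x
  Js : ∀ x y, S.B (J x) y = S.B x (J y)
  cs : ∀ x y, S.B (c x) y = S.B x (c y)
  ca : ∀ x, S.B (c x) x = 0
  cJ : ∀ x, c (J x) = J (c x) + c x
  nil : ∃ k : ℕ, c ^ k = 0

/-- a square-zero operator, commuting with `J` and `c`, such that `1+M` is an isometry -/
def SqZ (S : QSp F V) (J c M : V →ₗ[F] V) : Prop :=
  (∀ x, M (M x) = 0) ∧ (∀ x, M (J x) = J (M x)) ∧ (∀ x, M (c x) = c (M x)) ∧
    ∀ x, S.Q (x + M x) = S.Q x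

namespace Sw
variable {S : QSp F V} {J c : V →ₗ[F] V} (C : Sw S J c)
include C

theorem Ja (x : V) : S.B (J x) x = 0 := by
  rw [← C.JJ, C.Js]; exact S.self _

theorem cs_pow (k : ℕ) (x y : V) : S.B ((c ^ k) x) y = S.B x ((c ^ k) y) := by
  induction k generalizing x y with
  | zero => rfl
  | succ k ih => rw [pow_app_succ, ih, C.cs, pow_app_succ']

theorem ca_pow (k : ℕ) (x : V) : S.B x ((c ^ k) x) = 0 := by
  obtain ⟨j, hj | hj⟩ := Nat.even_or_odd' k
  · rw [hj, two_mul, pow_app_add, ← C.cs_pow]; exact S.self _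
  · rw [hj, two_mul, add_assoc, pow_app_add, ← C.cs_pow, pow_app_succ', S.symm]; exact C.ca _

theorem cJ_pow (k : ℕ) (x : V) :
    (c ^ (2 * k)) (J x) = J ((c ^ (2 * k)) x) ∧
      (c ^ (2 * k + 1)) (J x) = J ((c ^ (2 * k + 1)) x) + (c ^ (2 * k + 1)) x := by
  have h1 : ∀ k x, (c ^ (2 * k)) (J x) = J ((c ^ (2 * k)) x) := by
    intro k
    induction k with
    | zero => intro x; rfl
    | succ k ih =>
      intro x
      rw [show 2 * (k + 1) = 2 * k + 1 + 1 by ring, pow_app_succ, pow_app_succ, C.cJ, map_add, C.cJ,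
        add_assoc, add_selfV F, add_zero, ih, pow_app_succ, pow_app_succ]
  refine ⟨h1 k x, ?_⟩
  rw [pow_app_succ, C.cJ, map_add, h1, pow_app_succ]

theorem alt_Jpow (i : ℕ) (x : V) : S.B x (J ((c ^ (2 * i)) x)) = 0 := by
  obtain ⟨k, hk | hk⟩ := Nat.even_or_odd' i
  · have : 2 * i = 2 * k + 2 * k := by omega
    rw [this, pow_app_add, ← (C.cJ_pow k _).1, ← C.cs_pow, S.symm]
    exact C.Ja _
  · have : 2 * i = (2 * k + 1) + (2 * k + 1) := by omega
    have h2 := (C.cJ_pow k ((c ^ (2 * k + 1)) x)).2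
    have h3 : J ((c ^ (2 * k + 1)) ((c ^ (2 * k + 1)) x)) =
        (c ^ (2 * k + 1)) (J ((c ^ (2 * k + 1)) x)) + (c ^ (2 * k + 1)) ((c ^ (2 * k + 1)) x) := by
      rw [h2, add_assoc, add_selfV F, add_zero]
    rw [this, pow_app_add, h3, map_add, ← C.cs_pow, ← C.cs_pow, S.self, add_zero, S.symm]
    exact C.Ja _

/-- the totally isotropic plane construction -/
theorem plane_gen [FiniteDimensional F V] {p p' : V} {ε : F} (hε : ε = 0 ∨ ε = 1)
    (hp : J p = ε • p) (hp' : J p' = ε • p') (hcp : c p = 0) (hcp' : c p' = 0)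
    (hB : S.B p p' = 0) (hp0 : p ≠ 0) (hind : ∀ t : F, p' ≠ t • p) (α β γ : F)
    (h1 : α ^ 2 * S.Q p + β ^ 2 * S.Q p' = α) (h2 : β ^ 2 * S.Q p + γ ^ 2 * S.Q p' = γ)
    (hdet : α * γ + β ^ 2 ≠ 0) :
    ∃ M : V →ₗ[F] V, SqZ S J c M ∧ Even (finrank F (LinearMap.range M)) ∧ M ≠ 0 := by
  have hB' : S.B p' p = 0 := by rw [S.symm]; exact hB
  let M : V →ₗ[F] V := (α • S.B.flip p + β • S.B.flip p').smulRight p +
    (β • S.B.flip p + γ • S.B.flip p').smulRight p'
  have hM : ∀ x, M x = (α * S.B x p + β * S.B x p') • p + (β * S.B x p + γ * S.B x p') • p' := by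
    intro x
    simp [M]
  obtain ⟨x2, hx2, hx2'⟩ := S.exists_dual hind
  obtain ⟨x1, hx1', hx1⟩ : ∃ x, S.B x p' = 0 ∧ S.B x p = 1 := by
    apply S.exists_dual
    intro t ht
    by_cases ht0 : t = 0
    · rw [ht0, zero_smul] at ht; exact hp0 ht
    · apply hind t⁻¹
      rw [ht, smul_smul, inv_mul_cancel₀ ht0, one_smul]
  have hrange : LinearMap.range M = Submodule.span F ({p, p'} : Set V) := by
    apply le_antisymm
    · rintro _ ⟨x, rfl⟩
      rw [Submodule.mem_span_pair, hM]
      exact ⟨_, _, rfl⟩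
    · rw [Submodule.span_le]
      rintro y (rfl | rfl)
      · refine ⟨(α * γ + β ^ 2)⁻¹ • (γ • x1 + β • x2), ?_⟩
        rw [hM]
        simp only [map_add, map_smul, LinearMap.add_apply, LinearMap.smul_apply, smul_eq_mul,
          hx1, hx1', hx2, hx2', mul_one, mul_zero, add_zero, zero_add]
        match_scalars
        · field_simp
        · field_simp
          linear_combination (norm := (ring_nf; reduce_mod_char!)) (0 : F)
      · refine ⟨(α * γ + β ^ 2)⁻¹ • (β • x1 + α • x2), ?_⟩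
        rw [hM]
        simp only [map_add, map_smul, LinearMap.add_apply, LinearMap.smul_apply, smul_eq_mul,
          hx1, hx1', hx2, hx2', mul_one, mul_zero, add_zero, zero_add]
        match_scalars
        · field_simp
          linear_combination (norm := (ring_nf; reduce_mod_char!)) (0 : F)
        · field_simp
          ring
  have hrank : finrank F (LinearMap.range M) = 2 := by
    rw [hrange]; exact finrank_span_pair_of_ind hp0 hind
  refine ⟨M, ⟨?_, ?_, ?_, ?_⟩, by rw [hrank]; exact even_two, ?_⟩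
  · intro x
    rw [hM (M x), hM x]
    simp only [map_add, map_smul, LinearMap.add_apply, LinearMap.smul_apply, hB, hB', S.self]
    simp
  · intro x
    rw [hM, hM, C.Js, C.Js, hp, hp']
    simp only [map_add, map_smul, smul_eq_mul, hp, hp']
    module
  · intro x
    rw [hM, hM, C.cs, C.cs, hcp, hcp']
    simp [hcp, hcp']
  · intro x
    rw [hM, S.add, S.add, S.smul, S.smul]
    simp only [map_add, map_smul, LinearMap.smul_apply, smul_eq_mul, hB]
    linear_combination (norm := (ring_nf; reduce_mod_char!))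
      (S.B x p) ^ 2 * h1 + (S.B x p') ^ 2 * h2
  · intro h
    rw [h, LinearMap.range_zero, finrank_bot] at hrank
    omega

theorem plane [FiniteDimensional F V] {p p' : V} {ε : F} (hε : ε = 0 ∨ ε = 1)
    (hp : J p = ε • p) (hp' : J p' = ε • p') (hcp : c p = 0) (hcp' : c p' = 0)
    (hB : S.B p p' = 0) (hp0 : p ≠ 0) (hind : ∀ t : F, p' ≠ t • p) :
    ∃ M : V →ₗ[F] V, SqZ S J c M ∧ Even (finrank F (LinearMap.range M)) ∧ M ≠ 0 := by
  by_cases hQ' : S.Q p' = 0
  · apply C.plane_gen hε hp hp' hcp hcp' hB hp0 hind 0 1 (S.Q p)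
    · rw [hQ']; ring
    · rw [hQ']; ring
    · simp
  by_cases hQ : S.Q p = 0
  · apply C.plane_gen hε hp hp' hcp hcp' hB hp0 hind (S.Q p') 1 0
    · rw [hQ]; ring
    · rw [hQ]; ring
    · simp
  · apply C.plane_gen hε hp hp' hcp hcp' hB hp0 hind (S.Q p)⁻¹ 0 (S.Q p')⁻¹
    · field_simp; ring
    · field_simp; ring
    · have := mul_ne_zero (inv_ne_zero hQ) (inv_ne_zero hQ')
      simpa using this


theorem two_le_range [FiniteDimensional F V] (l : ℕ) (hl : c ^ l ≠ 0) :
    2 ≤ finrank F (LinearMap.range (c ^ l)) := by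
  by_contra hcon
  have h1 : finrank F (LinearMap.range (c ^ l)) ≤ 1 := by omega
  rw [finrank_le_one_iff] at h1
  obtain ⟨⟨u, hu⟩, h1⟩ := h1
  have h2 : ∀ x, ∃ t : F, (c ^ l) x = t • u := by
    intro x
    obtain ⟨t, ht⟩ := h1 ⟨(c ^ l) x, x, rfl⟩
    exact ⟨t, by rw [Subtype.ext_iff] at ht; exact ht.symm⟩
  obtain ⟨v, hv⟩ : ∃ v, (c ^ l) v ≠ 0 := by
    by_contra h
    push Not at h
    exact hl (LinearMap.ext h)
  obtain ⟨t, ht⟩ := h2 v
  have ht0 : t ≠ 0 := by
    rintro rfl
    rw [zero_smul] at ht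
    exact hv ht
  have hu0 : u ≠ 0 := by
    rintro rfl
    rw [smul_zero] at ht
    exact hv ht
  have h3 : S.B v u = 0 := by
    have := C.ca_pow l v
    rw [ht, map_smul, smul_eq_mul] at this
    rcases mul_eq_zero.1 this with h | h
    · exact absurd h ht0
    · exact h
  obtain ⟨x, hx⟩ := S.exists_ne hu0
  obtain ⟨d, hd⟩ := h2 x
  have hd0 : d = 0 := by
    have := C.ca_pow l x
    rw [hd, map_smul, smul_eq_mul, hx, mul_one] at this
    exact this
  have h4 := C.ca_pow l (v + x)
  have h5 : (c ^ l) (v + x) = t • u := by rw [map_add, ht, hd, hd0, zero_smul, add_zero]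
  rw [h5, map_smul, map_add, LinearMap.add_apply, h3, hx] at h4
  simp at h4
  exact ht0 h4

theorem exists_index [Nontrivial V] :
    ∃ l : ℕ, c ^ l ≠ 0 ∧ c ^ (l + 1) = 0 := by
  classical
  have hne : ∃ k : ℕ, c ^ k = 0 := C.nil
  have h1 := Nat.find_spec hne
  have h0 : Nat.find hne ≠ 0 := by
    intro h
    rw [h, pow_zero] at h1
    obtain ⟨x, hx⟩ := exists_ne (0 : V)
    exact hx (by simpa using LinearMap.congr_fun h1 x)
  obtain ⟨l, hl⟩ := Nat.exists_eq_succ_of_ne_zero h0
  refine ⟨l, fun h => ?_, by rw [hl] at h1; exact h1⟩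
  have := Nat.find_min' hne h
  omega

theorem pow_zero_of_le {l k : ℕ} (hl1 : c ^ (l + 1) = 0) (hk : l + 1 ≤ k) (x : V) :
    (c ^ k) x = 0 := by
  obtain ⟨i, rfl⟩ := Nat.exists_eq_add_of_le hk
  rw [pow_add, hl1, zero_mul]; rfl

/-- the main statement on nilpotent pieces -/
theorem nil_main [FiniteDimensional F V] [Nontrivial V]
    (C1 : ∀ M : V →ₗ[F] V, SqZ S J c M → Even (finrank F (LinearMap.range M)) → M = 0)
    (C2 : ∀ M : V →ₗ[F] V, SqZ S J c M → ∀ b, J b = 0 → c b = 0 → S.Q b ≠ 0 →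
      ∀ x, S.B x b = 0 → M x = 0)
    (hX : ∀ a, J a = a → c a = 0 → S.Q a = 0) :
    ∃ U : Submodule F V, U ≤ LinearMap.range J ∧ (∀ x ∈ U, S.Q x = 0) ∧
      2 * finrank F U = finrank F (LinearMap.range J) := by
  by_cases hJ0 : ∀ x, J x = 0
  · refine ⟨⊥, bot_le, ?_, ?_⟩
    · intro x hx
      rw [(Submodule.mem_bot F).1 hx, S.Q_zero]
    · have : J = 0 := LinearMap.ext hJ0
      rw [this, LinearMap.range_zero, finrank_bot]
  push Not at hJ0
  obtain ⟨z0, hz0⟩ := hJ0
  have hXY : ∀ x y, J x = x → J y = 0 → S.B x y = 0 := by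
    intro x y hx hy
    rw [← hx, C.Js, hy, map_zero]
  -- uniqueness in the two kernels
  have uX : ∀ a a', J a = a → c a = 0 → J a' = a' → c a' = 0 → a ≠ 0 → ∃ t : F, a' = t • a := by
    intro a a' ha hca ha' hca' ha0
    by_contra hcon
    push Not at hcon
    have hB : S.B a a' = 0 := by
      have h1 := S.add a a'
      rw [hX a ha hca, hX a' ha' hca', hX (a + a') (by rw [map_add, ha, ha'])
        (by rw [map_add, hca, hca', add_zero])] at h1
      simpa using h1.symm
    obtain ⟨M, hM, hev, hM0⟩ := C.plane (p := a) (p' := a') (ε := 1) (Or.inr rfl)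
      (by rw [ha, one_smul]) (by rw [ha', one_smul]) hca hca' hB ha0 hcon
    exact hM0 (C1 M hM hev)
  have uY : ∀ b b', J b = 0 → c b = 0 → J b' = 0 → c b' = 0 → S.B b b' = 0 → b ≠ 0 →
      ∃ t : F, b' = t • b := by
    intro a a' ha hca ha' hca' hB ha0
    by_contra hcon
    push Not at hcon
    obtain ⟨M, hM, hev, hM0⟩ := C.plane (p := a) (p' := a') (ε := 0) (Or.inl rfl)
      (by rw [ha, zero_smul]) (by rw [ha', zero_smul]) hca hca' hB ha0 hcon
    exact hM0 (C1 M hM hev)
  obtain ⟨l, hl, hl1⟩ := C.exists_index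
  have hcl : ∀ x, c ((c ^ l) x) = 0 := by
    intro x
    rw [← pow_app_succ', hl1]; rfl
  -- `c ≠ 0`
  have hl0 : l ≠ 0 := by
    rintro rfl
    have hc0 : ∀ x, c x = 0 := fun x => hcl x
    apply hz0
    apply S.nd
    intro y
    rw [← C.JJ, C.Js]
    have h1 := S.add (J z0) (J y)
    rw [hX (J z0) (C.JJ _) (hc0 _), hX (J y) (C.JJ _) (hc0 _), hX (J z0 + J y)
      (by rw [map_add, C.JJ, C.JJ]) (hc0 _)] at h1
    simpa using h1.symm
  -- the range of the last power
  have hRJ : ∀ x, ∃ y, J ((c ^ l) x) = (c ^ l) y := by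
    intro x
    obtain ⟨i, hi | hi⟩ := Nat.even_or_odd' l
    · refine ⟨J x, ?_⟩
      rw [hi, (C.cJ_pow i x).1]
    · refine ⟨J x + x, ?_⟩
      rw [map_add, hi, (C.cJ_pow i x).2, add_assoc, add_selfV F, add_zero]
  have hRiso : ∀ x y, S.B ((c ^ l) x) ((c ^ l) y) = 0 := by
    intro x y
    rw [C.cs_pow, ← pow_app_add, C.pow_zero_of_le hl1 (by omega), map_zero]
  have h2R := C.two_le_range l hl
  have two_ind : ∃ r r', (∀ t : F, (c ^ l) r' ≠ t • (c ^ l) r) ∧ (c ^ l) r ≠ 0 := by
    by_contra hcon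
    push Not at hcon
    obtain ⟨v, hv⟩ : ∃ v, (c ^ l) v ≠ 0 := by
      by_contra h
      push Not at h
      exact hl (LinearMap.ext h)
    have h1 : LinearMap.range (c ^ l) ≤ F ∙ ((c ^ l) v) := by
      rintro _ ⟨x, rfl⟩
      by_contra hx
      apply hv
      apply hcon v x
      intro t ht
      apply hx
      rw [ht]
      exact Submodule.smul_mem _ _ (Submodule.mem_span_singleton_self _)
    have h2 := Submodule.finrank_mono h1
    rw [finrank_span_singleton hv] at h2
    omega
  obtain ⟨r, r', hrr, hr0⟩ := two_ind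
  obtain ⟨y1, hy1⟩ : ∃ x, J ((c ^ l) x) ≠ 0 := by
    by_contra hcon
    push Not at hcon
    obtain ⟨t, ht⟩ := uY ((c ^ l) r) ((c ^ l) r') (hcon r) (hcl r) (hcon r') (hcl r')
      (hRiso r r') hr0
    exact hrr t ht
  obtain ⟨y2, hy2⟩ : ∃ x, (c ^ l) x + J ((c ^ l) x) ≠ 0 := by
    by_contra hcon
    push Not at hcon
    have h1 : ∀ x, J ((c ^ l) x) = (c ^ l) x := fun x =>
      (eq_of_add_eq_zeroV F (hcon x)).symm
    obtain ⟨t, ht⟩ := uX ((c ^ l) r) ((c ^ l) r') (h1 r) (hcl r) (h1 r') (hcl r') hr0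
    exact hrr t ht
  have hcJl : ∀ x, c (J ((c ^ l) x)) = 0 := by
    intro x
    rw [C.cJ, hcl, map_zero, add_zero]
  obtain ⟨ya, hya⟩ := hRJ y1
  obtain ⟨yb, hyb⟩ := hRJ y2
  obtain ⟨a0, ha0⟩ : ∃ a0, a0 = J ((c ^ l) y1) := ⟨_, rfl⟩
  obtain ⟨b, hb⟩ : ∃ b, b = (c ^ l) y2 + J ((c ^ l) y2) := ⟨_, rfl⟩
  have ha0ne : a0 ≠ 0 := by rw [ha0]; exact hy1
  have hbne : b ≠ 0 := by rw [hb]; exact hy2
  have hJa0 : J a0 = a0 := by rw [ha0, C.JJ]
  have hca0 : c a0 = 0 := by rw [ha0, hcJl]
  have hJb : J b = 0 := by rw [hb, map_add, C.JJ]; exact add_selfV F _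
  have hcb : c b = 0 := by rw [hb, map_add, hcl, hcJl, add_zero]
  have ha0R : (c ^ l) ya = a0 := by rw [ha0, hya]
  have hbR : (c ^ l) (y2 + yb) = b := by rw [map_add, hb, hyb]
  obtain ⟨l', hl'⟩ := Nat.exists_eq_succ_of_ne_zero hl0
  have hbR' : ∃ y, c y = b := by
    refine ⟨(c ^ l') (y2 + yb), ?_⟩
    rw [← pow_app_succ', show l' + 1 = l from hl'.symm, hbR]
  have hker0 : ∀ z, c z = 0 → ∃ α β : F, z = α • a0 + β • b := by
    intro z hz
    obtain ⟨α, hα⟩ := uX a0 (J z) hJa0 hca0 (C.JJ z) (by rw [C.cJ, hz, map_zero, add_zero]) ha0ne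
    obtain ⟨β, hβ⟩ := uY b (z + J z) hJb hcb (by rw [map_add, C.JJ]; exact add_selfV F _)
      (by rw [map_add, C.cJ, hz, map_zero, add_zero, add_zero]) (by
        obtain ⟨y, hy⟩ := hbR'
        rw [← hy, C.cs, map_add, C.cJ, hz, map_zero, add_zero, add_zero, map_zero]) hbne
    refine ⟨α, β, ?_⟩
    rw [← hα, ← hβ, add_comm z, ← add_assoc, add_selfV F, zero_add]
  -- `l` is odd
  obtain ⟨j, hj⟩ : ∃ j, l = 2 * j + 1 := by
    obtain ⟨i, hi | hi⟩ := Nat.even_or_odd' l
    · exfalso
      obtain ⟨v, hv⟩ : ∃ v, v = ya + (y2 + yb) := ⟨_, rfl⟩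
      have hvl : (c ^ l) v = a0 + b := by rw [hv, map_add, ha0R, hbR]
      have h1 : S.B v (a0 + b) = 0 := by rw [← hvl]; exact C.ca_pow l v
      have h2 : S.B v a0 = 0 := by
        have h3 : S.B v (J ((c ^ l) v)) = 0 := by rw [hi]; exact C.alt_Jpow i v
        rwa [hvl, map_add, hJa0, hJb, add_zero] at h3
      have h3 : S.B v b = 0 := by rwa [map_add, h2, zero_add] at h1
      obtain ⟨z, hz⟩ := S.mem_range c C.cs (x := v) (by
        intro y hy
        obtain ⟨α, β, rfl⟩ := hker0 y hy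
        rw [map_add, map_smul, map_smul, h2, h3]; simp)
      have h4 : a0 + b = 0 := by
        rw [← hvl, ← hz, ← pow_app_succ]
        exact C.pow_zero_of_le hl1 le_rfl z
      have h5 := congrArg J h4
      rw [map_add, hJa0, hJb, add_zero, map_zero] at h5
      exact ha0ne h5
    · exact ⟨i, hi⟩
  -- preimages
  obtain ⟨vX, hJvX, hvXl⟩ : ∃ v, J v = v ∧ (c ^ l) v = b := by
    refine ⟨J (y2 + yb), C.JJ _, ?_⟩
    have h1 := (C.cJ_pow j (y2 + yb)).2
    rw [← hj, hbR, hJb, zero_add] at h1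
    exact h1
  obtain ⟨vY0, hJvY0, hvY0l⟩ : ∃ v, J v = 0 ∧ (c ^ l) v = a0 := by
    refine ⟨ya + J ya, ?_, ?_⟩
    · rw [map_add, C.JJ]; exact add_selfV F _
    · have h1 := (C.cJ_pow j ya).2
      rw [← hj, ha0R, hJa0, add_selfV F] at h1
      rw [map_add, h1, add_zero, ha0R]
  have hvXb : S.B vX b = 0 := hXY vX b hJvX hJb
  have hBne : S.B vX a0 ≠ 0 := by
    intro h
    obtain ⟨z, hz⟩ := S.mem_range c C.cs (x := vX) (by
      intro y hy
      obtain ⟨α, β, rfl⟩ := hker0 y hy
      rw [map_add, map_smul, map_smul, h, hvXb]; simp)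
    apply hbne
    rw [← hvXl, ← hz, ← pow_app_succ]
    exact C.pow_zero_of_le hl1 le_rfl z
  -- normalisation
  obtain ⟨a, ha⟩ : ∃ a, a = (S.B vX a0)⁻¹ • a0 := ⟨_, rfl⟩
  obtain ⟨vY, hvY⟩ : ∃ v, v = (S.B vX a0)⁻¹ • vY0 := ⟨_, rfl⟩
  have hJa : J a = a := by rw [ha, map_smul, hJa0]
  have hca : c a = 0 := by rw [ha, map_smul, hca0, smul_zero]
  have hane : a ≠ 0 := by rw [ha]; exact smul_ne_zero (inv_ne_zero hBne) ha0ne
  have hJvY : J vY = 0 := by rw [hvY, map_smul, hJvY0, smul_zero]
  have hvYl : (c ^ l) vY = a := by rw [hvY, map_smul, hvY0l, ha]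
  have hvXa : S.B vX a = 1 := by
    rw [ha, map_smul, smul_eq_mul, inv_mul_cancel₀ hBne]
  have hker : ∀ z, c z = 0 → ∃ α β : F, z = α • a + β • b := by
    intro z hz
    obtain ⟨α, β, h⟩ := hker0 z hz
    refine ⟨α * S.B vX a0, β, ?_⟩
    rw [h, ha, smul_smul, mul_assoc, mul_inv_cancel₀ hBne, mul_one]
  clear hker0 hvY ha hvY0l hJvY0 ha0 hb hya hyb ha0R hBne hca0 hJa0
  have hvYa : S.B vY a = 0 := by rw [S.symm]; exact hXY a vY hJa hJvY
  have hvYb : S.B vY b = 1 := by
    rw [← hvXl, ← C.cs_pow, hvYl, S.symm]; exact hvXa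
  have hQa : S.Q a = 0 := hX a hJa hca
  have hab : S.B a b = 0 := hXY a b hJa hJb
  have hba : S.B b a = 0 := by rw [S.symm]; exact hab
  have hbind : ∀ t : F, b ≠ t • a := by
    intro t ht
    have h1 := congrArg J ht
    rw [map_smul, hJa, hJb, ← ht] at h1
    exact hbne h1.symm
  have hdec : ∀ x, ∃ z, x = S.B x a • vX + S.B x b • vY + c z := by
    intro x
    obtain ⟨z, hz⟩ := S.mem_range c C.cs (x := x + S.B x a • vX + S.B x b • vY) (by
      intro y hy
      obtain ⟨α, β, rfl⟩ := hker y hy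
      simp only [map_add, map_smul, LinearMap.add_apply, LinearMap.smul_apply, smul_eq_mul,
        hvXa, hvXb, hvYa, hvYb]
      linear_combination (norm := (ring_nf; reduce_mod_char!)) (0 : F))
    refine ⟨z, ?_⟩
    rw [hz]
    match_scalars <;> (ring_nf; try reduce_mod_char!)
  -- ranges and kernels
  have hkspan : LinearMap.ker c = Submodule.span F {a, b} := by
    ext z
    rw [LinearMap.mem_ker, Submodule.mem_span_pair]
    constructor
    · intro hz
      obtain ⟨α, β, h⟩ := hker z hz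
      exact ⟨α, β, h.symm⟩
    · rintro ⟨α, β, rfl⟩
      rw [map_add, map_smul, map_smul, hca, hcb]; simp
  have hk2 : finrank F (LinearMap.ker c) = 2 := by
    rw [hkspan]; exact finrank_span_pair_of_ind hane hbind
  have hRspan : LinearMap.range (c ^ l) = LinearMap.ker c := by
    apply le_antisymm
    · rintro _ ⟨x, rfl⟩
      exact hcl x
    · intro z hz
      obtain ⟨α, β, h⟩ := hker z hz
      refine ⟨α • vY + β • vX, ?_⟩
      rw [map_add, map_smul, map_smul, hvYl, hvXl, h]
  rcases Nat.eq_zero_or_pos j with hj0 | hjpos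
  · -- dimension four
    have hl1' : l = 1 := by rw [hj, hj0]
    have hcc : c ^ l = c := by rw [hl1', pow_one]
    have h1 := LinearMap.finrank_range_add_finrank_ker c
    rw [hcc] at hRspan
    rw [hRspan, hk2] at h1
    have h2 := LinearMap.finrank_range_add_finrank_ker J
    have hX2 : 2 ≤ finrank F (LinearMap.range J) := by
      have h3 : Submodule.span F ({a, vX} : Set V) ≤ LinearMap.range J := by
        rw [Submodule.span_le]
        rintro x (rfl | rfl)
        · exact ⟨_, hJa⟩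
        · exact ⟨_, hJvX⟩
      have h4 := Submodule.finrank_mono h3
      rwa [finrank_span_pair_of_ind hane (by
        intro t ht
        rw [ht, map_smul, LinearMap.smul_apply, S.self, smul_zero] at hvXa
        exact zero_ne_one hvXa)] at h4
    have hY2 : 2 ≤ finrank F (LinearMap.ker J) := by
      have h3 : Submodule.span F ({b, vY} : Set V) ≤ LinearMap.ker J := by
        rw [Submodule.span_le]
        rintro x (rfl | rfl)
        · exact hJb
        · exact hJvY
      have h4 := Submodule.finrank_mono h3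
      rwa [finrank_span_pair_of_ind hbne (by
        intro t ht
        rw [ht, map_smul, LinearMap.smul_apply, S.self, smul_zero] at hvYb
        exact zero_ne_one hvYb)] at h4
    refine ⟨F ∙ a, ?_, ?_, ?_⟩
    · rw [Submodule.span_singleton_le_iff_mem]
      exact ⟨a, hJa⟩
    · intro x hx
      rw [Submodule.mem_span_singleton] at hx
      obtain ⟨t, rfl⟩ := hx
      rw [S.smul, hQa, mul_zero]
    · rw [finrank_span_singleton hane]
      omega
  exfalso
  obtain ⟨i, hi⟩ := Nat.exists_eq_succ_of_ne_zero hjpos.ne'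
  set g := c ^ (2 * j) with hg
  have hgJ : ∀ x, g (J x) = J (g x) := fun x => (C.cJ_pow j x).1
  have hgs : ∀ x y, S.B (g x) y = S.B x (g y) := C.cs_pow (2 * j)
  have hgc : ∀ x, g (c x) = c (g x) := by
    intro x; rw [hg, ← pow_app_succ, ← pow_app_succ']
  have hcg : ∀ x, c (g x) = (c ^ l) x := by
    intro x; rw [hg, ← pow_app_succ', ← hj]
  have hgg : ∀ x, g (g x) = 0 := by
    intro x
    rw [hg, ← pow_app_add]
    exact C.pow_zero_of_le hl1 (by omega) x
  have hga : g a = 0 := by
    rw [← hvYl, hg, ← pow_app_add]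
    exact C.pow_zero_of_le hl1 (by omega) _
  have hgb : g b = 0 := by
    rw [← hvXl, hg, ← pow_app_add]
    exact C.pow_zero_of_le hl1 (by omega) _
  have hxgx : ∀ x, S.B x (g x) = 0 := C.ca_pow (2 * j)
  obtain ⟨e, he⟩ : ∃ e, e = g vX := ⟨_, rfl⟩
  obtain ⟨f, hf⟩ : ∃ f, f = g vY := ⟨_, rfl⟩
  have hce : c e = b := by rw [he, hcg, hvXl]
  have hcf : c f = a := by rw [hf, hcg, hvYl]
  have hJe : J e = e := by rw [he, ← hgJ, hJvX]
  have hJf : J f = 0 := by rw [hf, ← hgJ, hJvY, map_zero]
  have hea : S.B e a = 0 := by rw [he, hgs, hga, map_zero]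
  have hfb : S.B f b = 0 := by rw [hf, hgs, hgb, map_zero]
  have hbf : S.B b f = 0 := by rw [S.symm]; exact hfb
  by_cases hQb : S.Q b = 0
  · -- both kernel vectors are singular
    let M : V →ₗ[F] V := g + (S.Q e • S.B.flip a).smulRight a + (S.Q f • S.B.flip b).smulRight b
    have hM : ∀ x, M x = g x + (S.Q e * S.B x a) • a + (S.Q f * S.B x b) • b := by
      intro x
      simp [M]
    have hsq : SqZ S J c M := by
      refine ⟨?_, ?_, ?_, ?_⟩
      · intro x
        rw [hM (M x), hM x]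
        simp only [map_add, map_smul, LinearMap.add_apply, LinearMap.smul_apply, hgg, hga, hgb,
          hgs, hab, hba, S.self]
        simp
      · intro x
        rw [hM, hM, C.Js, C.Js, hJa, hJb, hgJ]
        simp only [map_add, map_smul, hJa, hJb, map_zero]
        module
      · intro x
        rw [hM, hM, C.cs, C.cs, hca, hcb, hgc]
        simp [hca, hcb]
      · intro x
        obtain ⟨z, hz⟩ := hdec x
        have h1 : ∃ α β : F, g x = S.B x a • e + S.B x b • f + (α • a + β • b) := by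
          obtain ⟨α, β, h⟩ := hker ((c ^ l) z) (hcl z)
          refine ⟨α, β, ?_⟩
          rw [← h]
          conv_lhs => rw [hz]
          rw [map_add, map_add, map_smul, map_smul, hgc, hcg, he, hf]
        obtain ⟨α, β, h1⟩ := h1
        have hefo : S.B e f = 0 := hXY e f hJe hJf
        have heb : S.B e b = 0 := hXY e b hJe hJb
        have hfa : S.B f a = 0 := by rw [S.symm]; exact hXY a f hJa hJf
        have h2 : S.Q (g x) = (S.B x a) ^ 2 * S.Q e + (S.B x b) ^ 2 * S.Q f := by
          rw [h1, S.add, S.add, S.add]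
          simp only [S.smul, map_add, map_smul, LinearMap.add_apply, LinearMap.smul_apply,
            smul_eq_mul, hQa, hQb, hefo, heb, hea, hfa, hfb, hab]
          ring
        have hgxa : S.B (g x) a = 0 := by rw [hgs, hga, map_zero]
        have hgxb : S.B (g x) b = 0 := by rw [hgs, hgb, map_zero]
        rw [hM, S.add, S.add, S.add]
        simp only [S.smul, map_add, map_smul, LinearMap.add_apply, LinearMap.smul_apply,
          smul_eq_mul, hQa, hQb, hgxa, hgxb, hab, hxgx, h2]
        linear_combination (norm := (ring_nf; reduce_mod_char!)) (0 : F)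
    have hkerM : ∀ x, M x = 0 ↔ g x = 0 := by
      intro x
      have key : (c ^ l) x = 0 → S.B x a = 0 ∧ S.B x b = 0 := by
        intro h
        constructor
        · rw [← hvYl, ← C.cs_pow, h, map_zero, LinearMap.zero_apply]
        · rw [← hvXl, ← C.cs_pow, h, map_zero, LinearMap.zero_apply]
      constructor
      · intro h
        have h1 : (c ^ l) x = 0 := by
          have h2 := congrArg c h
          rw [hM, map_add, map_add, map_smul, map_smul, hca, hcb, smul_zero, smul_zero, add_zero,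
            add_zero, map_zero, hcg] at h2
          exact h2
        obtain ⟨h3, h4⟩ := key h1
        rw [hM, h3, h4] at h
        simpa using h
      · intro h
        have h1 : (c ^ l) x = 0 := by rw [← hcg, h, map_zero]
        obtain ⟨h3, h4⟩ := key h1
        rw [hM, h3, h4, h]; simp
    have hkM : LinearMap.ker M = LinearMap.ker g := by
      ext x
      rw [LinearMap.mem_ker, LinearMap.mem_ker, hkerM]
    have hrg : finrank F (LinearMap.range g) = 4 := by
      have h1 := LinearMap.finrank_range_add_finrank_ker (c.domRestrict (LinearMap.range g))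
      have h2 : LinearMap.range (c.domRestrict (LinearMap.range g)) = LinearMap.range (c ^ l) := by
        ext y
        constructor
        · rintro ⟨⟨_, x, rfl⟩, rfl⟩
          exact ⟨x, (hcg x).symm⟩
        · rintro ⟨x, rfl⟩
          exact ⟨⟨g x, x, rfl⟩, hcg x⟩
      have h3 : (LinearMap.ker (c.domRestrict (LinearMap.range g))).map
          (LinearMap.range g).subtype = LinearMap.ker c := by
        ext y
        constructor
        · rintro ⟨z, hz, rfl⟩
          exact hz
        · intro hy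
          have hy' : y ∈ LinearMap.range (c ^ l) := by rw [hRspan]; exact hy
          obtain ⟨x, hx⟩ := hy'
          have hy2 : y ∈ LinearMap.range g := ⟨c x, by rw [hgc, hcg, hx]⟩
          exact ⟨⟨y, hy2⟩, hy, rfl⟩
      rw [h2, hRspan, hk2] at h1
      rw [← Submodule.finrank_map_subtype_eq, h3, hk2] at h1
      exact h1.symm
    have hrM : finrank F (LinearMap.range M) = 4 := by
      have h1 := LinearMap.finrank_range_add_finrank_ker M
      have h2 := LinearMap.finrank_range_add_finrank_ker g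
      rw [hkM] at h1
      omega
    have h0 := C1 M hsq (by rw [hrM]; decide)
    rw [h0, LinearMap.range_zero, finrank_bot] at hrM
    omega
  · -- `b` is nonsingular
    obtain ⟨u, hu⟩ : ∃ u, u = (c ^ (2 * i + 1)) vY := ⟨_, rfl⟩
    have hcu : c u = f := by
      rw [hu, ← pow_app_succ', hf, hg, hi]; rfl
    have hJu : J u = u := by
      have h1 := (C.cJ_pow i vY).2
      rw [hJvY, map_zero] at h1
      rw [hu]
      exact eq_of_add_eq_zeroV F h1.symm
    have hua : S.B u a = 0 := by
      rw [hu, ← hvYl, C.cs_pow, ← pow_app_add]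
      exact C.ca_pow _ _
    obtain ⟨p, hp⟩ : ∃ p : F, p ^ 2 = (1 + S.Q f) / S.Q b := ⟨_, rt_sq _⟩
    obtain ⟨u1, hu1⟩ : ∃ u1, u1 = u + p • e := ⟨_, rfl⟩
    obtain ⟨γ, hγ⟩ : ∃ γ : F, γ = S.Q f / S.Q b := ⟨_, rfl⟩
    have hcu1 : c u1 = f + p • b := by rw [hu1, map_add, map_smul, hcu, hce]
    have hJu1 : J u1 = u1 := by rw [hu1, map_add, map_smul, hJu, hJe]
    have hu1a : S.B u1 a = 0 := by
      rw [hu1, map_add, map_smul, LinearMap.add_apply, LinearMap.smul_apply, hua, hea]; simp
    have hau1 : S.B a u1 = 0 := by rw [S.symm]; exact hu1a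
    have hu1f : S.B u1 f = 0 := hXY u1 f hJu1 hJf
    have hu1b : S.B u1 b = 0 := hXY u1 b hJu1 hJb
    have hfu1 : S.B f u1 = 0 := by rw [S.symm]; exact hu1f
    have hbu1 : S.B b u1 = 0 := by rw [S.symm]; exact hu1b
    have haf : S.B a f = 0 := hXY a f hJa hJf
    have hfa : S.B f a = 0 := by rw [S.symm]; exact haf
    let M : V →ₗ[F] V := (S.B.flip a).smulRight (u1 + S.Q u1 • a) + (S.B.flip u1).smulRight a +
      (S.B.flip f).smulRight (f + p • b) + (S.B.flip b).smulRight (p • f + γ • b)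
    have hM : ∀ x, M x = S.B x a • (u1 + S.Q u1 • a) + S.B x u1 • a + S.B x f • (f + p • b)
        + S.B x b • (p • f + γ • b) := by
      intro x
      simp [M]
    have hsq : SqZ S J c M := by
      refine ⟨?_, ?_, ?_, ?_⟩
      · intro x
        rw [hM (M x), hM x]
        simp only [map_add, map_smul, LinearMap.add_apply, LinearMap.smul_apply, smul_eq_mul,
          S.self, hab, hba, hau1, hu1a, hu1f, hu1b, hfu1, hbu1, haf, hfa, hfb, hbf]
        simp
      · intro x
        rw [hM, hM, C.Js, C.Js, C.Js, C.Js, hJa, hJb, hJf, hJu1]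
        simp only [map_add, map_smul, hJa, hJb, hJf, hJu1, map_zero, smul_zero, zero_smul,
          add_zero]
      · intro x
        rw [hM, hM, C.cs, C.cs, C.cs, C.cs, hca, hcb, hcf, hcu1]
        simp only [map_add, map_smul, hca, hcb, hcf, hcu1, map_zero, smul_zero, zero_smul,
          add_zero, zero_add, smul_eq_mul]
        module
      · intro x
        rw [hM, S.add, S.add, S.add, S.add]
        simp only [S.add, S.smul, map_add, map_smul, LinearMap.add_apply, LinearMap.smul_apply,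
          smul_eq_mul, S.self, hab, hba, hau1, hu1a, hu1f, hu1b, hfu1, hbu1, haf, hfa, hfb, hbf,
          hQa]
        have h1 : S.Q f + p ^ 2 * S.Q b = 1 := by
          rw [hp]
          field_simp
          linear_combination (norm := (ring_nf; reduce_mod_char!)) (0 : F)
        have h2 : p ^ 2 * S.Q f + γ ^ 2 * S.Q b = γ := by
          rw [hp, hγ]
          field_simp
          linear_combination (norm := (ring_nf; reduce_mod_char!)) (0 : F)
        linear_combination (norm := (ring_nf; reduce_mod_char!))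
          (S.B x f) ^ 2 * h1 + (S.B x b) ^ 2 * h2
    have h1 := C2 M hsq b hJb hcb hQb vX hvXb
    rw [hM, hvXa, hvXb, hXY vX f hJvX hJf] at h1
    have h2 := congrArg (fun y => c (c y)) h1
    simp only [map_add, map_smul, hca, hcb, hcf, hcu1, map_zero, smul_zero, zero_smul, add_zero,
      one_smul] at h2
    exact hane h2

end Sw

end Pool.Agent.OmegaEven
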