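import Mathlib
import Pool.Agent.OmegaEven.Nil

set_option autoImplicit false
set_option linter.unusedSectionVars false
set_option linter.unusedVariables false
set_option linter.unnecessarySeqFocus false
set_option linter.style.haveILetI false
set_option linter.unusedSimpArgs false

namespace Pool.Agent.OmegaEven

open Module

variable {F V : Type*} [Field F] [CharP F 2] [AddCommGroup V] [Module F V]

/-- nonsingular vectors whose reflection commutes with both projections -/
def NS (S : QSp F V) (J J' : V →ₗ[F] V) (p : V) : Prop :=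
  S.Q p ≠ 0 ∧ (J p = p ∨ J p = 0) ∧ (J' p = p ∨ J' p = 0)

/-- the range of `J` contains a totally singular subspace of half dimension -/
def HalfX (S : QSp F V) (J : V →ₗ[F] V) : Prop :=
  ∃ U : Submodule F V, U ≤ LinearMap.range J ∧ (∀ x ∈ U, S.Q x = 0) ∧
    2 * finrank F U = finrank F (LinearMap.range J)

theorem even_rank_c [FiniteDimensional F V] {J c M : V →ₗ[F] V} (hJJ : ∀ x, J (J x) = J x)
    (hcJ : ∀ x, c (J x) = J (c x) + c x) (hc : Function.Injective c)
    (hMJ : ∀ x, M (J x) = J (M x)) (hMc : ∀ x, M (c x) = c (M x)) :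
    Even (finrank F (LinearMap.range M)) := by
  set A := LinearMap.range (J ∘ₗ M) with hA
  set B := LinearMap.range ((LinearMap.id + J) ∘ₗ M) with hB
  have hBa : ∀ x, ((LinearMap.id + J) ∘ₗ M : V →ₗ[F] V) x = M x + J (M x) := fun x => rfl
  have hcA : A.map c ≤ B := by
    rintro _ ⟨_, ⟨x, rfl⟩, rfl⟩
    refine ⟨c x, ?_⟩
    rw [hBa, hMc, LinearMap.comp_apply, hcJ, add_comm]
  have hcB : B.map c ≤ A := by
    rintro _ ⟨_, ⟨x, rfl⟩, rfl⟩
    refine ⟨c x, ?_⟩
    rw [hBa, map_add, hcJ, LinearMap.comp_apply, hMc]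
    have := add_selfV F (c (M x))
    linear_combination (norm := module) -(this)
  have h1 := Submodule.finrank_mono hcA
  have h2 := Submodule.finrank_mono hcB
  have h3 : finrank F (A.map c) = finrank F A :=
    (Submodule.equivMapOfInjective c hc A).finrank_eq.symm
  have h4 : finrank F (B.map c) = finrank F B :=
    (Submodule.equivMapOfInjective c hc B).finrank_eq.symm
  have hsup : A ⊔ B = LinearMap.range M := by
    apply le_antisymm
    · rw [sup_le_iff]
      constructor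
      · rintro _ ⟨x, rfl⟩
        exact ⟨J x, by rw [hMJ]; rfl⟩
      · rintro _ ⟨x, rfl⟩
        exact ⟨x + J x, by rw [map_add, hMJ]; rfl⟩
    · rintro _ ⟨x, rfl⟩
      rw [Submodule.mem_sup]
      refine ⟨J (M x), ⟨x, rfl⟩, M x + J (M x), ⟨x, rfl⟩, ?_⟩
      rw [add_comm (M x), ← add_assoc, add_selfV F, zero_add]
  have hinf : A ⊓ B = ⊥ := by
    rw [eq_bot_iff]
    rintro y ⟨⟨x, hx⟩, ⟨z, hz⟩⟩
    rw [LinearMap.comp_apply] at hx
    rw [hBa] at hz
    have h5 : J y = y := by rw [← hx, hJJ]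
    have h6 : J y = 0 := by rw [← hz, map_add, hJJ]; exact add_selfV F _
    rw [Submodule.mem_bot, ← h5, h6]
  have h5 := Submodule.finrank_sup_add_finrank_inf_eq A B
  rw [hsup, hinf, finrank_bot, add_zero] at h5
  exact ⟨finrank F A, by omega⟩

/-- totally singular subspaces of the range of a self-adjoint idempotent -/
theorem ts_bound [FiniteDimensional F V] (S : QSp F V) {J : V →ₗ[F] V}
    (hJJ : ∀ x, J (J x) = J x) (hJs : ∀ x y, S.B (J x) y = S.B x (J y)) {W : Submodule F V}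
    (hW : W ≤ LinearMap.range J) (hQ : ∀ x ∈ W, S.Q x = 0) :
    2 * finrank F W ≤ finrank F (LinearMap.range J) := by
  have hle : W ⊔ LinearMap.ker J ≤ S.perp W := by
    rw [sup_le_iff]
    constructor
    · intro x hx w hw
      have h1 := S.add x w
      rw [hQ x hx, hQ w hw, hQ _ (W.add_mem hx hw)] at h1
      simpa using h1.symm
    · intro x hx w hw
      obtain ⟨y, rfl⟩ := hW hw
      rw [← hJs, LinearMap.mem_ker.1 hx, map_zero, LinearMap.zero_apply]
  have hinf : W ⊓ LinearMap.ker J = ⊥ := by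
    rw [eq_bot_iff]
    rintro x ⟨h1, h2⟩
    obtain ⟨y, rfl⟩ := hW h1
    have h3 : J (J y) = 0 := h2
    rw [hJJ] at h3
    rw [Submodule.mem_bot, h3]
  have h1 := Submodule.finrank_mono hle
  have h2 := Submodule.finrank_sup_add_finrank_inf_eq W (LinearMap.ker J)
  rw [hinf, finrank_bot, add_zero] at h2
  have h3 := S.finrank_perp W
  have h4 := LinearMap.finrank_range_add_finrank_ker J
  omega

theorem HalfX_of_HalfJ [FiniteDimensional F V] {S : QSp F V} {J : V →ₗ[F] V}
    (hJJ : ∀ x, J (J x) = J x) (hJs : ∀ x y, S.B (J x) y = S.B x (J y)) (h : HalfJ S J) :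
    HalfX S J := by
  obtain ⟨U, hUJ, hUQ, hU⟩ := h
  have hg : ∀ x, (LinearMap.id + J : V →ₗ[F] V) x = x + J x := fun x => rfl
  have hX : U.map J ≤ LinearMap.range J := LinearMap.map_le_range
  have hXQ : ∀ x ∈ U.map J, S.Q x = 0 := by
    rintro _ ⟨x, hx, rfl⟩
    exact hUQ _ (hUJ x hx)
  have hY : U.map (LinearMap.id + J) ≤ LinearMap.range (LinearMap.id + J) :=
    LinearMap.map_le_range
  have hYQ : ∀ x ∈ U.map (LinearMap.id + J), S.Q x = 0 := by
    rintro _ ⟨x, hx, rfl⟩
    exact hUQ _ (U.add_mem hx (hUJ x hx))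
  have b1 := ts_bound S hJJ hJs hX hXQ
  have b2 := ts_bound S (J := LinearMap.id + J) (by
    intro x
    rw [hg, hg, map_add, hJJ, add_selfV F, add_zero]) (by
    intro x y
    rw [hg, hg, map_add, map_add, LinearMap.add_apply, hJs]) hY hYQ
  have h3 : LinearMap.range (LinearMap.id + J : V →ₗ[F] V) = LinearMap.ker J := by
    ext x
    constructor
    · rintro ⟨y, rfl⟩
      rw [LinearMap.mem_ker, hg, map_add, hJJ]
      exact add_selfV F _
    · intro hx
      refine ⟨x, ?_⟩
      rw [hg, LinearMap.mem_ker.1 hx, add_zero]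
  rw [h3] at b2
  have h4 := LinearMap.finrank_range_add_finrank_ker J
  have h5 : U ≤ U.map J ⊔ U.map (LinearMap.id + J) := by
    intro x hx
    rw [Submodule.mem_sup]
    refine ⟨J x, ⟨x, hx, rfl⟩, x + J x, ⟨x, hx, rfl⟩, ?_⟩
    rw [add_comm x, ← add_assoc, add_selfV F, zero_add]
  have h6 := Submodule.finrank_mono h5
  have h7 := Submodule.finrank_add_le_finrank_add_finrank (U.map J) (U.map (LinearMap.id + J))
  exact ⟨U.map J, hX, hXQ, by omega⟩

/-- commuting with `N + N^2` for nilpotent `N` -/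
theorem comm_of_comm_sq [Nontrivial V] {M N : V →ₗ[F] V} (hN : ∃ k : ℕ, N ^ k = 0)
    (h : ∀ x, M (N x + N (N x)) = N (M x) + N (N (M x))) : ∀ x, M (N x) = N (M x) := by
  obtain ⟨k, hk⟩ := hN
  haveI : CharP (Module.End F V) 2 :=
    charP_of_injective_algebraMap (algebraMap F (Module.End F V)).injective 2
  have hc : Commute M (N + N ^ 2 : Module.End F V) := by
    ext x
    exact h x
  have key : ∀ i : ℕ, Commute M (N + N ^ (2 ^ i) : Module.End F V) := by
    intro i
    induction i with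
    | zero =>
      have : (N + N ^ (2 ^ 0) : Module.End F V) = 0 := by
        rw [pow_zero, pow_one]
        ext x
        exact add_selfV F (N x)
      rw [this]
      exact Commute.zero_right M
    | succ i ih =>
      have h1 : (N + N ^ (2 ^ (i + 1)) : Module.End F V) =
          (N + N ^ (2 ^ i)) + (N + N ^ 2) ^ (2 ^ i) := by
        rw [add_pow_char_pow_of_commute 2 i (Commute.pow_right (Commute.refl N) 2), ← pow_mul,
          ← pow_succ']
        have h2 : (N ^ 2 ^ i + N ^ 2 ^ i : Module.End F V) = 0 := by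
          ext x
          exact add_selfV F _
        rw [add_assoc, ← add_assoc (N ^ 2 ^ i), h2, zero_add]
      rw [h1]
      exact ih.add_right (hc.pow_right _)
  have h2 := key k
  have h3 : (N ^ (2 ^ k) : Module.End F V) = 0 := by
    have h4 : k ≤ 2 ^ k := Nat.lt_two_pow_self.le
    obtain ⟨i, hi⟩ := Nat.exists_eq_add_of_le h4
    rw [hi, pow_add, hk, zero_mul]
  rw [h3, add_zero] at h2
  intro x
  exact LinearMap.congr_fun h2 x

/-- the kernel of `N + N^2` for nilpotent `N` -/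
theorem ker_of_ker_sq {N : V →ₗ[F] V} (hN : ∃ k : ℕ, N ^ k = 0) {x : V}
    (h : N x + N (N x) = 0) : N x = 0 := by
  obtain ⟨k, hk⟩ := hN
  have h1 : N (N x) = N x := (eq_of_add_eq_zeroV F h).symm
  have h2 : ∀ j : ℕ, (N ^ (j + 1)) x = N x := by
    intro j
    induction j with
    | zero => rw [pow_app_succ]; rfl
    | succ j ih => rw [pow_app_succ', ih, h1]
  have h3 := h2 k
  rw [pow_app_succ', hk] at h3
  rw [← h3, LinearMap.zero_apply, map_zero]

/-- transfer of the two conditions to the range of an idempotent -/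
theorem piece_conds [FiniteDimensional F V] {S : QSp F V} {J J' : V →ₗ[F] V}
    (C1 : ∀ M : V →ₗ[F] V, SqZ S J J' M → Even (finrank F (LinearMap.range M)) → M = 0)
    (C2 : ∀ M : V →ₗ[F] V, SqZ S J J' M → ∀ b, NS S J J' b → ∀ x, S.B x b = 0 → M x = 0)
    (f : V →ₗ[F] V) (hf : ∀ x, f (f x) = f x)
    (hs : ∀ x y, S.B (f x) y = S.B x (f y)) (hfJ : ∀ x, f (J x) = J (f x))
    (hfJ' : ∀ x, f (J' x) = J' (f x)) (hJm : ∀ x ∈ LinearMap.range f, J x ∈ LinearMap.range f)
    (hJm' : ∀ x ∈ LinearMap.range f, J' x ∈ LinearMap.range f) :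
    (∀ M : LinearMap.range f →ₗ[F] LinearMap.range f,
      SqZ (S.restr f hf hs) (J.restrict hJm) (J'.restrict hJm') M →
      Even (finrank F (LinearMap.range M)) → M = 0) ∧
    (∀ M : LinearMap.range f →ₗ[F] LinearMap.range f,
      SqZ (S.restr f hf hs) (J.restrict hJm) (J'.restrict hJm') M →
      ∀ b, NS (S.restr f hf hs) (J.restrict hJm) (J'.restrict hJm') b →
      ∀ x, (S.restr f hf hs).B x b = 0 → M x = 0) := by
  constructor
  · intro M hM hev
    obtain ⟨g1, g2, g3, g4, g5, g6⟩ := extz_prop f hf hs hfJ hfJ' hJm hJm' M hM.1 hM.2.1 hM.2.2.1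
      hM.2.2.2
    have h1 := C1 (extz f M) ⟨g2, g3, g4, g5⟩ (by
      rw [g6, Submodule.finrank_map_subtype_eq]; exact hev)
    ext x
    rw [← g1 x, h1]; rfl
  · intro M hM b hb x hx
    obtain ⟨g1, g2, g3, g4, g5, g6⟩ := extz_prop f hf hs hfJ hfJ' hJm hJm' M hM.1 hM.2.1 hM.2.2.1
      hM.2.2.2
    have h1 := C2 (extz f M) ⟨g2, g3, g4, g5⟩ b.1 ⟨hb.1, ?_, ?_⟩ x.1 hx
    · apply Subtype.ext
      rw [← g1 x, h1]; rfl
    · rcases hb.2.1 with h | h
      · exact Or.inl (congrArg Subtype.val h)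
      · exact Or.inr (congrArg Subtype.val h)
    · rcases hb.2.2 with h | h
      · exact Or.inl (congrArg Subtype.val h)
      · exact Or.inr (congrArg Subtype.val h)

/-- combination of two pieces -/
theorem HalfX_combine [FiniteDimensional F V] {S : QSp F V} {J : V →ₗ[F] V}
    (f g : V →ₗ[F] V) (hf : ∀ x, f (f x) = f x) (hg : ∀ x, g x = x + f x)
    (hs : ∀ x y, S.B (f x) y = S.B x (f y)) (hgg : ∀ x, g (g x) = g x)
    (hgs : ∀ x y, S.B (g x) y = S.B x (g y)) (hfJ : ∀ x, f (J x) = J (f x))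
    (hJm : ∀ x ∈ LinearMap.range f, J x ∈ LinearMap.range f)
    (hJm' : ∀ x ∈ LinearMap.range g, J x ∈ LinearMap.range g)
    (h1 : HalfX (S.restr f hf hs) (J.restrict hJm))
    (h2 : HalfX (S.restr g hgg hgs) (J.restrict hJm')) : HalfX S J := by
  obtain ⟨U, hU, hUQ, hUd⟩ := h1
  obtain ⟨W, hW, hWQ, hWd⟩ := h2
  set U' := U.map (LinearMap.range f).subtype with hU'
  set W' := W.map (LinearMap.range g).subtype with hW'
  have hfg : ∀ x, f (g x) = 0 := by
    intro x
    rw [hg, map_add, hf]; exact add_selfV F _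
  have hfU : ∀ x ∈ U', f x = x := by
    rintro _ ⟨⟨_, x, rfl⟩, -, rfl⟩
    exact hf x
  have hfW : ∀ x ∈ W', f x = 0 := by
    rintro _ ⟨⟨_, x, rfl⟩, -, rfl⟩
    exact hfg x
  -- ranges
  have hR1 : LinearMap.range (J ∘ₗ f) = (LinearMap.range (J.restrict hJm)).map
      (LinearMap.range f).subtype := by
    ext y
    constructor
    · rintro ⟨x, rfl⟩
      exact ⟨J.restrict hJm ⟨f x, x, rfl⟩, ⟨_, rfl⟩, rfl⟩
    · rintro ⟨_, ⟨⟨_, x, rfl⟩, rfl⟩, rfl⟩
      exact ⟨x, rfl⟩
  have hR2 : LinearMap.range (J ∘ₗ g) = (LinearMap.range (J.restrict hJm')).map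
      (LinearMap.range g).subtype := by
    ext y
    constructor
    · rintro ⟨x, rfl⟩
      exact ⟨J.restrict hJm' ⟨g x, x, rfl⟩, ⟨_, rfl⟩, rfl⟩
    · rintro ⟨_, ⟨⟨_, x, rfl⟩, rfl⟩, rfl⟩
      exact ⟨x, rfl⟩
  have hsup : LinearMap.range (J ∘ₗ f) ⊔ LinearMap.range (J ∘ₗ g) = LinearMap.range J := by
    apply le_antisymm
    · rw [sup_le_iff]
      constructor
      · rintro _ ⟨x, rfl⟩
        exact ⟨_, rfl⟩
      · rintro _ ⟨x, rfl⟩
        exact ⟨_, rfl⟩
    · rintro _ ⟨x, rfl⟩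
      rw [Submodule.mem_sup]
      refine ⟨J (f x), ⟨x, rfl⟩, J (g x), ⟨x, rfl⟩, ?_⟩
      rw [← map_add, hg, add_comm x, ← add_assoc, add_selfV F, zero_add]
  have hinf : LinearMap.range (J ∘ₗ f) ⊓ LinearMap.range (J ∘ₗ g) = ⊥ := by
    rw [eq_bot_iff]
    rintro y ⟨⟨x, hx⟩, ⟨z, hz⟩⟩
    rw [LinearMap.comp_apply] at hx hz
    have h3 : f y = y := by rw [← hx, hfJ, hf]
    have h4 : f y = 0 := by rw [← hz, hfJ, hfg, map_zero]
    rw [Submodule.mem_bot, ← h3, h4]
  have hinf2 : U' ⊓ W' = ⊥ := by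
    rw [eq_bot_iff]
    rintro y ⟨h3, h4⟩
    rw [Submodule.mem_bot, ← hfU y h3, hfW y h4]
  have e1 := Submodule.finrank_sup_add_finrank_inf_eq (LinearMap.range (J ∘ₗ f))
    (LinearMap.range (J ∘ₗ g))
  have e2 := Submodule.finrank_sup_add_finrank_inf_eq U' W'
  rw [hsup, hinf, finrank_bot, add_zero, hR1, hR2, Submodule.finrank_map_subtype_eq,
    Submodule.finrank_map_subtype_eq] at e1
  rw [hinf2, finrank_bot, add_zero, hU', hW', Submodule.finrank_map_subtype_eq,
    Submodule.finrank_map_subtype_eq] at e2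
  refine ⟨U' ⊔ W', ?_, ?_, by rw [hU', hW']; omega⟩
  · rw [← hsup, hR1, hR2]
    exact sup_le_sup (Submodule.map_mono hU) (Submodule.map_mono hW)
  · intro x hx
    rw [Submodule.mem_sup] at hx
    obtain ⟨u, hu, w, hw, rfl⟩ := hx
    have h3 : S.B u w = 0 := by
      rw [← hfU u hu, hs, hfW w hw, map_zero]
    have h4 : S.Q u = 0 := by
      obtain ⟨y, hy, rfl⟩ := hu
      exact hUQ y hy
    have h5 : S.Q w = 0 := by
      obtain ⟨y, hy, rfl⟩ := hw
      exact hWQ y hy
    rw [S.add, h4, h5, h3]; simp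

end Pool.Agent.OmegaEven
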