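import Mathlib
import Pool.Agent.OmegaEven.Plus1

set_option autoImplicit false
set_option linter.unusedSectionVars false
set_option linter.unusedVariables false
set_option linter.unnecessarySeqFocus false
set_option linter.style.haveILetI false
set_option linter.unusedSimpArgs false

namespace Pool.Agent.OmegaEven

open Module

/-- the case where `N = J + J' + ε` is nilpotent -/
theorem z_nil {F V : Type*} [Field F] [CharP F 2] [PerfectRing F 2] [AddCommGroup V] [Module F V]
    [FiniteDimensional F V] [Nontrivial V] {S : QSp F V} {J J' : V →ₗ[F] V} (P : Pair S J J' 0)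
    (C1 : ∀ M : V →ₗ[F] V, SqZ S J J' M → Even (finrank F (LinearMap.range M)) → M = 0)
    (C2 : ∀ M : V →ₗ[F] V, SqZ S J J' M → ∀ b, NS S J J' b → ∀ x, S.B x b = 0 → M x = 0)
    (ε : F) (hε : ε = 0 ∨ ε = 1)
    (hN : ∃ k : ℕ, ((J + J' + ε • LinearMap.id : V →ₗ[F] V)) ^ k = 0) :
    HalfX S J ∨ ∃ p, NS S J J' p ∧ J p = p := by
  by_cases hp : ∃ p, NS S J J' p ∧ J p = p
  · exact Or.inr hp
  left
  push Not at hp
  set N : V →ₗ[F] V := J + J' + ε • LinearMap.id with hNdef
  have hNa : ∀ x, N x = J x + J' x + ε • x := fun x => rfl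
  have hεε : ε * ε = ε := by rcases hε with h | h <;> rw [h] <;> simp
  have hJJ : ∀ x, J (J x) = J x := by
    intro x; rw [P.JJ, zero_smul, add_zero]
  have hJJ' : ∀ x, J' (J' x) = J' x := by
    intro x; rw [P.JJ', zero_smul, add_zero]
  have hNs : ∀ x y, S.B (N x) y = S.B x (N y) := by
    intro x y
    rw [hNa, hNa]
    simp only [map_add, map_smul, LinearMap.add_apply, LinearMap.smul_apply, P.Js, P.Js']
  have hNa' : ∀ x, S.B (N x) x = 0 := by
    intro x
    rw [hNa]
    simp only [map_add, map_smul, LinearMap.add_apply, LinearMap.smul_apply, P.Ja, P.Ja', S.self,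
      smul_zero, add_zero]
  obtain ⟨c, hc⟩ : ∃ c : V →ₗ[F] V, c = N + N ^ 2 := ⟨_, rfl⟩
  have hca : ∀ x, c x = N x + N (N x) := by
    intro x; rw [hc]; rfl
  have hcc : ∀ x, c x = J (J' x) + J' (J x) := by
    intro x
    rw [hca]
    simp only [hNa, map_add, map_smul, hJJ, hJJ', smul_add, smul_smul, hεε]
    match_scalars <;> (ring_nf; try reduce_mod_char!)
  have C : Sw S J c := by
    refine ⟨hJJ, P.Js, ?_, ?_, ?_, ?_⟩
    · intro x y
      rw [hca, hca, map_add, map_add, LinearMap.add_apply, hNs, hNs, hNs]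
    · intro x
      rw [hca, map_add, LinearMap.add_apply, hNa', hNs, S.self, add_zero]
    · intro x
      rw [hcc, hcc, map_add, hJJ, hJJ]
      have := add_selfV F (J (J' x))
      linear_combination (norm := module) -(this)
    · obtain ⟨k, hk⟩ := hN
      refine ⟨k, ?_⟩
      have h1 : c = N * (1 + N) := by
        rw [hc, mul_add, mul_one, ← sq]
      have h2 : Commute N (1 + N) := (Commute.one_right N).add_right (Commute.refl N)
      rw [h1, h2.mul_pow, hk, zero_mul]
  have hJ'N : ∀ x, J' x = J x + N x + ε • x := by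
    intro x
    rw [hNa]
    match_scalars <;> (ring_nf; try reduce_mod_char!)
  have hker : ∀ x, c x = 0 → N x = 0 := by
    intro x hx
    rw [hca] at hx
    exact ker_of_ker_sq hN hx
  have hsq : ∀ M, SqZ S J c M → SqZ S J J' M := by
    rintro M ⟨h1, h2, h3, h4⟩
    refine ⟨h1, h2, ?_, h4⟩
    have h5 := comm_of_comm_sq (M := M) hN (by
      intro x
      have := h3 x
      rwa [hca, hca] at this)
    intro x
    rw [hJ'N, hJ'N, map_add, map_add, map_smul, h2, h5]
  refine C.nil_main (fun M hM hev => C1 M (hsq M hM) hev) ?_ ?_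
  · intro M hM b hJb hcb hQb x hx
    refine C2 M (hsq M hM) b ⟨hQb, Or.inr hJb, ?_⟩ x hx
    rw [hJ'N, hJb, hker b hcb, add_zero, zero_add]
    rcases hε with h | h
    · right; rw [h, zero_smul]
    · left; rw [h, one_smul]
  · intro a hJa hca'
    by_contra hQ
    refine hp a ⟨hQ, Or.inl hJa, ?_⟩ hJa
    rw [hJ'N, hJa, hker a hca', add_zero]
    rcases hε with h | h
    · left; rw [h, zero_smul, add_zero]
    · right; rw [h, one_smul]; exact add_selfV F a

theorem z_main {F : Type*} [Field F] [CharP F 2] [Finite F] :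
    ∀ (n : ℕ) (V : Type*) [AddCommGroup V] [Module F V]
    [FiniteDimensional F V] [Nontrivial V] (S : QSp F V) (J J' : V →ₗ[F] V),
    finrank F V = n → Pair S J J' 0 →
    (∀ M : V →ₗ[F] V, SqZ S J J' M → Even (finrank F (LinearMap.range M)) → M = 0) →
    (∀ M : V →ₗ[F] V, SqZ S J J' M → ∀ b, NS S J J' b → ∀ x, S.B x b = 0 → M x = 0) →
    HalfX S J ∨ ∃ p, NS S J J' p ∧ J p = p := by
  intro n
  induction n using Nat.strong_induction_on with
  | _ n ih =>
    intro V _ _ _ _ S J J' hn P C1 C2
    subst hn
    have hJJ : ∀ x, J (J x) = J x := by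
      intro x; rw [P.JJ, zero_smul, add_zero]
    have hJJ' : ∀ x, J' (J' x) = J' x := by
      intro x; rw [P.JJ', zero_smul, add_zero]
    rcases pair_cases P with ⟨f, hf, hs, hfJ, hfJ', h0, h1⟩ |
      ⟨R, _, _, _, _, _, hRs, hRJ, hRJ', k, c0, hc0, hgen⟩
    · by_cases hp : ∃ p, NS S J J' p ∧ J p = p
      · exact Or.inr hp
      left
      push Not at hp
      obtain ⟨g, hg⟩ : ∃ g : V →ₗ[F] V, g = LinearMap.id + f := ⟨_, rfl⟩
      have hga : ∀ x, g x = x + f x := by intro x; rw [hg]; rfl
      have hgg : ∀ x, g (g x) = g x := by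
        intro x
        rw [hga, hga, map_add, hf, add_selfV F, add_zero]
      have hgs : ∀ x y, S.B (g x) y = S.B x (g y) := by
        intro x y
        rw [hga, hga, map_add, map_add, LinearMap.add_apply, hs]
      have hgJ : ∀ x, g (J x) = J (g x) := by
        intro x
        rw [hga, hga, map_add, hfJ]
      have hgJ' : ∀ x, g (J' x) = J' (g x) := by
        intro x
        rw [hga, hga, map_add, hfJ']
      have hg0 : ∃ x, g x ≠ 0 := by
        obtain ⟨x, hx⟩ := h1
        refine ⟨x, fun h => hx ?_⟩
        rw [hga] at h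
        exact (eq_of_add_eq_zeroV F h).symm
      have hg1 : ∃ x, g x ≠ x := by
        obtain ⟨x, hx⟩ := h0
        refine ⟨x, fun h => hx ?_⟩
        rw [hga] at h
        exact add_eq_left.1 h
      have aux : ∀ (f : V →ₗ[F] V) (hf : ∀ x, f (f x) = f x)
          (hs : ∀ x y, S.B (f x) y = S.B x (f y)) (hfJ : ∀ x, f (J x) = J (f x))
          (hfJ' : ∀ x, f (J' x) = J' (f x)) (h0 : ∃ x, f x ≠ 0) (h1 : ∃ x, f x ≠ x)
          (hJm : ∀ x ∈ LinearMap.range f, J x ∈ LinearMap.range f),
          HalfX (S.restr f hf hs) (J.restrict hJm) := by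
        intro f hf hs hfJ hfJ' h0 h1 hJm
        have hJm' : ∀ x ∈ LinearMap.range f, J' x ∈ LinearMap.range f := by
          rintro _ ⟨x, rfl⟩
          exact ⟨J' x, hfJ' x⟩
        have hlt : finrank F (LinearMap.range f) < finrank F V := by
          apply Submodule.finrank_lt
          intro htop
          obtain ⟨x, hx⟩ := h1
          have : x ∈ LinearMap.range f := by rw [htop]; trivial
          obtain ⟨y, rfl⟩ := this
          exact hx (hf y)
        haveI hnt : Nontrivial (LinearMap.range f) := by
          obtain ⟨x, hx⟩ := h0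
          refine ⟨⟨⟨f x, x, rfl⟩, 0, fun h => hx ?_⟩⟩
          exact congrArg Subtype.val h
        obtain ⟨c1, c2⟩ := piece_conds C1 C2 f hf hs hfJ hfJ' hJm hJm'
        rcases ih _ hlt (LinearMap.range f) (S.restr f hf hs) (J.restrict hJm) (J'.restrict hJm')
          rfl ⟨fun x => Subtype.ext (P.JJ x.1), fun x => Subtype.ext (P.JJ' x.1),
            fun x y => P.Js x.1 y.1, fun x y => P.Js' x.1 y.1, fun x => P.Ja x.1,
            fun x => P.Ja' x.1⟩ c1 c2 with h | ⟨p, hpN, hpJ⟩
        · exact h
        · exfalso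
          refine hp p.1 ⟨hpN.1, Or.inl (congrArg Subtype.val hpJ), ?_⟩ (congrArg Subtype.val hpJ)
          rcases hpN.2.2 with h | h
          · exact Or.inl (congrArg Subtype.val h)
          · exact Or.inr (congrArg Subtype.val h)
      have hJm : ∀ x ∈ LinearMap.range f, J x ∈ LinearMap.range f := by
        rintro _ ⟨x, rfl⟩
        exact ⟨J x, hfJ x⟩
      have hJmg : ∀ x ∈ LinearMap.range g, J x ∈ LinearMap.range g := by
        rintro _ ⟨x, rfl⟩
        exact ⟨J x, hgJ x⟩
      exact HalfX_combine f g hf hga hs hgg hgs hfJ hJm hJmg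
        (aux f hf hs hfJ hfJ' h0 h1 hJm) (aux g hgg hgs hgJ hgJ' hg0 hg1 hJmg)
    · haveI : PerfectRing F 2 := inferInstance
      haveI : CharP (Module.End F V) 2 :=
        charP_of_injective_algebraMap (algebraMap F (Module.End F V)).injective 2
      by_cases h0 : c0 = 0
      · refine z_nil P C1 C2 0 (Or.inl rfl) ⟨2 ^ k, ?_⟩
        have h1 : (J + J' + (0 : F) • LinearMap.id : V →ₗ[F] V) = J + J' := by
          rw [zero_smul, add_zero]
        rw [h1]
        ext x
        rw [hc0, h0, zero_smul]; rfl
      by_cases h1 : c0 = 1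
      · refine z_nil P C1 C2 1 (Or.inr rfl) ⟨2 ^ k, ?_⟩
        have h5 : ((J + J' + (1 : F) • LinearMap.id : V →ₗ[F] V) ^ (2 ^ k)) =
            (J + J') ^ (2 ^ k) + (LinearMap.id) ^ (2 ^ k) := by
          rw [one_smul]
          exact add_pow_char_pow_of_commute 2 _ (Commute.one_right _)
        have h6 : ((LinearMap.id : V →ₗ[F] V) ^ (2 ^ k)) = LinearMap.id := one_pow _
        rw [h5, h6]
        ext x
        rw [LinearMap.add_apply, hc0, h1, one_smul]
        exact add_selfV F x
      left
      set N : V →ₗ[F] V := J + J' with hN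
      have hNa : ∀ x, N x = J x + J' x := fun x => rfl
      have hNpow : ∀ x, N x = 0 → x = 0 := by
        intro x hx
        have h2 := hc0 x
        have h3 : (N ^ (2 ^ k)) x = 0 := by
          obtain ⟨j, hj⟩ : ∃ j, 2 ^ k = j + 1 := ⟨2 ^ k - 1, by
            have : 0 < 2 ^ k := by positivity
            omega⟩
          rw [hj, pow_app_succ, hx, map_zero]
        rw [h3] at h2
        exact (smul_eq_zero.1 h2.symm).resolve_left h0
      have hNone : ∀ x, N x = x → x = 0 := by
        intro x hx
        have h2 := hc0 x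
        have h3 : ∀ j : ℕ, (N ^ j) x = x := by
          intro j
          induction j with
          | zero => rfl
          | succ j ihj => rw [pow_app_succ, hx, ihj]
        rw [h3] at h2
        have h4 : (c0 - 1) • x = 0 := by rw [sub_smul, one_smul, ← h2, sub_self]
        exact (smul_eq_zero.1 h4).resolve_left (sub_ne_zero.2 h1)
      rcases field_case P hRs hRJ hRJ' k c0 hc0 (by
        rintro (h | h)
        · exact absurd h h0
        · exact absurd h h1) with hC | hH
      · exfalso
        obtain ⟨M, hM0, hMM, hMJ, hMJ', hMQ⟩ := hC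
        apply hM0
        apply C1 M ⟨hMM, hMJ, hMJ', hMQ⟩
        let c : V →ₗ[F] V := J ∘ₗ J' + J' ∘ₗ J
        have hca : ∀ x, c x = J (J' x) + J' (J x) := fun x => rfl
        refine even_rank_c (c := c) hJJ ?_ ?_ hMJ ?_
        · intro x
          rw [hca, hca, map_add, hJJ, hJJ]
          have := add_selfV F (J (J' x))
          linear_combination (norm := module) -(this)
        · rw [injective_iff_map_eq_zero]
          intro x hx
          apply hNpow
          apply hNone
          have h2 : N (N x) + N x = 0 := by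
            rw [← hx, hca, hNa, hNa, map_add, map_add, hJJ, hJJ']
            have a1 := add_selfV F (J x)
            have a2 := add_selfV F (J' x)
            linear_combination (norm := module) a1 + a2
          exact eq_of_add_eq_zeroV F h2
        · intro x
          rw [hca, hca, map_add, hMJ, hMJ', hMJ', hMJ]
      · exact HalfX_of_HalfJ hJJ P.Js hH

end Pool.Agent.OmegaEven
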