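import Mathlib
import Pool.Agent.OmegaEven.Count
import Pool.Agent.OmegaEven.Plus2
import Pool.Agent.OmegaEven.Minus

set_option autoImplicit false
set_option linter.unusedSectionVars false
set_option linter.unusedVariables false
set_option linter.unnecessarySeqFocus false
set_option linter.style.haveILetI false
set_option linter.unusedSimpArgs false

namespace Pool.Agent.OmegaEven

open Module

/-- a space with an irreducible isometry is not of plus type -/
theorem irr_not_half {F X : Type*} [Field F] [CharP F 2] [Finite F] [AddCommGroup X]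
    [Module F X] [FiniteDimensional F X] (S : QSp F X) (s : X →ₗ[F] X)
    (hs : ∀ x, S.Q (s x) = S.Q x)
    (hirr : ∀ Y : Submodule F X, (∀ y ∈ Y, s y ∈ Y) → Y = ⊥ ∨ Y = ⊤)
    (h2 : 2 ≤ finrank F X) : ¬ Half S := by
  classical
  rintro ⟨U, hU, hUd⟩
  obtain ⟨K, _, _, _, _, _, hKX, hKB, -, hKQ⟩ := irr_struct S s hs hirr h2
  have h1 := finrank_mul_finrank F K X
  rw [hKX] at h1
  haveI : CharP K 2 := charP_of_injective_algebraMap (algebraMap F K).injective 2
  haveI : PerfectRing F 2 := inferInstance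
  haveI : PerfectRing K 2 := inferInstance
  haveI : Algebra.IsSeparable F K := inferInstance
  obtain ⟨T, hTB, hTQ⟩ := transfer (R := K) S hKB
  haveI : Finite X := Module.finite_of_finite F
  letI : Fintype F := Fintype.ofFinite F
  letI : Fintype K := Fintype.ofFinite K
  letI : Fintype X := Fintype.ofFinite X
  have hTan : ∀ x, T.Q x = 0 → x = 0 := by
    intro x hx
    by_contra hx0
    obtain ⟨c, hc⟩ := hKQ x hx0
    apply hc
    rw [← hTQ, hx, mul_zero, map_zero]
  have hST : ∀ x, S.Q x = Algebra.trace F K (T.Q x) := by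
    intro x
    have := hTQ x 1
    rw [one_pow, one_mul, one_smul] at this
    exact this.symm
  set k := finrank F K with hk
  have hkpos : 0 < k := finrank_pos
  have c1 := card_aniso S T hTan hST hKX
  have c2 := card_plus S k hkpos (by omega) U hU (by omega)
  rw [c2, Module.card_eq_pow_finrank (K := F) (V := K), ← hk] at c1
  have hq : 1 < Fintype.card F := Fintype.one_lt_card
  have heven : 2 ∣ Fintype.card F := by
    have := Nat.cast_card_eq_zero F
    exact (CharP.cast_eq_zero_iff F 2 _).1 this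
  have heven' : 2 ∣ Fintype.card F ^ k := dvd_pow heven hkpos.ne'
  set q := Fintype.card F
  have hq0 : 1 ≤ q ^ k := Nat.one_le_pow _ _ (by omega)
  have hcop : Nat.Coprime (q ^ k + 1) (q ^ k - 1) := by
    rw [Nat.coprime_iff_gcd_eq_one]
    set d := Nat.gcd (q ^ k + 1) (q ^ k - 1) with hd
    have hd1 : d ∣ q ^ k + 1 := Nat.gcd_dvd_left _ _
    have hd2 : d ∣ q ^ k - 1 := Nat.gcd_dvd_right _ _
    have hd3 : d ∣ 2 := by
      have h3 := Nat.dvd_sub hd1 hd2
      have h4 : q ^ k + 1 - (q ^ k - 1) = 2 := by omega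
      rwa [h4] at h3
    rcases (Nat.dvd_prime Nat.prime_two).1 hd3 with h3 | h3
    · exact h3
    · exfalso
      rw [h3] at hd1
      omega
  have h3 := hcop.dvd_of_dvd_mul_left c1
  have h4 := Nat.le_of_dvd (by positivity) h3
  have h5 : q ^ (k - 1) < q ^ k := Nat.pow_lt_pow_right hq (by omega)
  omega

variable {F V : Type*} [Field F] [CharP F 2] [Finite F] [AddCommGroup V] [Module F V]
  [FiniteDimensional F V] (S : QSp F V)

theorem refl_comm {J : V →ₗ[F] V} (hJs : ∀ x y, S.B (J x) y = S.B x (J y)) {p : V}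
    (hp : J p = p ∨ J p = 0) (x : V) : S.refl p (J x) = J (S.refl p x) := by
  rw [S.refl_apply, S.refl_apply, map_add, map_smul, hJs]
  rcases hp with h | h
  · rw [h]
  · rw [h]; simp

/-- the split case -/
theorem Obs_split (hV : 4 < finrank F V) {s g : V ≃ₗ[F] V} (hs : s ∈ S.O) (hg : g ∈ S.O)
    (X : Submodule F V) (hX : X ⊓ S.perp X = ⊥) (hXs : ∀ x ∈ X, s x ∈ X)
    (hYs : ∀ x ∈ S.perp X, s x ∈ S.perp X)
    (hirX : ∀ Z : Submodule F V, Z ≤ X → (∀ y ∈ Z, s y ∈ Z) → Z = ⊥ ∨ Z = X)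
    (hirY : ∀ Z : Submodule F V, Z ≤ S.perp X → (∀ y ∈ Z, s y ∈ Z) → Z = ⊥ ∨ Z = S.perp X)
    (h2 : 2 ≤ finrank F X) (h2' : 2 ≤ finrank F (S.perp X)) : Obs S s (g * s * g⁻¹) := by
  haveI : PerfectRing F 2 := inferInstance
  haveI : Nontrivial V := by
    apply Module.nontrivial_of_finrank_pos (R := F); omega
  by_contra hobs
  have hY : S.perp X ⊓ S.perp (S.perp X) = ⊥ := by
    rw [S.perp_perp, inf_comm]; exact hX
  have hcompl : IsCompl X (S.perp X) := by
    refine ⟨disjoint_iff.2 hX, codisjoint_iff.2 ?_⟩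
    apply Submodule.eq_top_of_finrank_eq
    have h1 := Submodule.finrank_sup_add_finrank_inf_eq X (S.perp X)
    rw [hX, finrank_bot, add_zero] at h1
    have h3 := S.finrank_perp X
    omega
  obtain ⟨J, hJ1, hJ0⟩ : ∃ J : V →ₗ[F] V, (∀ x ∈ X, J x = x) ∧ ∀ x ∈ S.perp X, J x = 0 := by
    refine ⟨X.subtype ∘ₗ X.projectionOnto (S.perp X) hcompl, ?_, ?_⟩
    · intro x hx
      have := Submodule.projectionOnto_apply_left hcompl ⟨x, hx⟩
      rw [LinearMap.comp_apply]
      exact congrArg Subtype.val this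
    · intro x hx
      rw [LinearMap.comp_apply, (Submodule.projectionOnto_apply_eq_zero_iff hcompl).2 hx]
      rfl
  have hdec : ∀ v, ∃ x ∈ X, ∃ y ∈ S.perp X, v = x + y := by
    intro v
    have : v ∈ X ⊔ S.perp X := by rw [hcompl.sup_eq_top]; trivial
    obtain ⟨x, hx, y, hy, h⟩ := Submodule.mem_sup.1 this
    exact ⟨x, hx, y, hy, h.symm⟩
  have hJX : ∀ v, J v ∈ X := by
    intro v
    obtain ⟨x, hx, y, hy, rfl⟩ := hdec v
    rw [map_add, hJ1 x hx, hJ0 y hy, add_zero]; exact hx
  have hJJ : ∀ x, J (J x) = J x := fun x => hJ1 _ (hJX x)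
  have hXY : ∀ x ∈ X, ∀ y ∈ S.perp X, S.B x y = 0 := by
    intro x hx y hy
    rw [S.symm]; exact hy x hx
  have hJs : ∀ x y, S.B (J x) y = S.B x (J y) := by
    intro v w
    obtain ⟨x, hx, y, hy, rfl⟩ := hdec v
    obtain ⟨x', hx', y', hy', rfl⟩ := hdec w
    simp only [map_add, LinearMap.add_apply, hJ1 x hx, hJ0 y hy, hJ1 x' hx', hJ0 y' hy',
      hXY x hx y' hy', hy x' hx', add_zero]
  have hrangeX : LinearMap.range J = X := by
    apply le_antisymm
    · rintro _ ⟨x, rfl⟩; exact hJX x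
    · intro x hx; exact ⟨x, hJ1 x hx⟩
  have hJa : ∀ x, S.B (J x) x = 0 := by
    intro x
    rw [← hJJ, hJs]; exact S.self _
  have hadj : ∀ x y, S.B (g x) y = S.B x (g⁻¹ y) := by
    intro x y
    rw [← S.O_B hg x (g⁻¹ y), apply_inv_self']
  obtain ⟨J', hJ'⟩ : ∃ J' : V →ₗ[F] V, ∀ x, J' x = g (J (g⁻¹ x)) :=
    ⟨g.toLinearMap ∘ₗ J ∘ₗ (g⁻¹).toLinearMap, fun x => rfl⟩
  have P : Pair S J J' 0 := by
    refine ⟨?_, ?_, hJs, ?_, hJa, ?_⟩
    · intro x; rw [hJJ, zero_smul, add_zero]
    · intro x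
      rw [hJ', hJ', inv_apply_self', hJJ, zero_smul, add_zero]
    · intro x y
      rw [hJ', hJ', hadj, hJs, ← S.O_B hg (g⁻¹ x), apply_inv_self']
    · intro x
      rw [hJ', hadj]
      exact hJa _
  -- elements commuting with `J` and `J'`
  have hX0 : X ≠ ⊥ := by
    intro h; rw [h, finrank_bot] at h2; omega
  have hX1 : X ≠ ⊤ := by
    intro h
    have h3 := S.finrank_perp X
    have h4 : finrank F X = finrank F V := by rw [h, finrank_top]
    omega
  set X' := X.map g.toLinearMap with hX'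
  have hX'r : finrank F X' = finrank F X := LinearEquiv.finrank_map_eq g X
  have hX'0 : X' ≠ ⊥ := by
    intro h; rw [h, finrank_bot] at hX'r; omega
  have hX'1 : X' ≠ ⊤ := by
    intro h
    have h3 := S.finrank_perp X
    have h4 : finrank F X' = finrank F V := by rw [h, finrank_top]
    omega
  have hJ'X : ∀ x ∈ X', J' x = x := by
    rintro _ ⟨x, hx, rfl⟩
    change J' (g x) = g x
    rw [hJ', inv_apply_self', hJ1 x hx]
  have hJ'X' : ∀ x, J' x ∈ X' := by
    intro x
    rw [hJ']
    exact ⟨J (g⁻¹ x), hJX _, rfl⟩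
  have key : ∀ h ∈ S.Om, (∀ x, h (J x) = J (h x)) → (∀ x, h (J' x) = J' (h x)) → h = 1 := by
    intro h hh hhJ hhJ'
    by_contra h1
    apply hobs
    refine ⟨h, hh, h1, not_gen_of_inv S hV hX0 hX1 ?_ hXs, not_gen_of_inv S hV hX'0 hX'1 ?_ ?_⟩
    · intro x hx
      rw [← hJ1 x hx, hhJ]; exact hJX _
    · intro x hx
      rw [← hJ'X x hx, hhJ']; exact hJ'X' _
    · rintro _ ⟨x, hx, rfl⟩
      refine ⟨s x, hXs x hx, ?_⟩
      change g (s x) = g (s (g⁻¹ (g x)))
      rw [inv_apply_self']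
  have hinv1 : ∀ M, (h : SqZ S J J' M) → (∀ x, inv1 M h.1 (J x) = J (inv1 M h.1 x)) ∧
      (∀ x, inv1 M h.1 (J' x) = J' (inv1 M h.1 x)) := by
    intro M h
    constructor
    · intro x
      rw [inv1_apply, inv1_apply, h.2.1, map_add]
    · intro x
      rw [inv1_apply, inv1_apply, h.2.2.1, map_add]
  have C1 : ∀ M : V →ₗ[F] V, SqZ S J J' M → Even (finrank F (LinearMap.range M)) → M = 0 := by
    intro M hM hev
    have h1 := key _ (S.inv1_mem hV ⟨hM.1, hM.2.2.2⟩ hev) (hinv1 M hM).1 (hinv1 M hM).2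
    ext x
    have h3 := LinearEquiv.congr_fun h1 x
    rw [inv1_apply] at h3
    exact add_eq_left.1 h3
  have C2 : ∀ M : V →ₗ[F] V, SqZ S J J' M → ∀ b, NS S J J' b → ∀ x, S.B x b = 0 → M x = 0 := by
    intro M hM b hb x hx
    rcases Nat.even_or_odd (finrank F (LinearMap.range M)) with hev | hodd
    · rw [C1 M hM hev]; rfl
    · have h1 := key _ ((S.inv1_mem_aux hV _ M ⟨hM.1, hM.2.2.2⟩ rfl).2 hodd b hb.1)
        (fun y => by
          rw [mul_apply', mul_apply', (hinv1 M hM).1, refl_comm S hJs hb.2.1])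
        (fun y => by
          rw [mul_apply', mul_apply', (hinv1 M hM).2, refl_comm S P.Js' hb.2.2])
      have h3 : S.refl b = inv1 M hM.1 := by
        have h4 : S.refl b * (S.refl b * inv1 M hM.1) = S.refl b * 1 := by rw [h1]
        rw [← mul_assoc, S.refl_refl, one_mul, mul_one] at h4
        exact h4.symm
      have h4 := LinearEquiv.congr_fun h3 x
      rw [S.refl_apply, hx, mul_zero, zero_smul, inv1_apply] at h4
      exact (add_left_cancel h4).symm
  have hgid : ∀ (A : V →ₗ[F] V) x, (LinearMap.id + A : V →ₗ[F] V) x = x + A x := fun A x => rfl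
  have hsq : ∀ M, SqZ S (LinearMap.id + J) (LinearMap.id + J') M → SqZ S J J' M := by
    rintro M ⟨h1, h3, h4, h5⟩
    refine ⟨h1, ?_, ?_, h5⟩
    · intro x
      have h6 := h3 x
      rw [hgid, hgid, map_add] at h6
      exact add_left_cancel h6
    · intro x
      have h6 := h4 x
      rw [hgid, hgid, map_add] at h6
      exact add_left_cancel h6
  have hflip : ∀ (A : V →ₗ[F] V) p, ((LinearMap.id + A : V →ₗ[F] V) p = p ∨
      (LinearMap.id + A : V →ₗ[F] V) p = 0) → (A p = p ∨ A p = 0) := by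
    intro A p h
    rw [hgid] at h
    rcases h with h | h
    · right; exact add_eq_left.1 h
    · left; exact (eq_of_add_eq_zeroV F h).symm
  have hNS : ∀ p, NS S (LinearMap.id + J) (LinearMap.id + J') p → NS S J J' p := by
    rintro p ⟨h1, h3, h4⟩
    exact ⟨h1, hflip J p h3, hflip J' p h4⟩
  -- the restrictions
  have haux : ∀ W : Submodule F V, (hW : ∀ x ∈ W, s x ∈ W) →
      (∀ Z : Submodule F V, Z ≤ W → (∀ y ∈ Z, s y ∈ Z) → Z = ⊥ ∨ Z = W) →
      ∀ Z : Submodule F W, (∀ y ∈ Z, s.toLinearMap.restrict hW y ∈ Z) → Z = ⊥ ∨ Z = ⊤ := by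
    intro W hW hir Z hZ
    rcases hir (Z.map W.subtype) (Submodule.map_subtype_le W Z) (by
      rintro _ ⟨z, hz, rfl⟩
      exact ⟨_, hZ z hz, rfl⟩) with h | h
    · left
      apply Submodule.map_injective_of_injective (Submodule.injective_subtype W)
      rw [h, Submodule.map_bot]
    · right
      rw [eq_top_iff]
      rintro ⟨x, hx⟩ -
      rw [← h] at hx
      obtain ⟨z, hz, hzx⟩ := hx
      have : z = ⟨x, hx⟩ := Subtype.ext hzx
      rw [← this]; exact hz
  have nhX := irr_not_half (S.sub X hX) (s.toLinearMap.restrict hXs) (fun x => hs x.1)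
    (haux X hXs hirX) h2
  have nhY := irr_not_half (S.sub (S.perp X) hY) (s.toLinearMap.restrict hYs) (fun x => hs x.1)
    (haux _ hYs hirY) h2'
  have toHalf : ∀ (W : Submodule F V) (hW : W ⊓ S.perp W = ⊥) (A : V →ₗ[F] V),
      LinearMap.range A = W → HalfX S A → Half (S.sub W hW) := by
    rintro W hW A rfl ⟨U, hU, hUQ, hUd⟩
    refine ⟨U.comap (LinearMap.range A).subtype, ?_, ?_⟩
    · intro x hx
      exact hUQ x.1 hx
    · rw [← hUd, ← Submodule.finrank_map_subtype_eq, Submodule.map_comap_subtype,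
        inf_eq_right.2 hU]
  have hrangeY : LinearMap.range (LinearMap.id + J : V →ₗ[F] V) = S.perp X := by
    apply le_antisymm
    · rintro _ ⟨v, rfl⟩
      obtain ⟨x, hx, y, hy, rfl⟩ := hdec v
      rw [hgid, map_add, hJ1 x hx, hJ0 y hy, add_zero, add_comm x y, add_assoc, add_selfV F,
        add_zero]
      exact hy
    · intro x hx
      exact ⟨x, by rw [hgid, hJ0 x hx, add_zero]⟩
  obtain ⟨p, hpN, hpJ⟩ : ∃ p, NS S J J' p ∧ J p = p := by
    rcases z_main _ V S J J' rfl P C1 C2 with h | h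
    · exact absurd (toHalf X hX J hrangeX h) nhX
    · exact h
  obtain ⟨p', hpN', hpJ'⟩ : ∃ p, NS S J J' p ∧ J p = 0 := by
    have P' : Pair S (LinearMap.id + J) (LinearMap.id + J') 0 := by
      refine ⟨?_, ?_, ?_, ?_, ?_, ?_⟩
      · intro x
        rw [hgid, hgid, map_add, hJJ, add_selfV F, add_zero, zero_smul, add_zero]
      · intro x
        have h3 : J' (J' x) = J' x := by
          have := P.JJ' x
          rwa [zero_smul, add_zero] at this
        rw [hgid, hgid, map_add, h3, add_selfV F, add_zero, zero_smul, add_zero]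
      · intro x y
        rw [hgid, hgid, map_add, map_add, LinearMap.add_apply, hJs]
      · intro x y
        rw [hgid, hgid, map_add, map_add, LinearMap.add_apply, P.Js']
      · intro x
        rw [hgid, map_add, LinearMap.add_apply, hJa, S.self, add_zero]
      · intro x
        rw [hgid, map_add, LinearMap.add_apply, P.Ja', S.self, add_zero]
    rcases z_main _ V S (LinearMap.id + J) (LinearMap.id + J') rfl P'
      (fun M hM hev => C1 M (hsq M hM) hev)
      (fun M hM b hb x hx => C2 M (hsq M hM) b (hNS b hb) x hx) with h | ⟨p', h1, h3⟩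
    · exact absurd (toHalf _ hY _ hrangeY h) nhY
    · refine ⟨p', hNS p' h1, ?_⟩
      rw [hgid] at h3
      exact add_eq_left.1 h3
  -- the product of the two reflections
  have h1 := key _ (S.refl_refl_mem hV hpN.1 hpN'.1)
    (fun y => by
      rw [mul_apply', mul_apply', refl_comm S hJs hpN'.2.1, refl_comm S hJs hpN.2.1])
    (fun y => by
      rw [mul_apply', mul_apply', refl_comm S P.Js' hpN'.2.2, refl_comm S P.Js' hpN.2.2])
  have h3 : S.refl p' = S.refl p := by
    have h4 : S.refl p * (S.refl p * S.refl p') = S.refl p * 1 := by rw [h1]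
    rwa [← mul_assoc, S.refl_refl, one_mul, mul_one] at h4
  have hp0 : p ≠ 0 := by
    rintro rfl
    exact hpN.1 S.Q_zero
  obtain ⟨x, hx⟩ := S.exists_ne hp0
  have h4 := LinearEquiv.congr_fun h3 x
  rw [S.refl_apply, S.refl_apply, hx, mul_one] at h4
  have h5 := congrArg J (add_left_cancel h4)
  rw [map_smul, map_smul, hpJ, hpJ', smul_zero] at h5
  rcases smul_eq_zero.1 h5.symm with h6 | h6
  · exact hpN.1 (inv_eq_zero.1 h6)
  · exact hp0 h6

/-- both types -/
theorem Obs_all (m : ℕ) (hm : 4 ≤ m) (hme : Even m) (hV : finrank F V = 2 * m)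
    {s g : V ≃ₗ[F] V} (hs : s ∈ S.O) (hg : g ∈ S.O) : Obs S s (g * s * g⁻¹) := by
  rcases structure_cases S m hm hme hV hs hg with hirr | hobs | ⟨X, h1, h2, h3, h4, h5, h6, h7⟩
  · refine Obs_irr S (by omega) ?_ (irr_not_half S s.toLinearMap hs hirr (by omega)) hs hg hirr
    obtain ⟨k, hk⟩ := hme
    rw [hV, hk]
    exact ⟨k, by ring⟩
  · exact hobs
  · exact Obs_split S (by omega) hs hg X h1 h2 h3 h4 h5 (by omega) (by omega)

end Pool.Agent.OmegaEven
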