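import Mathlib

set_option autoImplicit false

/-! Definitions for the statements on the uniform domination number of orthogonal groups. -/

namespace Pool.Agent.OmegaEven

section groups

/-- a total dominating set of the generating graph of `G` -/
def IsTDS (G : Type*) [Group G] (T : Set G) : Prop :=
  (∀ s ∈ T, s ≠ 1) ∧ ∀ g : G, g ≠ 1 → ∃ s ∈ T, Subgroup.closure {g, s} = ⊤

/-- the uniform domination number: the least cardinality of a total dominating set all of whose
elements are conjugate to each other (`⊤` when there is none) -/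
noncomputable def uniformDomination (G : Type*) [Group G] : ℕ∞ :=
  ⨅ T ∈ {T : Set G | IsTDS G T ∧ ∀ s ∈ T, ∀ t ∈ T, IsConj s t}, T.encard

end groups

variable {F V : Type*} [Field F] [AddCommGroup V] [Module F V]

/-- the polar form of `Q` is nondegenerate -/
def Nondeg (Q : QuadraticForm F V) : Prop :=
  ∀ x : V, (∀ y : V, QuadraticMap.polar Q x y = 0) → x = 0

/-- `g` preserves `Q` -/
def Preserves (Q : QuadraticForm F V) (g : V ≃ₗ[F] V) : Prop := ∀ x, Q (g x) = Q x

theorem preserves_mul (Q : QuadraticForm F V) {a b : V ≃ₗ[F] V} (ha : Preserves Q a)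
    (hb : Preserves Q b) : Preserves Q (a * b) := by
  intro x
  change Q (a (b x)) = _
  rw [ha, hb]

theorem preserves_one (Q : QuadraticForm F V) : Preserves Q (1 : V ≃ₗ[F] V) := fun _ => rfl

theorem preserves_inv (Q : QuadraticForm F V) {a : V ≃ₗ[F] V} (ha : Preserves Q a) :
    Preserves Q a⁻¹ := by
  intro x
  have h := ha (a⁻¹ x)
  rw [← h]
  congr 1
  exact a.apply_symm_apply x

/-- the isometry group of `Q` -/
def orthogonalGroup (Q : QuadraticForm F V) : Subgroup (V ≃ₗ[F] V) where
  carrier := {g | Preserves Q g}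
  mul_mem' := preserves_mul Q
  one_mem' := preserves_one Q
  inv_mem' := preserves_inv Q

/-- `Ω(Q)`, the commutator subgroup of the isometry group -/
def Omega (Q : QuadraticForm F V) : Subgroup (V ≃ₗ[F] V) :=
  ⁅orthogonalGroup Q, orthogonalGroup Q⁆

/-- `g` acts on `V` as a scalar -/
def ActsScalar (g : V ≃ₗ[F] V) : Prop := ∃ c : F, ∀ x, g x = c • x

theorem actsScalar_mul {a b : V ≃ₗ[F] V} (ha : ActsScalar a) (hb : ActsScalar b) :
    ActsScalar (a * b) := by
  obtain ⟨c, hc⟩ := ha
  obtain ⟨d, hd⟩ := hb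
  refine ⟨c * d, fun x => ?_⟩
  change a (b x) = _
  rw [hc, hd, mul_smul]

theorem actsScalar_one : ActsScalar (1 : V ≃ₗ[F] V) := ⟨1, fun x => (one_smul F x).symm⟩

theorem actsScalar_inv {a : V ≃ₗ[F] V} (ha : ActsScalar a) : ActsScalar a⁻¹ := by
  obtain ⟨c, hc⟩ := ha
  refine ⟨c⁻¹, fun x => ?_⟩
  change a.symm x = _
  rw [LinearEquiv.symm_apply_eq, map_smul]
  by_cases h : c = 0
  · have h2 : x = 0 := by
      rw [← a.apply_symm_apply x, hc, h, zero_smul]
    rw [h2, map_zero, smul_zero]
  · rw [hc, smul_smul, inv_mul_cancel₀ h, one_smul]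

/-- the subgroup of invertible linear maps which act as scalars -/
def scalarGroup (F V : Type*) [Field F] [AddCommGroup V] [Module F V] :
    Subgroup (V ≃ₗ[F] V) where
  carrier := {g | ActsScalar g}
  mul_mem' := actsScalar_mul
  one_mem' := actsScalar_one
  inv_mem' := actsScalar_inv

/-- the elements of `Ω(Q)` which act on `V` as scalars -/
def scalarsIn (Q : QuadraticForm F V) : Subgroup (Omega Q) := (scalarGroup F V).subgroupOf (Omega Q)

theorem scalarsIn_normal (Q : QuadraticForm F V) : (scalarsIn Q).Normal where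
  conj_mem := by
    rintro a ⟨c, hc⟩ g
    refine ⟨c, fun x => ?_⟩
    change g.1 (a.1 (g.1.symm x)) = _
    have hc' : ∀ y, a.1 y = c • y := hc
    rw [hc', map_smul, LinearEquiv.apply_symm_apply]

instance (Q : QuadraticForm F V) : (scalarsIn Q).Normal := scalarsIn_normal Q

/-- `PΩ(Q)`: the quotient of `Ω(Q)` by its subgroup of scalars -/
abbrev POmega (Q : QuadraticForm F V) : Type _ := Omega Q ⧸ scalarsIn Q

end Pool.Agent.OmegaEven
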