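import Mathlib
import Pool.Agent.OmegaEven.Defs
import Pool.Agent.OmegaEven.Both

set_option autoImplicit false
set_option linter.unusedSectionVars false
set_option linter.unusedVariables false

namespace Pool.Agent.OmegaEven

open Module

/-- a criterion -/
theorem three_le_uniformDomination (G : Type*) [Group G]
    (h : ∀ s g : G, ∃ k : G, k ≠ 1 ∧ Subgroup.closure {k, s} ≠ ⊤ ∧
      Subgroup.closure {k, g * s * g⁻¹} ≠ ⊤) : 3 ≤ uniformDomination G := by
  rw [uniformDomination]
  refine le_iInf₂ fun T hT => ?_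
  obtain ⟨⟨hT1, hT2⟩, hTc⟩ := hT
  by_contra hcon
  push Not at hcon
  obtain ⟨k0, hk0, -⟩ := h 1 1
  obtain ⟨s, hs, -⟩ := hT2 k0 hk0
  obtain ⟨t, ht, hst⟩ : ∃ t ∈ T, ∀ u ∈ T, u = s ∨ u = t := by
    by_cases hone : ∀ u ∈ T, u = s
    · exact ⟨s, hs, fun u hu => Or.inl (hone u hu)⟩
    · push Not at hone
      obtain ⟨t, ht, hts⟩ := hone
      refine ⟨t, ht, fun u hu => ?_⟩
      by_contra hne
      push Not at hne
      have h1 : ({s, t, u} : Set G) ⊆ T := by
        rintro x (rfl | rfl | rfl) <;> assumption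
      have h2 := Set.encard_le_encard h1
      have h3 : ({s, t, u} : Set G).encard = 3 := by
        rw [Set.encard_eq_three]
        exact ⟨s, t, u, hts.symm, hne.1.symm, hne.2.symm, rfl⟩
      rw [h3] at h2
      exact absurd h2 (not_le.2 hcon)
  obtain ⟨g, hg⟩ := isConj_iff.1 (hTc s hs t ht)
  obtain ⟨k, hk1, hks, hkt⟩ := h s g
  obtain ⟨u, hu, hgen⟩ := hT2 k hk1
  rcases hst u hu with rfl | rfl
  · exact hks hgen
  · rw [← hg] at hgen
    exact hkt hgen

variable {F V : Type*} [Field F] [AddCommGroup V] [Module F V]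

/-- the quadratic space of a quadratic form -/
def toQSp (Q : QuadraticForm F V) (hQ : Nondeg Q) : QSp F V where
  Q := Q
  B := QuadraticMap.polarBilin Q
  add x y := by
    rw [QuadraticMap.polarBilin_apply_apply, QuadraticMap.polar]; ring
  smul c x := by
    rw [QuadraticMap.map_smul, smul_eq_mul]; ring
  nd := hQ

theorem Omega_eq (Q : QuadraticForm F V) (hQ : Nondeg Q) : Omega Q = (toQSp Q hQ).Om := rfl

theorem uniformDomination_of_Obs [CharP F 2] (Q : QuadraticForm F V) (hQ : Nondeg Q)
    [Finite F] [FiniteDimensional F V]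
    (h : ∀ s ∈ (toQSp Q hQ).O, ∀ g ∈ (toQSp Q hQ).O, Obs (toQSp Q hQ) s (g * s * g⁻¹)) :
    3 ≤ uniformDomination (POmega Q) := by
  have hscal : scalarsIn Q = ⊥ := by
    rw [eq_bot_iff]
    rintro a ⟨c, hc⟩
    replace hc : ∀ x, a.1 x = c • x := hc
    rw [Subgroup.mem_bot]
    have haO : ∀ x, Q (a.1 x) = Q x := fun x => (toQSp Q hQ).Om_le a.2 x
    obtain ⟨k, -, hk1, -⟩ := h 1 (Subgroup.one_mem _) 1 (Subgroup.one_mem _)
    have hne : ∃ x, Q x ≠ 0 := by
      by_contra hcon
      push Not at hcon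
      apply hk1
      ext x
      have : ∀ y : V, y = 0 := by
        intro y
        apply hQ
        intro z
        rw [QuadraticMap.polar, hcon, hcon, hcon]; ring
      rw [this (k x), this ((1 : V ≃ₗ[F] V) x)]
    obtain ⟨x, hx⟩ := hne
    have h1 := haO x
    rw [hc, QuadraticMap.map_smul, smul_eq_mul] at h1
    have h2 : (c - 1) ^ 2 * Q x = 0 := by
      linear_combination (norm := (ring_nf; reduce_mod_char!)) h1
    have h3 : c = 1 := by
      rcases mul_eq_zero.1 h2 with h4 | h4
      · exact sub_eq_zero.1 ((pow_eq_zero_iff two_ne_zero).1 h4)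
      · exact absurd h4 hx
    apply Subtype.ext
    ext y
    rw [hc, h3, one_smul]; rfl
  have hinj : ∀ a b : Omega Q, (QuotientGroup.mk a : POmega Q) = QuotientGroup.mk b → a = b := by
    intro a b hab
    rw [QuotientGroup.eq, hscal, Subgroup.mem_bot] at hab
    exact (inv_mul_eq_one.1 hab)
  have key : ∀ a b : Omega Q,
      ¬ (Omega Q ≤ Subgroup.closure {a.1, b.1}) →
      Subgroup.closure {(QuotientGroup.mk a : POmega Q), QuotientGroup.mk b} ≠ ⊤ := by
    intro a b hne htop
    apply hne
    intro x hx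
    have h1 : (QuotientGroup.mk ⟨x, hx⟩ : POmega Q) ∈
        Subgroup.closure {(QuotientGroup.mk a : POmega Q), QuotientGroup.mk b} := by
      rw [htop]; trivial
    have h2 : Subgroup.closure {(QuotientGroup.mk a : POmega Q), QuotientGroup.mk b} =
        (Subgroup.closure {a, b}).map (QuotientGroup.mk' (scalarsIn Q)) := by
      rw [MonoidHom.map_closure, Set.image_pair]; rfl
    rw [h2] at h1
    obtain ⟨y, hy, hyx⟩ := h1
    have h3 : y = ⟨x, hx⟩ := hinj _ _ hyx
    rw [h3] at hy
    have h4 : (Subgroup.closure {a, b}).map (Omega Q).subtype = Subgroup.closure {a.1, b.1} := by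
      rw [MonoidHom.map_closure, Set.image_pair]; rfl
    rw [← h4]
    exact ⟨_, hy, rfl⟩
  apply three_le_uniformDomination
  intro s g
  induction s using QuotientGroup.induction_on with
  | H s =>
    induction g using QuotientGroup.induction_on with
    | H g =>
      obtain ⟨k, hk, hk1, hks, hkt⟩ := h s.1 ((toQSp Q hQ).Om_le s.2) g.1
        ((toQSp Q hQ).Om_le g.2)
      refine ⟨QuotientGroup.mk ⟨k, hk⟩, ?_, key _ _ hks, key ⟨k, hk⟩ (g * s * g⁻¹) hkt⟩
      intro h1
      apply hk1
      have := hinj ⟨k, hk⟩ 1 h1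
      exact congrArg Subtype.val this

theorem even_final [Finite F] [CharP F 2] (m : ℕ) (hm : 4 ≤ m) (hme : Even m)
    (hV : finrank F V = 2 * m) (Q : QuadraticForm F V) (hQ : Nondeg Q) :
    3 ≤ uniformDomination (POmega Q) := by
  have : FiniteDimensional F V := Module.finite_of_finrank_pos (by omega)
  exact uniformDomination_of_Obs Q hQ fun s hs g hg => Obs_all _ m hm hme hV hs hg

end Pool.Agent.OmegaEven
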